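import Mathlib

/-!
# Small values of auxiliary polynomials
-/

set_option autoImplicit false

namespace Pool.Agent.Run7.h80.Sym

/-- `y` lies in the rectangle with centre `c` and half width `h` -/
structure Near (y : ℂ) (c h : ℝ) : Prop where
  re : |y.re - c| ≤ h
  im : |y.im| ≤ 0.00422

lemma near {y : ℂ} {a b c h : ℝ} (ha : a ≤ y.re) (hb : y.re ≤ b) (hi : |y.im| ≤ 0.00422)
    (h1 : c - a ≤ h) (h2 : b - c ≤ h) : Near y c h :=
  ⟨abs_le.2 ⟨by linarith, by linarith⟩, hi⟩

lemma norm_le_of {z : ℂ} {p q A : ℝ} (hA : 0 ≤ A) (h1 : |z.re| ≤ p) (h2 : |z.im| ≤ q)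
    (h : p ^ 2 + q ^ 2 ≤ A ^ 2) : ‖z‖ ≤ A := by
  have h3 : ‖z‖ ^ 2 ≤ A ^ 2 := by
    rw [← Complex.normSq_eq_norm_sq, Complex.normSq_apply]
    have h4 : z.re ^ 2 ≤ p ^ 2 := by
      rw [← sq_abs]
      exact pow_le_pow_left₀ (abs_nonneg _) h1 2
    have h5 : z.im ^ 2 ≤ q ^ 2 := by
      rw [← sq_abs]
      exact pow_le_pow_left₀ (abs_nonneg _) h2 2
    nlinarith
  exact (pow_le_pow_iff_left₀ (norm_nonneg _) hA two_ne_zero).1 h3

lemma lin_le {y : ℂ} {c h k d A : ℝ} (hn : Near y c h) (hd : |c - k| ≤ d) (hA0 : 0 ≤ A)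
    (hA : (d + h) ^ 2 + 0.00422 ^ 2 ≤ A ^ 2) : ‖y - k‖ ≤ A := by
  apply norm_le_of hA0 (p := d + h) (q := 0.00422) _ _ hA
  · have h1 : (y - k).re = (y.re - c) + (c - k) := by simp
    rw [h1]
    refine (abs_add_le _ _).trans ?_
    linarith [hn.re]
  · simpa using hn.im

lemma gold_le {y : ℂ} {c h d e A : ℝ} (hn : Near y c h) (hd : |c ^ 2 - c - 1| ≤ d)
    (he : |2 * c - 1| ≤ e) (hA0 : 0 ≤ A) (hA : (d + e * h + h ^ 2 + 0.00422 ^ 2) ^ 2 +
      ((e + 2 * h) * 0.00422) ^ 2 ≤ A ^ 2) : ‖y ^ 2 - y - 1‖ ≤ A := by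
  have hh : 0 ≤ h := (abs_nonneg _).trans hn.re
  have he0 : 0 ≤ e := (abs_nonneg _).trans he
  have hi2 : y.im ^ 2 ≤ 0.00422 ^ 2 := by
    rw [← sq_abs]
    exact pow_le_pow_left₀ (abs_nonneg _) hn.im 2
  set δ := y.re - c with hδ
  have hr := hn.re
  have hδ2 : δ ^ 2 ≤ h ^ 2 := by
    rw [← sq_abs]
    exact pow_le_pow_left₀ (abs_nonneg _) hr 2
  have hyr : y.re = c + δ := by rw [hδ]; ring
  apply norm_le_of hA0 _ _ hA
  · have h1 : (y ^ 2 - y - 1).re = (c ^ 2 - c - 1) + (2 * c - 1) * δ + (δ ^ 2 - y.im ^ 2) := by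
      simp only [Complex.sub_re, Complex.one_re, pow_two, Complex.mul_re, hyr]
      ring
    rw [h1]
    have h2 := abs_add_le ((c ^ 2 - c - 1) + (2 * c - 1) * δ) (δ ^ 2 - y.im ^ 2)
    have h3 := abs_add_le (c ^ 2 - c - 1) ((2 * c - 1) * δ)
    rw [abs_mul] at h3
    have h4 : |2 * c - 1| * |δ| ≤ e * h := mul_le_mul he hr (abs_nonneg _) he0
    have h5 : |δ ^ 2 - y.im ^ 2| ≤ h ^ 2 + 0.00422 ^ 2 := by
      rw [abs_le]
      constructor <;> nlinarith [sq_nonneg δ, sq_nonneg y.im]
    linarith
  · have h1 : (y ^ 2 - y - 1).im = ((2 * c - 1) + 2 * δ) * y.im := by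
      simp only [Complex.sub_im, Complex.one_im, pow_two, Complex.mul_im, hyr]
      ring
    rw [h1, abs_mul]
    apply mul_le_mul _ hn.im (abs_nonneg _) (by positivity)
    refine (abs_add_le _ _).trans ?_
    rw [abs_mul, abs_two]
    linarith

lemma two_le {y : ℂ} {c h d e A : ℝ} (hn : Near y c h) (hd : |c ^ 2 - 2| ≤ d)
    (he : |c| ≤ e) (hA0 : 0 ≤ A) (hA : (d + 2 * e * h + h ^ 2 + 0.00422 ^ 2) ^ 2 +
      ((2 * e + 2 * h) * 0.00422) ^ 2 ≤ A ^ 2) : ‖y ^ 2 - 2‖ ≤ A := by
  have hh : 0 ≤ h := (abs_nonneg _).trans hn.re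
  have he0 : 0 ≤ e := (abs_nonneg _).trans he
  have hi2 : y.im ^ 2 ≤ 0.00422 ^ 2 := by
    rw [← sq_abs]
    exact pow_le_pow_left₀ (abs_nonneg _) hn.im 2
  set δ := y.re - c with hδ
  have hr := hn.re
  have hδ2 : δ ^ 2 ≤ h ^ 2 := by
    rw [← sq_abs]
    exact pow_le_pow_left₀ (abs_nonneg _) hr 2
  have hyr : y.re = c + δ := by rw [hδ]; ring
  apply norm_le_of hA0 _ _ hA
  · have h1 : (y ^ 2 - 2).re = (c ^ 2 - 2) + 2 * c * δ + (δ ^ 2 - y.im ^ 2) := by
      simp only [Complex.sub_re, Complex.re_ofNat, pow_two, Complex.mul_re, hyr]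
      ring
    rw [h1]
    have h2 := abs_add_le ((c ^ 2 - 2) + 2 * c * δ) (δ ^ 2 - y.im ^ 2)
    have h3 := abs_add_le (c ^ 2 - 2) (2 * c * δ)
    rw [abs_mul, abs_mul, abs_two] at h3
    have h4 : 2 * |c| * |δ| ≤ 2 * e * h :=
      mul_le_mul (by linarith) hr (abs_nonneg _) (by positivity)
    have h5 : |δ ^ 2 - y.im ^ 2| ≤ h ^ 2 + 0.00422 ^ 2 := by
      rw [abs_le]
      constructor <;> nlinarith [sq_nonneg δ, sq_nonneg y.im]
    linarith
  · have h1 : (y ^ 2 - 2).im = (2 * c + 2 * δ) * y.im := by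
      simp only [Complex.sub_im, Complex.im_ofNat, pow_two, Complex.mul_im, hyr]
      ring
    rw [h1, abs_mul]
    apply mul_le_mul _ hn.im (abs_nonneg _) (by positivity)
    refine (abs_add_le _ _).trans ?_
    rw [abs_mul, abs_mul, abs_two]
    linarith

lemma prod4 {a b c d A B C D : ℝ} (ha : 0 ≤ a) (hb : 0 ≤ b) (hc : 0 ≤ c) (hd : 0 ≤ d)
    (h1 : a ≤ A) (h2 : b ≤ B) (h3 : c ≤ C) (h4 : d ≤ D) (h : A * B * C * D ≤ 0.96) :
    a * b * c * d ≤ 0.96 :=
  le_trans (mul_le_mul (mul_le_mul (mul_le_mul h1 h2 hb (ha.trans h1)) h3 hc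
    (mul_nonneg (ha.trans h1) (hb.trans h2))) h4 hd
    (mul_nonneg (mul_nonneg (ha.trans h1) (hb.trans h2)) (hc.trans h3))) h

lemma prod5 {a b c d e A B C D E : ℝ} (ha : 0 ≤ a) (hb : 0 ≤ b) (hc : 0 ≤ c) (hd : 0 ≤ d)
    (he : 0 ≤ e) (h1 : a ≤ A) (h2 : b ≤ B) (h3 : c ≤ C) (h4 : d ≤ D) (h5 : e ≤ E)
    (h : A * B * C * D * E ≤ 0.96) : a * b * c * d * e ≤ 0.96 :=
  le_trans (mul_le_mul (mul_le_mul (mul_le_mul (mul_le_mul h1 h2 hb (ha.trans h1)) h3 hc
    (mul_nonneg (ha.trans h1) (hb.trans h2))) h4 hd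
    (mul_nonneg (mul_nonneg (ha.trans h1) (hb.trans h2)) (hc.trans h3))) h5 he
    (mul_nonneg (mul_nonneg (mul_nonneg (ha.trans h1) (hb.trans h2)) (hc.trans h3))
      (hd.trans h4))) h


lemma phi2 {y : ℂ} (h1 : (-1.4143) ≤ y.re) (h2 : y.re ≤ 1.7303)
    (hi : |y.im| ≤ 0.00422) : ‖y - (0 : ℝ)‖ * ‖y - (1 : ℝ)‖ * ‖y - (-1 : ℝ)‖ * ‖y ^ 2 - y - 1‖ * ‖y ^ 2 - 2‖ ≤ 0.96 := by
  rcases le_or_gt y.re (-1.3143) with g0 | g0
  · have hn := near (c := (-1.3643)) (h := 0.05) h1 g0 hi (by norm_num) (by norm_num)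
    exact prod5 (norm_nonneg _) (norm_nonneg _) (norm_nonneg _) (norm_nonneg _) (norm_nonneg _)
      (lin_le (k := 0) (d := 1.3643) (A := 1.4144) hn
        (abs_le.2 ⟨by norm_num, by norm_num⟩)
        (by norm_num) (by norm_num))
      (lin_le (k := 1) (d := 2.3643) (A := 2.4144) hn
        (abs_le.2 ⟨by norm_num, by norm_num⟩)
        (by norm_num) (by norm_num))
      (lin_le (k := (-1)) (d := 0.3643) (A := 0.4144) hn
        (abs_le.2 ⟨by norm_num, by norm_num⟩)
        (by norm_num) (by norm_num))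
      (gold_le (d := 2.22561449) (e := 3.7286)
        (A := 2.4147) hn (abs_le.2 ⟨by norm_num, by norm_num⟩)
        (abs_le.2 ⟨by norm_num, by norm_num⟩) (by norm_num) (by norm_num))
      (two_le (d := 0.13868551) (e := 1.3643)
        (A := 0.2779) hn (abs_le.2 ⟨by norm_num, by norm_num⟩)
        (abs_le.2 ⟨by norm_num, by norm_num⟩) (by norm_num) (by norm_num))
      (by norm_num)
  rcases le_or_gt y.re (-1.2303) with g1 | g1
  · have hn := near (c := (-1.2723)) (h := 0.042) g0.le g1 hi (by norm_num) (by norm_num)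
    exact prod5 (norm_nonneg _) (norm_nonneg _) (norm_nonneg _) (norm_nonneg _) (norm_nonneg _)
      (lin_le (k := 0) (d := 1.2723) (A := 1.3144) hn
        (abs_le.2 ⟨by norm_num, by norm_num⟩)
        (by norm_num) (by norm_num))
      (lin_le (k := 1) (d := 2.2723) (A := 2.3144) hn
        (abs_le.2 ⟨by norm_num, by norm_num⟩)
        (by norm_num) (by norm_num))
      (lin_le (k := (-1)) (d := 0.2723) (A := 0.3144) hn
        (abs_le.2 ⟨by norm_num, by norm_num⟩)
        (by norm_num) (by norm_num))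
      (gold_le (d := 1.89104729) (e := 3.5446)
        (A := 2.0418) hn (abs_le.2 ⟨by norm_num, by norm_num⟩)
        (abs_le.2 ⟨by norm_num, by norm_num⟩) (by norm_num) (by norm_num))
      (two_le (d := 0.38125271) (e := 1.2723)
        (A := 0.4901) hn (abs_le.2 ⟨by norm_num, by norm_num⟩)
        (abs_le.2 ⟨by norm_num, by norm_num⟩) (by norm_num) (by norm_num))
      (by norm_num)
  rcases le_or_gt y.re (-1.0703) with g2 | g2
  · have hn := near (c := (-1.1503)) (h := 0.08) g1.le g2 hi (by norm_num) (by norm_num)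
    exact prod5 (norm_nonneg _) (norm_nonneg _) (norm_nonneg _) (norm_nonneg _) (norm_nonneg _)
      (lin_le (k := 0) (d := 1.1503) (A := 1.2304) hn
        (abs_le.2 ⟨by norm_num, by norm_num⟩)
        (by norm_num) (by norm_num))
      (lin_le (k := 1) (d := 2.1503) (A := 2.2304) hn
        (abs_le.2 ⟨by norm_num, by norm_num⟩)
        (by norm_num) (by norm_num))
      (lin_le (k := (-1)) (d := 0.1503) (A := 0.2304) hn
        (abs_le.2 ⟨by norm_num, by norm_num⟩)
        (by norm_num) (by norm_num))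
      (gold_le (d := 1.47349009) (e := 3.3006)
        (A := 1.7441) hn (abs_le.2 ⟨by norm_num, by norm_num⟩)
        (abs_le.2 ⟨by norm_num, by norm_num⟩) (by norm_num) (by norm_num))
      (two_le (d := 0.67680991) (e := 1.1503)
        (A := 0.8674) hn (abs_le.2 ⟨by norm_num, by norm_num⟩)
        (abs_le.2 ⟨by norm_num, by norm_num⟩) (by norm_num) (by norm_num))
      (by norm_num)
  rcases le_or_gt y.re (-0.7593) with g3 | g3
  · have hn := near (c := (-0.9148)) (h := 0.1555) g2.le g3 hi (by norm_num) (by norm_num)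
    exact prod5 (norm_nonneg _) (norm_nonneg _) (norm_nonneg _) (norm_nonneg _) (norm_nonneg _)
      (lin_le (k := 0) (d := 0.9148) (A := 1.0704) hn
        (abs_le.2 ⟨by norm_num, by norm_num⟩)
        (by norm_num) (by norm_num))
      (lin_le (k := 1) (d := 1.9148) (A := 2.0704) hn
        (abs_le.2 ⟨by norm_num, by norm_num⟩)
        (by norm_num) (by norm_num))
      (lin_le (k := (-1)) (d := 0.0852) (A := 0.2408) hn
        (abs_le.2 ⟨by norm_num, by norm_num⟩)
        (by norm_num) (by norm_num))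
      (gold_le (d := 0.75165904) (e := 2.8296)
        (A := 1.216) hn (abs_le.2 ⟨by norm_num, by norm_num⟩)
        (abs_le.2 ⟨by norm_num, by norm_num⟩) (by norm_num) (by norm_num))
      (two_le (d := 1.16314096) (e := 0.9148)
        (A := 1.4719) hn (abs_le.2 ⟨by norm_num, by norm_num⟩)
        (abs_le.2 ⟨by norm_num, by norm_num⟩) (by norm_num) (by norm_num))
      (by norm_num)
  rcases le_or_gt y.re (-0.3653) with g4 | g4
  · have hn := near (c := (-0.5623)) (h := 0.197) g3.le g4 hi (by norm_num) (by norm_num)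
    exact prod5 (norm_nonneg _) (norm_nonneg _) (norm_nonneg _) (norm_nonneg _) (norm_nonneg _)
      (lin_le (k := 0) (d := 0.5623) (A := 0.7594) hn
        (abs_le.2 ⟨by norm_num, by norm_num⟩)
        (by norm_num) (by norm_num))
      (lin_le (k := 1) (d := 1.5623) (A := 1.7594) hn
        (abs_le.2 ⟨by norm_num, by norm_num⟩)
        (by norm_num) (by norm_num))
      (lin_le (k := (-1)) (d := 0.4377) (A := 0.6348) hn
        (abs_le.2 ⟨by norm_num, by norm_num⟩)
        (by norm_num) (by norm_num))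
      (gold_le (d := 0.12151871) (e := 2.1246)
        (A := 0.579) hn (abs_le.2 ⟨by norm_num, by norm_num⟩)
        (abs_le.2 ⟨by norm_num, by norm_num⟩) (by norm_num) (by norm_num))
      (two_le (d := 1.68381871) (e := 0.5623)
        (A := 1.9443) hn (abs_le.2 ⟨by norm_num, by norm_num⟩)
        (abs_le.2 ⟨by norm_num, by norm_num⟩) (by norm_num) (by norm_num))
      (by norm_num)
  rcases le_or_gt y.re (-0.0543) with g5 | g5
  · have hn := near (c := (-0.2098)) (h := 0.1555) g4.le g5 hi (by norm_num) (by norm_num)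
    exact prod5 (norm_nonneg _) (norm_nonneg _) (norm_nonneg _) (norm_nonneg _) (norm_nonneg _)
      (lin_le (k := 0) (d := 0.2098) (A := 0.3654) hn
        (abs_le.2 ⟨by norm_num, by norm_num⟩)
        (by norm_num) (by norm_num))
      (lin_le (k := 1) (d := 1.2098) (A := 1.3654) hn
        (abs_le.2 ⟨by norm_num, by norm_num⟩)
        (by norm_num) (by norm_num))
      (lin_le (k := (-1)) (d := 0.7902) (A := 0.9458) hn
        (abs_le.2 ⟨by norm_num, by norm_num⟩)
        (by norm_num) (by norm_num))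
      (gold_le (d := 0.74618396) (e := 1.4196)
        (A := 0.9912) hn (abs_le.2 ⟨by norm_num, by norm_num⟩)
        (abs_le.2 ⟨by norm_num, by norm_num⟩) (by norm_num) (by norm_num))
      (two_le (d := 1.95598396) (e := 0.2098)
        (A := 2.0455) hn (abs_le.2 ⟨by norm_num, by norm_num⟩)
        (abs_le.2 ⟨by norm_num, by norm_num⟩) (by norm_num) (by norm_num))
      (by norm_num)
  rcases le_or_gt y.re 0.2757 with g6 | g6
  · have hn := near (c := 0.1107) (h := 0.165) g5.le g6 hi (by norm_num) (by norm_num)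
    exact prod5 (norm_nonneg _) (norm_nonneg _) (norm_nonneg _) (norm_nonneg _) (norm_nonneg _)
      (lin_le (k := 0) (d := 0.1107) (A := 0.2758) hn
        (abs_le.2 ⟨by norm_num, by norm_num⟩)
        (by norm_num) (by norm_num))
      (lin_le (k := 1) (d := 0.8893) (A := 1.0544) hn
        (abs_le.2 ⟨by norm_num, by norm_num⟩)
        (by norm_num) (by norm_num))
      (lin_le (k := (-1)) (d := 1.1107) (A := 1.2758) hn
        (abs_le.2 ⟨by norm_num, by norm_num⟩)
        (by norm_num) (by norm_num))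
      (gold_le (d := 1.09844551) (e := 0.7786)
        (A := 1.2542) hn (abs_le.2 ⟨by norm_num, by norm_num⟩)
        (abs_le.2 ⟨by norm_num, by norm_num⟩) (by norm_num) (by norm_num))
      (two_le (d := 1.98774551) (e := 0.1107)
        (A := 2.0516) hn (abs_le.2 ⟨by norm_num, by norm_num⟩)
        (abs_le.2 ⟨by norm_num, by norm_num⟩) (by norm_num) (by norm_num))
      (by norm_num)
  rcases le_or_gt y.re 0.3937 with g7 | g7
  · have hn := near (c := 0.3347) (h := 0.059) g6.le g7 hi (by norm_num) (by norm_num)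
    exact prod5 (norm_nonneg _) (norm_nonneg _) (norm_nonneg _) (norm_nonneg _) (norm_nonneg _)
      (lin_le (k := 0) (d := 0.3347) (A := 0.3938) hn
        (abs_le.2 ⟨by norm_num, by norm_num⟩)
        (by norm_num) (by norm_num))
      (lin_le (k := 1) (d := 0.6653) (A := 0.7244) hn
        (abs_le.2 ⟨by norm_num, by norm_num⟩)
        (by norm_num) (by norm_num))
      (lin_le (k := (-1)) (d := 1.3347) (A := 1.3938) hn
        (abs_le.2 ⟨by norm_num, by norm_num⟩)
        (by norm_num) (by norm_num))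
      (gold_le (d := 1.22267591) (e := 0.3306)
        (A := 1.2457) hn (abs_le.2 ⟨by norm_num, by norm_num⟩)
        (abs_le.2 ⟨by norm_num, by norm_num⟩) (by norm_num) (by norm_num))
      (two_le (d := 1.88797591) (e := 0.3347)
        (A := 1.931) hn (abs_le.2 ⟨by norm_num, by norm_num⟩)
        (abs_le.2 ⟨by norm_num, by norm_num⟩) (by norm_num) (by norm_num))
      (by norm_num)
  rcases le_or_gt y.re 0.4657 with g8 | g8
  · have hn := near (c := 0.4297) (h := 0.036) g7.le g8 hi (by norm_num) (by norm_num)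
    exact prod5 (norm_nonneg _) (norm_nonneg _) (norm_nonneg _) (norm_nonneg _) (norm_nonneg _)
      (lin_le (k := 0) (d := 0.4297) (A := 0.4658) hn
        (abs_le.2 ⟨by norm_num, by norm_num⟩)
        (by norm_num) (by norm_num))
      (lin_le (k := 1) (d := 0.5703) (A := 0.6064) hn
        (abs_le.2 ⟨by norm_num, by norm_num⟩)
        (by norm_num) (by norm_num))
      (lin_le (k := (-1)) (d := 1.4297) (A := 1.4658) hn
        (abs_le.2 ⟨by norm_num, by norm_num⟩)
        (by norm_num) (by norm_num))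
      (gold_le (d := 1.24505791) (e := 0.1406)
        (A := 1.2515) hn (abs_le.2 ⟨by norm_num, by norm_num⟩)
        (abs_le.2 ⟨by norm_num, by norm_num⟩) (by norm_num) (by norm_num))
      (two_le (d := 1.81535791) (e := 0.4297)
        (A := 1.8477) hn (abs_le.2 ⟨by norm_num, by norm_num⟩)
        (abs_le.2 ⟨by norm_num, by norm_num⟩) (by norm_num) (by norm_num))
      (by norm_num)
  rcases le_or_gt y.re 0.5257 with g9 | g9
  · have hn := near (c := 0.4957) (h := 0.03) g8.le g9 hi (by norm_num) (by norm_num)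
    exact prod5 (norm_nonneg _) (norm_nonneg _) (norm_nonneg _) (norm_nonneg _) (norm_nonneg _)
      (lin_le (k := 0) (d := 0.4957) (A := 0.5258) hn
        (abs_le.2 ⟨by norm_num, by norm_num⟩)
        (by norm_num) (by norm_num))
      (lin_le (k := 1) (d := 0.5043) (A := 0.5344) hn
        (abs_le.2 ⟨by norm_num, by norm_num⟩)
        (by norm_num) (by norm_num))
      (lin_le (k := (-1)) (d := 1.4957) (A := 1.5258) hn
        (abs_le.2 ⟨by norm_num, by norm_num⟩)
        (by norm_num) (by norm_num))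
      (gold_le (d := 1.24998151) (e := 0.0086)
        (A := 1.2512) hn (abs_le.2 ⟨by norm_num, by norm_num⟩)
        (abs_le.2 ⟨by norm_num, by norm_num⟩) (by norm_num) (by norm_num))
      (two_le (d := 1.75428151) (e := 0.4957)
        (A := 1.785) hn (abs_le.2 ⟨by norm_num, by norm_num⟩)
        (abs_le.2 ⟨by norm_num, by norm_num⟩) (by norm_num) (by norm_num))
      (by norm_num)
  rcases le_or_gt y.re 0.5887 with g10 | g10
  · have hn := near (c := 0.5572) (h := 0.0315) g9.le g10 hi (by norm_num) (by norm_num)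
    exact prod5 (norm_nonneg _) (norm_nonneg _) (norm_nonneg _) (norm_nonneg _) (norm_nonneg _)
      (lin_le (k := 0) (d := 0.5572) (A := 0.5888) hn
        (abs_le.2 ⟨by norm_num, by norm_num⟩)
        (by norm_num) (by norm_num))
      (lin_le (k := 1) (d := 0.4428) (A := 0.4744) hn
        (abs_le.2 ⟨by norm_num, by norm_num⟩)
        (by norm_num) (by norm_num))
      (lin_le (k := (-1)) (d := 1.5572) (A := 1.5888) hn
        (abs_le.2 ⟨by norm_num, by norm_num⟩)
        (by norm_num) (by norm_num))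
      (gold_le (d := 1.24672816) (e := 0.1144)
        (A := 1.2514) hn (abs_le.2 ⟨by norm_num, by norm_num⟩)
        (abs_le.2 ⟨by norm_num, by norm_num⟩) (by norm_num) (by norm_num))
      (two_le (d := 1.68952816) (e := 0.5572)
        (A := 1.7257) hn (abs_le.2 ⟨by norm_num, by norm_num⟩)
        (abs_le.2 ⟨by norm_num, by norm_num⟩) (by norm_num) (by norm_num))
      (by norm_num)
  rcases le_or_gt y.re 0.6737 with g11 | g11
  · have hn := near (c := 0.6312) (h := 0.0425) g10.le g11 hi (by norm_num) (by norm_num)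
    exact prod5 (norm_nonneg _) (norm_nonneg _) (norm_nonneg _) (norm_nonneg _) (norm_nonneg _)
      (lin_le (k := 0) (d := 0.6312) (A := 0.6738) hn
        (abs_le.2 ⟨by norm_num, by norm_num⟩)
        (by norm_num) (by norm_num))
      (lin_le (k := 1) (d := 0.3688) (A := 0.4114) hn
        (abs_le.2 ⟨by norm_num, by norm_num⟩)
        (by norm_num) (by norm_num))
      (lin_le (k := (-1)) (d := 1.6312) (A := 1.6738) hn
        (abs_le.2 ⟨by norm_num, by norm_num⟩)
        (by norm_num) (by norm_num))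
      (gold_le (d := 1.23278656) (e := 0.2624)
        (A := 1.2458) hn (abs_le.2 ⟨by norm_num, by norm_num⟩)
        (abs_le.2 ⟨by norm_num, by norm_num⟩) (by norm_num) (by norm_num))
      (two_le (d := 1.60158656) (e := 0.6312)
        (A := 1.6571) hn (abs_le.2 ⟨by norm_num, by norm_num⟩)
        (abs_le.2 ⟨by norm_num, by norm_num⟩) (by norm_num) (by norm_num))
      (by norm_num)
  rcases le_or_gt y.re 0.8327 with g12 | g12
  · have hn := near (c := 0.7532) (h := 0.0795) g11.le g12 hi (by norm_num) (by norm_num)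
    exact prod5 (norm_nonneg _) (norm_nonneg _) (norm_nonneg _) (norm_nonneg _) (norm_nonneg _)
      (lin_le (k := 0) (d := 0.7532) (A := 0.8328) hn
        (abs_le.2 ⟨by norm_num, by norm_num⟩)
        (by norm_num) (by norm_num))
      (lin_le (k := 1) (d := 0.2468) (A := 0.3264) hn
        (abs_le.2 ⟨by norm_num, by norm_num⟩)
        (by norm_num) (by norm_num))
      (lin_le (k := (-1)) (d := 1.7532) (A := 1.8328) hn
        (abs_le.2 ⟨by norm_num, by norm_num⟩)
        (by norm_num) (by norm_num))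
      (gold_le (d := 1.18588976) (e := 0.5064)
        (A := 1.2325) hn (abs_le.2 ⟨by norm_num, by norm_num⟩)
        (abs_le.2 ⟨by norm_num, by norm_num⟩) (by norm_num) (by norm_num))
      (two_le (d := 1.43268976) (e := 0.7532)
        (A := 1.5589) hn (abs_le.2 ⟨by norm_num, by norm_num⟩)
        (abs_le.2 ⟨by norm_num, by norm_num⟩) (by norm_num) (by norm_num))
      (by norm_num)
  rcases le_or_gt y.re 1.2127 with g13 | g13
  · have hn := near (c := 1.0227) (h := 0.19) g12.le g13 hi (by norm_num) (by norm_num)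
    exact prod5 (norm_nonneg _) (norm_nonneg _) (norm_nonneg _) (norm_nonneg _) (norm_nonneg _)
      (lin_le (k := 0) (d := 1.0227) (A := 1.2128) hn
        (abs_le.2 ⟨by norm_num, by norm_num⟩)
        (by norm_num) (by norm_num))
      (lin_le (k := 1) (d := 0.0227) (A := 0.2128) hn
        (abs_le.2 ⟨by norm_num, by norm_num⟩)
        (by norm_num) (by norm_num))
      (lin_le (k := (-1)) (d := 2.0227) (A := 2.2128) hn
        (abs_le.2 ⟨by norm_num, by norm_num⟩)
        (by norm_num) (by norm_num))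
      (gold_le (d := 0.97678471) (e := 1.0454)
        (A := 1.2116) hn (abs_le.2 ⟨by norm_num, by norm_num⟩)
        (abs_le.2 ⟨by norm_num, by norm_num⟩) (by norm_num) (by norm_num))
      (two_le (d := 0.95408471) (e := 1.0227)
        (A := 1.3789) hn (abs_le.2 ⟨by norm_num, by norm_num⟩)
        (abs_le.2 ⟨by norm_num, by norm_num⟩) (by norm_num) (by norm_num))
      (by norm_num)
  rcases le_or_gt y.re 1.5337 with g14 | g14
  · have hn := near (c := 1.3732) (h := 0.1605) g13.le g14 hi (by norm_num) (by norm_num)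
    exact prod5 (norm_nonneg _) (norm_nonneg _) (norm_nonneg _) (norm_nonneg _) (norm_nonneg _)
      (lin_le (k := 0) (d := 1.3732) (A := 1.5338) hn
        (abs_le.2 ⟨by norm_num, by norm_num⟩)
        (by norm_num) (by norm_num))
      (lin_le (k := 1) (d := 0.3732) (A := 0.5338) hn
        (abs_le.2 ⟨by norm_num, by norm_num⟩)
        (by norm_num) (by norm_num))
      (lin_le (k := (-1)) (d := 2.3732) (A := 2.5338) hn
        (abs_le.2 ⟨by norm_num, by norm_num⟩)
        (by norm_num) (by norm_num))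
      (gold_le (d := 0.48752176) (e := 1.7464)
        (A := 0.7937) hn (abs_le.2 ⟨by norm_num, by norm_num⟩)
        (abs_le.2 ⟨by norm_num, by norm_num⟩) (by norm_num) (by norm_num))
      (two_le (d := 0.11432176) (e := 1.3732)
        (A := 0.5811) hn (abs_le.2 ⟨by norm_num, by norm_num⟩)
        (abs_le.2 ⟨by norm_num, by norm_num⟩) (by norm_num) (by norm_num))
      (by norm_num)
  have hn := near (c := 1.6337) (h := 0.1) g14.le h2 hi (by norm_num) (by norm_num)
  exact prod5 (norm_nonneg _) (norm_nonneg _) (norm_nonneg _) (norm_nonneg _) (norm_nonneg _)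
    (lin_le (k := 0) (d := 1.6337) (A := 1.7338) hn
      (abs_le.2 ⟨by norm_num, by norm_num⟩)
      (by norm_num) (by norm_num))
    (lin_le (k := 1) (d := 0.6337) (A := 0.7338) hn
      (abs_le.2 ⟨by norm_num, by norm_num⟩)
      (by norm_num) (by norm_num))
    (lin_le (k := (-1)) (d := 2.6337) (A := 2.7338) hn
      (abs_le.2 ⟨by norm_num, by norm_num⟩)
      (by norm_num) (by norm_num))
    (gold_le (d := 0.03527569) (e := 2.2674)
      (A := 0.2723) hn (abs_le.2 ⟨by norm_num, by norm_num⟩)
      (abs_le.2 ⟨by norm_num, by norm_num⟩) (by norm_num) (by norm_num))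
    (two_le (d := 0.66897569) (e := 1.6337)
      (A := 1.0059) hn (abs_le.2 ⟨by norm_num, by norm_num⟩)
      (abs_le.2 ⟨by norm_num, by norm_num⟩) (by norm_num) (by norm_num))
    (by norm_num)

lemma phi1 {y : ℂ} (h1 : (-1.0983) ≤ y.re) (h2 : y.re ≤ 1.9143)
    (hi : |y.im| ≤ 0.00422) : ‖y - (0 : ℝ)‖ * ‖y - (1 : ℝ)‖ * ‖y - (2 : ℝ)‖ * ‖y - (-1 : ℝ)‖ * ‖y ^ 2 - y - 1‖ ≤ 0.96 := by
  rcases le_or_gt y.re (-0.8973) with g0 | g0
  · have hn := near (c := (-0.9978)) (h := 0.1005) h1 g0 hi (by norm_num) (by norm_num)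
    exact prod5 (norm_nonneg _) (norm_nonneg _) (norm_nonneg _) (norm_nonneg _) (norm_nonneg _)
      (lin_le (k := 0) (d := 0.9978) (A := 1.0984) hn
        (abs_le.2 ⟨by norm_num, by norm_num⟩)
        (by norm_num) (by norm_num))
      (lin_le (k := 1) (d := 1.9978) (A := 2.0984) hn
        (abs_le.2 ⟨by norm_num, by norm_num⟩)
        (by norm_num) (by norm_num))
      (lin_le (k := 2) (d := 2.9978) (A := 3.0984) hn
        (abs_le.2 ⟨by norm_num, by norm_num⟩)
        (by norm_num) (by norm_num))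
      (lin_le (k := (-1)) (d := 0.0022) (A := 0.1028) hn
        (abs_le.2 ⟨by norm_num, by norm_num⟩)
        (by norm_num) (by norm_num))
      (gold_le (d := 0.99340484) (e := 2.9956)
        (A := 1.3047) hn (abs_le.2 ⟨by norm_num, by norm_num⟩)
        (abs_le.2 ⟨by norm_num, by norm_num⟩) (by norm_num) (by norm_num))
      (by norm_num)
  rcases le_or_gt y.re (-0.7243) with g1 | g1
  · have hn := near (c := (-0.8108)) (h := 0.0865) g0.le g1 hi (by norm_num) (by norm_num)
    exact prod5 (norm_nonneg _) (norm_nonneg _) (norm_nonneg _) (norm_nonneg _) (norm_nonneg _)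
      (lin_le (k := 0) (d := 0.8108) (A := 0.8974) hn
        (abs_le.2 ⟨by norm_num, by norm_num⟩)
        (by norm_num) (by norm_num))
      (lin_le (k := 1) (d := 1.8108) (A := 1.8974) hn
        (abs_le.2 ⟨by norm_num, by norm_num⟩)
        (by norm_num) (by norm_num))
      (lin_le (k := 2) (d := 2.8108) (A := 2.8974) hn
        (abs_le.2 ⟨by norm_num, by norm_num⟩)
        (by norm_num) (by norm_num))
      (lin_le (k := (-1)) (d := 0.1892) (A := 0.2758) hn
        (abs_le.2 ⟨by norm_num, by norm_num⟩)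
        (by norm_num) (by norm_num))
      (gold_le (d := 0.46819664) (e := 2.6216)
        (A := 0.7026) hn (abs_le.2 ⟨by norm_num, by norm_num⟩)
        (abs_le.2 ⟨by norm_num, by norm_num⟩) (by norm_num) (by norm_num))
      (by norm_num)
  rcases le_or_gt y.re (-0.4083) with g2 | g2
  · have hn := near (c := (-0.5663)) (h := 0.158) g1.le g2 hi (by norm_num) (by norm_num)
    exact prod5 (norm_nonneg _) (norm_nonneg _) (norm_nonneg _) (norm_nonneg _) (norm_nonneg _)
      (lin_le (k := 0) (d := 0.5663) (A := 0.7244) hn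
        (abs_le.2 ⟨by norm_num, by norm_num⟩)
        (by norm_num) (by norm_num))
      (lin_le (k := 1) (d := 1.5663) (A := 1.7244) hn
        (abs_le.2 ⟨by norm_num, by norm_num⟩)
        (by norm_num) (by norm_num))
      (lin_le (k := 2) (d := 2.5663) (A := 2.7244) hn
        (abs_le.2 ⟨by norm_num, by norm_num⟩)
        (by norm_num) (by norm_num))
      (lin_le (k := (-1)) (d := 0.4337) (A := 0.5918) hn
        (abs_le.2 ⟨by norm_num, by norm_num⟩)
        (by norm_num) (by norm_num))
      (gold_le (d := 0.11300431) (e := 2.1326)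
        (A := 0.4751) hn (abs_le.2 ⟨by norm_num, by norm_num⟩)
        (abs_le.2 ⟨by norm_num, by norm_num⟩) (by norm_num) (by norm_num))
      (by norm_num)
  rcases le_or_gt y.re (-0.1693) with g3 | g3
  · have hn := near (c := (-0.2888)) (h := 0.1195) g2.le g3 hi (by norm_num) (by norm_num)
    exact prod5 (norm_nonneg _) (norm_nonneg _) (norm_nonneg _) (norm_nonneg _) (norm_nonneg _)
      (lin_le (k := 0) (d := 0.2888) (A := 0.4084) hn
        (abs_le.2 ⟨by norm_num, by norm_num⟩)
        (by norm_num) (by norm_num))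
      (lin_le (k := 1) (d := 1.2888) (A := 1.4084) hn
        (abs_le.2 ⟨by norm_num, by norm_num⟩)
        (by norm_num) (by norm_num))
      (lin_le (k := 2) (d := 2.2888) (A := 2.4084) hn
        (abs_le.2 ⟨by norm_num, by norm_num⟩)
        (by norm_num) (by norm_num))
      (lin_le (k := (-1)) (d := 0.7112) (A := 0.8308) hn
        (abs_le.2 ⟨by norm_num, by norm_num⟩)
        (by norm_num) (by norm_num))
      (gold_le (d := 0.62779456) (e := 1.5776)
        (A := 0.8307) hn (abs_le.2 ⟨by norm_num, by norm_num⟩)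
        (abs_le.2 ⟨by norm_num, by norm_num⟩) (by norm_num) (by norm_num))
      (by norm_num)
  rcases le_or_gt y.re 0.2397 with g4 | g4
  · have hn := near (c := 0.0352) (h := 0.2045) g3.le g4 hi (by norm_num) (by norm_num)
    exact prod5 (norm_nonneg _) (norm_nonneg _) (norm_nonneg _) (norm_nonneg _) (norm_nonneg _)
      (lin_le (k := 0) (d := 0.0352) (A := 0.2398) hn
        (abs_le.2 ⟨by norm_num, by norm_num⟩)
        (by norm_num) (by norm_num))
      (lin_le (k := 1) (d := 0.9648) (A := 1.1694) hn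
        (abs_le.2 ⟨by norm_num, by norm_num⟩)
        (by norm_num) (by norm_num))
      (lin_le (k := 2) (d := 1.9648) (A := 2.1694) hn
        (abs_le.2 ⟨by norm_num, by norm_num⟩)
        (by norm_num) (by norm_num))
      (lin_le (k := (-1)) (d := 1.0352) (A := 1.2398) hn
        (abs_le.2 ⟨by norm_num, by norm_num⟩)
        (by norm_num) (by norm_num))
      (gold_le (d := 1.03396096) (e := 0.9296)
        (A := 1.266) hn (abs_le.2 ⟨by norm_num, by norm_num⟩)
        (abs_le.2 ⟨by norm_num, by norm_num⟩) (by norm_num) (by norm_num))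
      (by norm_num)
  rcases le_or_gt y.re 0.4057 with g5 | g5
  · have hn := near (c := 0.3227) (h := 0.083) g4.le g5 hi (by norm_num) (by norm_num)
    exact prod5 (norm_nonneg _) (norm_nonneg _) (norm_nonneg _) (norm_nonneg _) (norm_nonneg _)
      (lin_le (k := 0) (d := 0.3227) (A := 0.4058) hn
        (abs_le.2 ⟨by norm_num, by norm_num⟩)
        (by norm_num) (by norm_num))
      (lin_le (k := 1) (d := 0.6773) (A := 0.7604) hn
        (abs_le.2 ⟨by norm_num, by norm_num⟩)
        (by norm_num) (by norm_num))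
      (lin_le (k := 2) (d := 1.6773) (A := 1.7604) hn
        (abs_le.2 ⟨by norm_num, by norm_num⟩)
        (by norm_num) (by norm_num))
      (lin_le (k := (-1)) (d := 1.3227) (A := 1.4058) hn
        (abs_le.2 ⟨by norm_num, by norm_num⟩)
        (by norm_num) (by norm_num))
      (gold_le (d := 1.21856471) (e := 0.3546)
        (A := 1.255) hn (abs_le.2 ⟨by norm_num, by norm_num⟩)
        (abs_le.2 ⟨by norm_num, by norm_num⟩) (by norm_num) (by norm_num))
      (by norm_num)
  rcases le_or_gt y.re 0.5267 with g6 | g6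
  · have hn := near (c := 0.4662) (h := 0.0605) g5.le g6 hi (by norm_num) (by norm_num)
    exact prod5 (norm_nonneg _) (norm_nonneg _) (norm_nonneg _) (norm_nonneg _) (norm_nonneg _)
      (lin_le (k := 0) (d := 0.4662) (A := 0.5268) hn
        (abs_le.2 ⟨by norm_num, by norm_num⟩)
        (by norm_num) (by norm_num))
      (lin_le (k := 1) (d := 0.5338) (A := 0.5944) hn
        (abs_le.2 ⟨by norm_num, by norm_num⟩)
        (by norm_num) (by norm_num))
      (lin_le (k := 2) (d := 1.5338) (A := 1.5944) hn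
        (abs_le.2 ⟨by norm_num, by norm_num⟩)
        (by norm_num) (by norm_num))
      (lin_le (k := (-1)) (d := 1.4662) (A := 1.5268) hn
        (abs_le.2 ⟨by norm_num, by norm_num⟩)
        (by norm_num) (by norm_num))
      (gold_le (d := 1.24885756) (e := 0.0676)
        (A := 1.2567) hn (abs_le.2 ⟨by norm_num, by norm_num⟩)
        (abs_le.2 ⟨by norm_num, by norm_num⟩) (by norm_num) (by norm_num))
      (by norm_num)
  rcases le_or_gt y.re 0.6587 with g7 | g7
  · have hn := near (c := 0.5927) (h := 0.066) g6.le g7 hi (by norm_num) (by norm_num)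
    exact prod5 (norm_nonneg _) (norm_nonneg _) (norm_nonneg _) (norm_nonneg _) (norm_nonneg _)
      (lin_le (k := 0) (d := 0.5927) (A := 0.6588) hn
        (abs_le.2 ⟨by norm_num, by norm_num⟩)
        (by norm_num) (by norm_num))
      (lin_le (k := 1) (d := 0.4073) (A := 0.4734) hn
        (abs_le.2 ⟨by norm_num, by norm_num⟩)
        (by norm_num) (by norm_num))
      (lin_le (k := 2) (d := 1.4073) (A := 1.4734) hn
        (abs_le.2 ⟨by norm_num, by norm_num⟩)
        (by norm_num) (by norm_num))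
      (lin_le (k := (-1)) (d := 1.5927) (A := 1.6588) hn
        (abs_le.2 ⟨by norm_num, by norm_num⟩)
        (by norm_num) (by norm_num))
      (gold_le (d := 1.24140671) (e := 0.1854)
        (A := 1.2581) hn (abs_le.2 ⟨by norm_num, by norm_num⟩)
        (abs_le.2 ⟨by norm_num, by norm_num⟩) (by norm_num) (by norm_num))
      (by norm_num)
  rcases le_or_gt y.re 0.8867 with g8 | g8
  · have hn := near (c := 0.7727) (h := 0.114) g7.le g8 hi (by norm_num) (by norm_num)
    exact prod5 (norm_nonneg _) (norm_nonneg _) (norm_nonneg _) (norm_nonneg _) (norm_nonneg _)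
      (lin_le (k := 0) (d := 0.7727) (A := 0.8868) hn
        (abs_le.2 ⟨by norm_num, by norm_num⟩)
        (by norm_num) (by norm_num))
      (lin_le (k := 1) (d := 0.2273) (A := 0.3414) hn
        (abs_le.2 ⟨by norm_num, by norm_num⟩)
        (by norm_num) (by norm_num))
      (lin_le (k := 2) (d := 1.2273) (A := 1.3414) hn
        (abs_le.2 ⟨by norm_num, by norm_num⟩)
        (by norm_num) (by norm_num))
      (lin_le (k := (-1)) (d := 1.7727) (A := 1.8868) hn
        (abs_le.2 ⟨by norm_num, by norm_num⟩)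
        (by norm_num) (by norm_num))
      (gold_le (d := 1.17563471) (e := 0.5454)
        (A := 1.2509) hn (abs_le.2 ⟨by norm_num, by norm_num⟩)
        (abs_le.2 ⟨by norm_num, by norm_num⟩) (by norm_num) (by norm_num))
      (by norm_num)
  rcases le_or_gt y.re 1.2587 with g9 | g9
  · have hn := near (c := 1.0727) (h := 0.186) g8.le g9 hi (by norm_num) (by norm_num)
    exact prod5 (norm_nonneg _) (norm_nonneg _) (norm_nonneg _) (norm_nonneg _) (norm_nonneg _)
      (lin_le (k := 0) (d := 1.0727) (A := 1.2588) hn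
        (abs_le.2 ⟨by norm_num, by norm_num⟩)
        (by norm_num) (by norm_num))
      (lin_le (k := 1) (d := 0.0727) (A := 0.2588) hn
        (abs_le.2 ⟨by norm_num, by norm_num⟩)
        (by norm_num) (by norm_num))
      (lin_le (k := 2) (d := 0.9273) (A := 1.1134) hn
        (abs_le.2 ⟨by norm_num, by norm_num⟩)
        (by norm_num) (by norm_num))
      (lin_le (k := (-1)) (d := 2.0727) (A := 2.2588) hn
        (abs_le.2 ⟨by norm_num, by norm_num⟩)
        (by norm_num) (by norm_num))
      (gold_le (d := 0.92201471) (e := 1.1454)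
        (A := 1.1697) hn (abs_le.2 ⟨by norm_num, by norm_num⟩)
        (abs_le.2 ⟨by norm_num, by norm_num⟩) (by norm_num) (by norm_num))
      (by norm_num)
  rcases le_or_gt y.re 1.4937 with g10 | g10
  · have hn := near (c := 1.3762) (h := 0.1175) g9.le g10 hi (by norm_num) (by norm_num)
    exact prod5 (norm_nonneg _) (norm_nonneg _) (norm_nonneg _) (norm_nonneg _) (norm_nonneg _)
      (lin_le (k := 0) (d := 1.3762) (A := 1.4938) hn
        (abs_le.2 ⟨by norm_num, by norm_num⟩)
        (by norm_num) (by norm_num))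
      (lin_le (k := 1) (d := 0.3762) (A := 0.4938) hn
        (abs_le.2 ⟨by norm_num, by norm_num⟩)
        (by norm_num) (by norm_num))
      (lin_le (k := 2) (d := 0.6238) (A := 0.7414) hn
        (abs_le.2 ⟨by norm_num, by norm_num⟩)
        (by norm_num) (by norm_num))
      (lin_le (k := (-1)) (d := 2.3762) (A := 2.4938) hn
        (abs_le.2 ⟨by norm_num, by norm_num⟩)
        (by norm_num) (by norm_num))
      (gold_le (d := 0.48227356) (e := 1.7524)
        (A := 0.7021) hn (abs_le.2 ⟨by norm_num, by norm_num⟩)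
        (abs_le.2 ⟨by norm_num, by norm_num⟩) (by norm_num) (by norm_num))
      (by norm_num)
  rcases le_or_gt y.re 1.8077 with g11 | g11
  · have hn := near (c := 1.6507) (h := 0.157) g10.le g11 hi (by norm_num) (by norm_num)
    exact prod5 (norm_nonneg _) (norm_nonneg _) (norm_nonneg _) (norm_nonneg _) (norm_nonneg _)
      (lin_le (k := 0) (d := 1.6507) (A := 1.8078) hn
        (abs_le.2 ⟨by norm_num, by norm_num⟩)
        (by norm_num) (by norm_num))
      (lin_le (k := 1) (d := 0.6507) (A := 0.8078) hn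
        (abs_le.2 ⟨by norm_num, by norm_num⟩)
        (by norm_num) (by norm_num))
      (lin_le (k := 2) (d := 0.3493) (A := 0.5064) hn
        (abs_le.2 ⟨by norm_num, by norm_num⟩)
        (by norm_num) (by norm_num))
      (lin_le (k := (-1)) (d := 2.6507) (A := 2.8078) hn
        (abs_le.2 ⟨by norm_num, by norm_num⟩)
        (by norm_num) (by norm_num))
      (gold_le (d := 0.07411049) (e := 2.3014)
        (A := 0.4603) hn (abs_le.2 ⟨by norm_num, by norm_num⟩)
        (abs_le.2 ⟨by norm_num, by norm_num⟩) (by norm_num) (by norm_num))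
      (by norm_num)
  have hn := near (c := 1.8852) (h := 0.0775) g11.le h2 hi (by norm_num) (by norm_num)
  exact prod5 (norm_nonneg _) (norm_nonneg _) (norm_nonneg _) (norm_nonneg _) (norm_nonneg _)
    (lin_le (k := 0) (d := 1.8852) (A := 1.9628) hn
      (abs_le.2 ⟨by norm_num, by norm_num⟩)
      (by norm_num) (by norm_num))
    (lin_le (k := 1) (d := 0.8852) (A := 0.9628) hn
      (abs_le.2 ⟨by norm_num, by norm_num⟩)
      (by norm_num) (by norm_num))
    (lin_le (k := 2) (d := 0.1148) (A := 0.1924) hn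
      (abs_le.2 ⟨by norm_num, by norm_num⟩)
      (by norm_num) (by norm_num))
    (lin_le (k := (-1)) (d := 2.8852) (A := 2.9628) hn
      (abs_le.2 ⟨by norm_num, by norm_num⟩)
      (by norm_num) (by norm_num))
    (gold_le (d := 0.66877904) (e := 2.7704)
      (A := 0.8896) hn (abs_le.2 ⟨by norm_num, by norm_num⟩)
      (abs_le.2 ⟨by norm_num, by norm_num⟩) (by norm_num) (by norm_num))
    (by norm_num)

lemma phi3 {y : ℂ} (h1 : (-1.4143) ≤ y.re) (h2 : y.re ≤ 1.4143)
    (hi : |y.im| ≤ 0.00422) : ‖y - (0 : ℝ)‖ * ‖y - (1 : ℝ)‖ * ‖y - (-1 : ℝ)‖ * ‖y ^ 2 - 2‖ ≤ 0.96 := by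
  rcases le_or_gt y.re (-1.1643) with g0 | g0
  · have hn := near (c := (-1.2893)) (h := 0.125) h1 g0 hi (by norm_num) (by norm_num)
    exact prod4 (norm_nonneg _) (norm_nonneg _) (norm_nonneg _) (norm_nonneg _)
      (lin_le (k := 0) (d := 1.2893) (A := 1.4144) hn
        (abs_le.2 ⟨by norm_num, by norm_num⟩)
        (by norm_num) (by norm_num))
      (lin_le (k := 1) (d := 2.2893) (A := 2.4144) hn
        (abs_le.2 ⟨by norm_num, by norm_num⟩)
        (by norm_num) (by norm_num))
      (lin_le (k := (-1)) (d := 0.2893) (A := 0.4144) hn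
        (abs_le.2 ⟨by norm_num, by norm_num⟩)
        (by norm_num) (by norm_num))
      (two_le (d := 0.33770551) (e := 1.2893)
        (A := 0.6758) hn (abs_le.2 ⟨by norm_num, by norm_num⟩)
        (abs_le.2 ⟨by norm_num, by norm_num⟩) (by norm_num) (by norm_num))
      (by norm_num)
  rcases le_or_gt y.re (-0.7503) with g1 | g1
  · have hn := near (c := (-0.9573)) (h := 0.207) g0.le g1 hi (by norm_num) (by norm_num)
    exact prod4 (norm_nonneg _) (norm_nonneg _) (norm_nonneg _) (norm_nonneg _)
      (lin_le (k := 0) (d := 0.9573) (A := 1.1644) hn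
        (abs_le.2 ⟨by norm_num, by norm_num⟩)
        (by norm_num) (by norm_num))
      (lin_le (k := 1) (d := 1.9573) (A := 2.1644) hn
        (abs_le.2 ⟨by norm_num, by norm_num⟩)
        (by norm_num) (by norm_num))
      (lin_le (k := (-1)) (d := 0.0427) (A := 0.2498) hn
        (abs_le.2 ⟨by norm_num, by norm_num⟩)
        (by norm_num) (by norm_num))
      (two_le (d := 1.08357671) (e := 0.9573)
        (A := 1.5228) hn (abs_le.2 ⟨by norm_num, by norm_num⟩)
        (abs_le.2 ⟨by norm_num, by norm_num⟩) (by norm_num) (by norm_num))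
      (by norm_num)
  rcases le_or_gt y.re (-0.5693) with g2 | g2
  · have hn := near (c := (-0.6598)) (h := 0.0905) g1.le g2 hi (by norm_num) (by norm_num)
    exact prod4 (norm_nonneg _) (norm_nonneg _) (norm_nonneg _) (norm_nonneg _)
      (lin_le (k := 0) (d := 0.6598) (A := 0.7504) hn
        (abs_le.2 ⟨by norm_num, by norm_num⟩)
        (by norm_num) (by norm_num))
      (lin_le (k := 1) (d := 1.6598) (A := 1.7504) hn
        (abs_le.2 ⟨by norm_num, by norm_num⟩)
        (by norm_num) (by norm_num))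
      (lin_le (k := (-1)) (d := 0.3402) (A := 0.4308) hn
        (abs_le.2 ⟨by norm_num, by norm_num⟩)
        (by norm_num) (by norm_num))
      (two_le (d := 1.56466396) (e := 0.6598)
        (A := 1.6924) hn (abs_le.2 ⟨by norm_num, by norm_num⟩)
        (abs_le.2 ⟨by norm_num, by norm_num⟩) (by norm_num) (by norm_num))
      (by norm_num)
  rcases le_or_gt y.re (-0.4173) with g3 | g3
  · have hn := near (c := (-0.4933)) (h := 0.076) g2.le g3 hi (by norm_num) (by norm_num)
    exact prod4 (norm_nonneg _) (norm_nonneg _) (norm_nonneg _) (norm_nonneg _)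
      (lin_le (k := 0) (d := 0.4933) (A := 0.5694) hn
        (abs_le.2 ⟨by norm_num, by norm_num⟩)
        (by norm_num) (by norm_num))
      (lin_le (k := 1) (d := 1.4933) (A := 1.5694) hn
        (abs_le.2 ⟨by norm_num, by norm_num⟩)
        (by norm_num) (by norm_num))
      (lin_le (k := (-1)) (d := 0.5067) (A := 0.5828) hn
        (abs_le.2 ⟨by norm_num, by norm_num⟩)
        (by norm_num) (by norm_num))
      (two_le (d := 1.75665511) (e := 0.4933)
        (A := 1.8375) hn (abs_le.2 ⟨by norm_num, by norm_num⟩)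
        (abs_le.2 ⟨by norm_num, by norm_num⟩) (by norm_num) (by norm_num))
      (by norm_num)
  rcases le_or_gt y.re (-0.1873) with g4 | g4
  · have hn := near (c := (-0.3023)) (h := 0.115) g3.le g4 hi (by norm_num) (by norm_num)
    exact prod4 (norm_nonneg _) (norm_nonneg _) (norm_nonneg _) (norm_nonneg _)
      (lin_le (k := 0) (d := 0.3023) (A := 0.4174) hn
        (abs_le.2 ⟨by norm_num, by norm_num⟩)
        (by norm_num) (by norm_num))
      (lin_le (k := 1) (d := 1.3023) (A := 1.4174) hn
        (abs_le.2 ⟨by norm_num, by norm_num⟩)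
        (by norm_num) (by norm_num))
      (lin_le (k := (-1)) (d := 0.6977) (A := 0.8128) hn
        (abs_le.2 ⟨by norm_num, by norm_num⟩)
        (by norm_num) (by norm_num))
      (two_le (d := 1.90861471) (e := 0.3023)
        (A := 1.9914) hn (abs_le.2 ⟨by norm_num, by norm_num⟩)
        (abs_le.2 ⟨by norm_num, by norm_num⟩) (by norm_num) (by norm_num))
      (by norm_num)
  rcases le_or_gt y.re 0.2977 with g5 | g5
  · have hn := near (c := 0.0552) (h := 0.2425) g4.le g5 hi (by norm_num) (by norm_num)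
    exact prod4 (norm_nonneg _) (norm_nonneg _) (norm_nonneg _) (norm_nonneg _)
      (lin_le (k := 0) (d := 0.0552) (A := 0.2978) hn
        (abs_le.2 ⟨by norm_num, by norm_num⟩)
        (by norm_num) (by norm_num))
      (lin_le (k := 1) (d := 0.9448) (A := 1.1874) hn
        (abs_le.2 ⟨by norm_num, by norm_num⟩)
        (by norm_num) (by norm_num))
      (lin_le (k := (-1)) (d := 1.0552) (A := 1.2978) hn
        (abs_le.2 ⟨by norm_num, by norm_num⟩)
        (by norm_num) (by norm_num))
      (two_le (d := 1.99695296) (e := 0.0552)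
        (A := 2.0826) hn (abs_le.2 ⟨by norm_num, by norm_num⟩)
        (abs_le.2 ⟨by norm_num, by norm_num⟩) (by norm_num) (by norm_num))
      (by norm_num)
  rcases le_or_gt y.re 0.4787 with g6 | g6
  · have hn := near (c := 0.3882) (h := 0.0905) g5.le g6 hi (by norm_num) (by norm_num)
    exact prod4 (norm_nonneg _) (norm_nonneg _) (norm_nonneg _) (norm_nonneg _)
      (lin_le (k := 0) (d := 0.3882) (A := 0.4788) hn
        (abs_le.2 ⟨by norm_num, by norm_num⟩)
        (by norm_num) (by norm_num))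
      (lin_le (k := 1) (d := 0.6118) (A := 0.7024) hn
        (abs_le.2 ⟨by norm_num, by norm_num⟩)
        (by norm_num) (by norm_num))
      (lin_le (k := (-1)) (d := 1.3882) (A := 1.4788) hn
        (abs_le.2 ⟨by norm_num, by norm_num⟩)
        (by norm_num) (by norm_num))
      (two_le (d := 1.84930076) (e := 0.3882)
        (A := 1.9278) hn (abs_le.2 ⟨by norm_num, by norm_num⟩)
        (abs_le.2 ⟨by norm_num, by norm_num⟩) (by norm_num) (by norm_num))
      (by norm_num)
  rcases le_or_gt y.re 0.6317 with g7 | g7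
  · have hn := near (c := 0.5552) (h := 0.0765) g6.le g7 hi (by norm_num) (by norm_num)
    exact prod4 (norm_nonneg _) (norm_nonneg _) (norm_nonneg _) (norm_nonneg _)
      (lin_le (k := 0) (d := 0.5552) (A := 0.6318) hn
        (abs_le.2 ⟨by norm_num, by norm_num⟩)
        (by norm_num) (by norm_num))
      (lin_le (k := 1) (d := 0.4448) (A := 0.5214) hn
        (abs_le.2 ⟨by norm_num, by norm_num⟩)
        (by norm_num) (by norm_num))
      (lin_le (k := (-1)) (d := 1.5552) (A := 1.6318) hn
        (abs_le.2 ⟨by norm_num, by norm_num⟩)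
        (by norm_num) (by norm_num))
      (two_le (d := 1.69175296) (e := 0.5552)
        (A := 1.7826) hn (abs_le.2 ⟨by norm_num, by norm_num⟩)
        (abs_le.2 ⟨by norm_num, by norm_num⟩) (by norm_num) (by norm_num))
      (by norm_num)
  rcases le_or_gt y.re 0.8597 with g8 | g8
  · have hn := near (c := 0.7457) (h := 0.114) g7.le g8 hi (by norm_num) (by norm_num)
    exact prod4 (norm_nonneg _) (norm_nonneg _) (norm_nonneg _) (norm_nonneg _)
      (lin_le (k := 0) (d := 0.7457) (A := 0.8598) hn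
        (abs_le.2 ⟨by norm_num, by norm_num⟩)
        (by norm_num) (by norm_num))
      (lin_le (k := 1) (d := 0.2543) (A := 0.3684) hn
        (abs_le.2 ⟨by norm_num, by norm_num⟩)
        (by norm_num) (by norm_num))
      (lin_le (k := (-1)) (d := 1.7457) (A := 1.8598) hn
        (abs_le.2 ⟨by norm_num, by norm_num⟩)
        (by norm_num) (by norm_num))
      (two_le (d := 1.44393151) (e := 0.7457)
        (A := 1.627) hn (abs_le.2 ⟨by norm_num, by norm_num⟩)
        (abs_le.2 ⟨by norm_num, by norm_num⟩) (by norm_num) (by norm_num))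
      (by norm_num)
  rcases le_or_gt y.re 1.2527 with g9 | g9
  · have hn := near (c := 1.0562) (h := 0.1965) g8.le g9 hi (by norm_num) (by norm_num)
    exact prod4 (norm_nonneg _) (norm_nonneg _) (norm_nonneg _) (norm_nonneg _)
      (lin_le (k := 0) (d := 1.0562) (A := 1.2528) hn
        (abs_le.2 ⟨by norm_num, by norm_num⟩)
        (by norm_num) (by norm_num))
      (lin_le (k := 1) (d := 0.0562) (A := 0.2528) hn
        (abs_le.2 ⟨by norm_num, by norm_num⟩)
        (by norm_num) (by norm_num))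
      (lin_le (k := (-1)) (d := 2.0562) (A := 2.2528) hn
        (abs_le.2 ⟨by norm_num, by norm_num⟩)
        (by norm_num) (by norm_num))
      (two_le (d := 0.88444156) (e := 1.0562)
        (A := 1.3382) hn (abs_le.2 ⟨by norm_num, by norm_num⟩)
        (abs_le.2 ⟨by norm_num, by norm_num⟩) (by norm_num) (by norm_num))
      (by norm_num)
  have hn := near (c := 1.3902) (h := 0.1375) g9.le h2 hi (by norm_num) (by norm_num)
  exact prod4 (norm_nonneg _) (norm_nonneg _) (norm_nonneg _) (norm_nonneg _)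
    (lin_le (k := 0) (d := 1.3902) (A := 1.5278) hn
      (abs_le.2 ⟨by norm_num, by norm_num⟩)
      (by norm_num) (by norm_num))
    (lin_le (k := 1) (d := 0.3902) (A := 0.5278) hn
      (abs_le.2 ⟨by norm_num, by norm_num⟩)
      (by norm_num) (by norm_num))
    (lin_le (k := (-1)) (d := 2.3902) (A := 2.5278) hn
      (abs_le.2 ⟨by norm_num, by norm_num⟩)
      (by norm_num) (by norm_num))
    (two_le (d := 0.06734396) (e := 1.3902)
      (A := 0.4688) hn (abs_le.2 ⟨by norm_num, by norm_num⟩)
      (abs_le.2 ⟨by norm_num, by norm_num⟩) (by norm_num) (by norm_num))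
    (by norm_num)

end Pool.Agent.Run7.h80.Sym
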