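import Mathlib
import Pool.Agent.Run7.h80.Sym.Phi

/-!
# Algebraic integers with all conjugates near a short segment
-/

set_option autoImplicit false

open Polynomial

namespace Pool.Agent.Run7.h80.Sym

/-- the quadratic polynomials of discriminant `5` -/
noncomputable def disc5 (m : ℤ) : ℤ[X] := X ^ 2 - C (2 * m + 1) * X + C (m ^ 2 + m - 1)

/-- the value of an integer polynomial at a complex number -/
noncomputable def ev (Φ : ℤ[X]) (t : ℂ) : ℂ := (Φ.map (Int.castRingHom ℂ)).eval t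

/-- the complex roots -/
noncomputable def rts (f : ℤ[X]) : Multiset ℂ := (f.map (Int.castRingHom ℂ)).roots

lemma inj : Function.Injective (Int.castRingHom ℂ) := (Int.castRingHom ℂ).injective_int

lemma card_rts (f : ℤ[X]) : Multiset.card (rts f) = f.natDegree := by
  rw [rts, ← (IsAlgClosed.splits (f.map (Int.castRingHom ℂ))).natDegree_eq_card_roots,
    natDegree_map_eq_of_injective inj]

lemma mem_rts {f : ℤ[X]} (hf : f ≠ 0) {t : ℂ} : t ∈ rts f ↔ ev f t = 0 := by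
  rw [rts, mem_roots ((Polynomial.map_ne_zero_iff inj).2 hf)]
  rfl

lemma log_multiset {R : Multiset ℂ} {F : ℂ → ℂ} (h : ∀ t ∈ R, F t ≠ 0) :
    Real.log ‖(R.map F).prod‖ = (R.map fun t => Real.log ‖F t‖).sum ∧ (R.map F).prod ≠ 0 := by
  induction R using Multiset.induction_on with
  | empty => simp
  | cons a R ih =>
    obtain ⟨h1, h2⟩ := ih fun t ht => h t (Multiset.mem_cons_of_mem ht)
    have h3 := h a (Multiset.mem_cons_self a R)
    simp only [Multiset.map_cons, Multiset.prod_cons, Multiset.sum_cons]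
    refine ⟨?_, mul_ne_zero h3 h2⟩
    rw [norm_mul, Real.log_mul (norm_ne_zero_iff.2 h3) (norm_ne_zero_iff.2 h2), h1]

/-- the resultant is a nonzero integer -/
lemma res_ineq {f Φ : ℤ[X]} (hf : f ≠ 0) {D : ℕ} (hΦ : Φ.natDegree ≤ D)
    (h : ∀ t ∈ rts f, ev Φ t ≠ 0) :
    0 ≤ D * Real.log |(f.leadingCoeff : ℝ)| + ((rts f).map fun t => Real.log ‖ev Φ t‖).sum := by
  have h1 := resultant_eq_prod_eval (f.map (Int.castRingHom ℂ)) (Φ.map (Int.castRingHom ℂ))
    D (natDegree_map_le.trans hΦ) (IsAlgClosed.splits _)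
  rw [natDegree_map_eq_of_injective inj, resultant_map_map,
    leadingCoeff_map_of_injective inj] at h1
  obtain ⟨h2, h3⟩ := log_multiset (R := rts f) (F := ev Φ) h
  have hb : (f.leadingCoeff : ℂ) ≠ 0 := by exact_mod_cast leadingCoeff_ne_zero.2 hf
  have h4 : ((resultant f Φ f.natDegree D : ℤ) : ℂ) =
      (f.leadingCoeff : ℂ) ^ D * ((rts f).map (ev Φ)).prod := h1
  have h5 : resultant f Φ f.natDegree D ≠ 0 := by
    intro h0
    rw [h0] at h4
    exact mul_ne_zero (pow_ne_zero D hb) h3 (by rw [← h4]; simp)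
  have h6 : (1 : ℝ) ≤ ‖(f.leadingCoeff : ℂ) ^ D * ((rts f).map (ev Φ)).prod‖ := by
    rw [← h4, Complex.norm_intCast]
    exact_mod_cast Int.one_le_abs h5
  have h7 := Real.log_nonneg h6
  rw [norm_mul, Real.log_mul (norm_ne_zero_iff.2 (pow_ne_zero D hb)) (norm_ne_zero_iff.2 h3), h2,
    norm_pow, Real.log_pow, Complex.norm_intCast] at h7
  exact h7

/-- an irreducible polynomial divides every monic polynomial with which it has a common root -/
lemma dvd_of_root {f Ψ : ℤ[X]} (hirr : Irreducible f) (hΨm : Ψ.Monic) {t : ℂ}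
    (ht : ev f t = 0) (hΨ : ev Ψ t = 0) : f ∣ Ψ := by
  have e1 : ∀ p : ℤ[X], aeval t p = ev p t := by
    intro p
    rw [aeval_def, eval₂_eq_eval_map]
    rfl
  have hint : IsIntegral ℤ t := ⟨Ψ, hΨm, by
    have := e1 Ψ
    rw [aeval_def] at this
    rw [this, hΨ]⟩
  have h1 : minpoly ℤ t ∣ f := minpoly.isIntegrallyClosed_dvd hint (by rw [e1, ht])
  have h2 : minpoly ℤ t ∣ Ψ := minpoly.isIntegrallyClosed_dvd hint (by rw [e1, hΨ])
  obtain ⟨q, hq⟩ := h1
  rcases hirr.isUnit_or_isUnit hq with h | h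
  · exact absurd h (minpoly.not_isUnit ℤ t)
  · obtain ⟨u, hu⟩ := h
    have h3 : f ∣ minpoly ℤ t := ⟨((u⁻¹ : ℤ[X]ˣ) : ℤ[X]), by
      rw [hq, ← hu, mul_assoc, Units.mul_inv, mul_one]⟩
    exact h3.trans h2

lemma ev_of_dvd {f Ψ : ℤ[X]} (h : f ∣ Ψ) {t : ℂ} (ht : ev f t = 0) : ev Ψ t = 0 := by
  obtain ⟨q, rfl⟩ := h
  rw [ev, Polynomial.map_mul, eval_mul]
  change ev f t * _ = 0
  rw [ht, zero_mul]

lemma ev_quad (b c : ℤ) (t : ℂ) : ev (X ^ 2 + C b * X + C c) t = t ^ 2 + b * t + c := by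
  simp [ev]

lemma monic_quad (b c : ℤ) : (X ^ 2 + C b * X + C c : ℤ[X]).Monic ∧
    (X ^ 2 + C b * X + C c : ℤ[X]).natDegree = 2 := by
  constructor
  · monicity!
  · compute_degree!

/-- every root of an irreducible polynomial with an integral root is this integer -/
lemma all_int {f : ℤ[X]} (hirr : Irreducible f) {k : ℤ} (hk : ev f k = 0) {t : ℂ}
    (ht : ev f t = 0) : t = k := by
  have h1 := dvd_of_root hirr (monic_X_sub_C k) hk (by simp [ev])
  have h2 := ev_of_dvd h1 ht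
  have h3 : ev (X - C k) t = t - k := by simp [ev]
  rw [h3] at h2
  exact sub_eq_zero.1 h2

lemma all_quad {f : ℤ[X]} (hirr : Irreducible f) {b c : ℤ} {t : ℂ} (ht : ev f t = 0)
    (h : t ^ 2 + b * t + c = 0) {s : ℂ} (hs : ev f s = 0) : s ^ 2 + b * s + c = 0 := by
  have h1 := dvd_of_root hirr (monic_quad b c).1 ht (by rw [ev_quad, h])
  have h2 := ev_of_dvd h1 hs
  rwa [ev_quad] at h2

/-- an irreducible polynomial with a nonintegral root of a quadratic polynomial is this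
polynomial up to the sign -/
lemma quad_dvd {f : ℤ[X]} (hirr : Irreducible f) {b c : ℤ} {t : ℂ} (ht : ev f t = 0)
    (h : t ^ 2 + b * t + c = 0) (hint : ∀ k : ℤ, t ≠ k) :
    f.natDegree = 2 ∧ ∀ s : ℂ, s ^ 2 + b * s + c = 0 → ev f s = 0 := by
  obtain ⟨h1, h2⟩ := monic_quad b c
  have h3 := dvd_of_root hirr h1 ht (by rw [ev_quad, h])
  obtain ⟨q, hq⟩ := h3
  have hf0 : f ≠ 0 := hirr.ne_zero
  have hq0 : q ≠ 0 := by
    rintro rfl
    rw [mul_zero] at hq
    exact h1.ne_zero hq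
  have hd := congrArg natDegree hq
  rw [natDegree_mul hf0 hq0, h2] at hd
  have hlc := congrArg leadingCoeff hq
  rw [leadingCoeff_mul, h1.leadingCoeff] at hlc
  have hlf : f.leadingCoeff = 1 ∨ f.leadingCoeff = -1 :=
    Int.isUnit_iff.1 (IsUnit.of_mul_eq_one _ hlc.symm)
  have hd2 : f.natDegree = 2 := by
    by_contra hne
    have hd3 : f.natDegree ≤ 1 := by omega
    -- the polynomial is linear or constant
    have h4 : f = C (f.coeff 1) * X + C (f.coeff 0) := eq_X_add_C_of_natDegree_le_one hd3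
    have h5 : ev f t = (f.coeff 1 : ℂ) * t + (f.coeff 0 : ℂ) := by
      conv_lhs => rw [h4]
      simp [ev]
    rcases Nat.eq_zero_or_pos f.natDegree with h6 | h6
    · rw [leadingCoeff, h6] at hlf
      have h7 : f = C (f.coeff 0) := eq_C_of_natDegree_eq_zero h6
      have h8 : ev f t = (f.coeff 0 : ℂ) := by
        conv_lhs => rw [h7]
        simp [ev]
      rw [ht] at h8
      have h9 : f.coeff 0 = 0 := by exact_mod_cast h8.symm
      rcases hlf with h10 | h10 <;> omega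
    · have h7 : f.natDegree = 1 := by omega
      rw [leadingCoeff, h7] at hlf
      rw [ht] at h5
      rcases hlf with h8 | h8
      · apply hint (-f.coeff 0)
        rw [h8] at h5
        push_cast at h5 ⊢
        linear_combination -h5
      · apply hint (f.coeff 0)
        rw [h8] at h5
        push_cast at h5 ⊢
        linear_combination h5
  refine ⟨hd2, fun s hs => ?_⟩
  have hqd : q.natDegree = 0 := by omega
  have hqc : q = C (q.coeff 0) := eq_C_of_natDegree_eq_zero hqd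
  have h5 : ev (X ^ 2 + C b * X + C c) s = ev f s * (q.coeff 0 : ℂ) := by
    rw [hq]
    conv_lhs => rw [hqc]
    simp [ev]
  rw [ev_quad, hs] at h5
  have hq00 : (q.coeff 0 : ℂ) ≠ 0 := by
    intro h6
    apply hq0
    rw [hqc]
    have : q.coeff 0 = 0 := by exact_mod_cast h6
    rw [this, C_0]
  rcases mul_eq_zero.1 h5.symm with h6 | h6
  · exact h6
  · exact absurd h6 hq00

/-- the exceptional points: integers and quadratic irrationalities of discriminant `5` -/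
def Exc (t : ℂ) : Prop :=
  (∃ k : ℤ, t = k) ∨ ∃ m : ℤ, t ^ 2 - (2 * m + 1) * t + (m ^ 2 + m - 1) = 0

/-- auxiliary polynomials -/
structure Aux (Φ : ℤ[X]) (n : ℤ) : Prop where
  deg : Φ.natDegree ≤ 7
  bound : ∀ t : ℂ, ‖ev Φ t‖ ≤ (‖t - n‖ + 2) ^ 7
  zero : ∀ t : ℂ, ev Φ t = 0 → Exc t ∨ (t - n) ^ 2 = 2

lemma aux_zero {σ n : ℤ} (hσ : σ = 1 ∨ σ = -1) {t : ℂ} :
    (∀ k : ℤ, (σ : ℂ) * (t - n) = k → Exc t) ∧
    (((σ : ℂ) * (t - n)) ^ 2 - (σ : ℂ) * (t - n) - 1 = 0 → Exc t) ∧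
    (((σ : ℂ) * (t - n)) ^ 2 - 2 = 0 → (t - n) ^ 2 = 2) := by
  have hσ2 : (σ : ℂ) * σ = 1 := by rcases hσ with rfl | rfl <;> norm_num
  refine ⟨?_, ?_, ?_⟩
  · intro k hk
    left
    refine ⟨n + σ * k, ?_⟩
    push_cast
    linear_combination (σ : ℂ) * hk - (t - n) * hσ2
  · intro h1
    right
    rcases hσ with rfl | rfl
    · refine ⟨n, ?_⟩
      push_cast at h1
      linear_combination h1
    · refine ⟨n - 1, ?_⟩
      push_cast at h1 ⊢
      linear_combination h1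
  · intro h1
    linear_combination h1 - (t - n) ^ 2 * hσ2

lemma norm_gold (y : ℂ) : ‖y ^ 2 - y - 1‖ ≤ (‖y‖ + 2) ^ 2 := by
  have h1 := norm_sub_le (y ^ 2 - y) 1
  have h2 := norm_sub_le (y ^ 2) y
  rw [norm_pow] at h2
  rw [norm_one] at h1
  nlinarith [norm_nonneg y]

lemma norm_two (y : ℂ) : ‖y ^ 2 - 2‖ ≤ (‖y‖ + 2) ^ 2 := by
  have h1 := norm_sub_le (y ^ 2) 2
  rw [norm_pow, Complex.norm_ofNat] at h1
  nlinarith [norm_nonneg y]

lemma norm_shift (y : ℂ) (k : ℂ) (hk : ‖k‖ ≤ 2) : ‖y - k‖ ≤ ‖y‖ + 2 :=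
  (norm_sub_le _ _).trans (by linarith)

lemma norm_sigma {σ n : ℤ} (hσ : σ = 1 ∨ σ = -1) (t : ℂ) : ‖(σ : ℂ) * (t - n)‖ = ‖t - n‖ := by
  rw [norm_mul]
  rcases hσ with rfl | rfl <;> simp

/-- the first auxiliary polynomial -/
noncomputable def PA (σ n : ℤ) : ℤ[X] :=
  (C σ * (X - C n)) * (C σ * (X - C n) - 1) * (C σ * (X - C n) + 1) *
    ((C σ * (X - C n)) ^ 2 - C σ * (X - C n) - 1) * ((C σ * (X - C n)) ^ 2 - 2)

/-- the second auxiliary polynomial -/
noncomputable def PB (σ n : ℤ) : ℤ[X] :=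
  (C σ * (X - C n)) * (C σ * (X - C n) - 1) * (C σ * (X - C n) - 2) * (C σ * (X - C n) + 1) *
    ((C σ * (X - C n)) ^ 2 - C σ * (X - C n) - 1)

lemma ev_PA (σ n : ℤ) (t : ℂ) : ev (PA σ n) t = ((σ : ℂ) * (t - n)) *
    ((σ : ℂ) * (t - n) - 1) * ((σ : ℂ) * (t - n) + 1) *
    (((σ : ℂ) * (t - n)) ^ 2 - (σ : ℂ) * (t - n) - 1) * (((σ : ℂ) * (t - n)) ^ 2 - 2) := by
  simp [ev, PA]

lemma ev_PB (σ n : ℤ) (t : ℂ) : ev (PB σ n) t = ((σ : ℂ) * (t - n)) *
    ((σ : ℂ) * (t - n) - 1) * ((σ : ℂ) * (t - n) - 2) * ((σ : ℂ) * (t - n) + 1) *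
    (((σ : ℂ) * (t - n)) ^ 2 - (σ : ℂ) * (t - n) - 1) := by
  simp [ev, PB]

lemma prod_le5 {a b c d e u : ℝ} (hu : 0 ≤ u) (ha : 0 ≤ a) (hb : 0 ≤ b) (hc : 0 ≤ c)
    (hd : 0 ≤ d) (he : 0 ≤ e) (h1 : a ≤ u + 2) (h2 : b ≤ u + 2) (h3 : c ≤ u + 2)
    (h4 : d ≤ (u + 2) ^ 2) (h5 : e ≤ (u + 2) ^ 2) : a * b * c * d * e ≤ (u + 2) ^ 7 := by
  calc a * b * c * d * e ≤ (u + 2) * (u + 2) * (u + 2) * (u + 2) ^ 2 * (u + 2) ^ 2 := by
        gcongr
    _ = (u + 2) ^ 7 := by ring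

lemma aux_PA {σ : ℤ} (hσ : σ = 1 ∨ σ = -1) (n : ℤ) : Aux (PA σ n) n where
  deg := by
    rw [PA]
    compute_degree
  bound t := by
    rw [ev_PA, ← norm_sigma hσ t]
    set y := (σ : ℂ) * (t - n)
    rw [norm_mul, norm_mul, norm_mul, norm_mul]
    have h3 := norm_shift y (-1) (by simp)
    rw [sub_neg_eq_add] at h3
    exact prod_le5 (norm_nonneg y) (norm_nonneg _) (norm_nonneg _) (norm_nonneg _)
      (norm_nonneg _) (norm_nonneg _) (by linarith [norm_nonneg y])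
      (norm_shift y 1 (by simp)) h3 (norm_gold y) (norm_two y)
  zero t h0 := by
    rw [ev_PA] at h0
    obtain ⟨q1, q2, q3⟩ := aux_zero (n := n) hσ (t := t)
    rcases mul_eq_zero.1 h0 with h0 | h0
    · left
      rcases mul_eq_zero.1 h0 with h0 | h0
      · rcases mul_eq_zero.1 h0 with h0 | h0
        · rcases mul_eq_zero.1 h0 with h0 | h0
          · exact q1 0 (by rw [h0]; simp)
          · exact q1 1 (by push_cast; linear_combination h0)
        · exact q1 (-1) (by push_cast; linear_combination h0)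
      · exact q2 h0
    · right
      exact q3 h0

lemma aux_PB {σ : ℤ} (hσ : σ = 1 ∨ σ = -1) (n : ℤ) : Aux (PB σ n) n where
  deg := by
    rw [PB]
    compute_degree
    norm_num
  bound t := by
    rw [ev_PB, ← norm_sigma hσ t]
    set y := (σ : ℂ) * (t - n)
    rw [norm_mul, norm_mul, norm_mul, norm_mul]
    have h3 := norm_shift y (-1) (by simp)
    rw [sub_neg_eq_add] at h3
    have h4 : ‖y + 1‖ ≤ (‖y‖ + 2) ^ 2 := by nlinarith [norm_nonneg y]
    exact prod_le5 (norm_nonneg y) (norm_nonneg _) (norm_nonneg _) (norm_nonneg _)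
      (norm_nonneg _) (norm_nonneg _) (by linarith [norm_nonneg y])
      (norm_shift y 1 (by simp)) (norm_shift y 2 (by simp)) h4 (norm_gold y)
  zero t h0 := by
    rw [ev_PB] at h0
    obtain ⟨q1, q2, q3⟩ := aux_zero (n := n) hσ (t := t)
    left
    rcases mul_eq_zero.1 h0 with h0 | h0
    · rcases mul_eq_zero.1 h0 with h0 | h0
      · rcases mul_eq_zero.1 h0 with h0 | h0
        · rcases mul_eq_zero.1 h0 with h0 | h0
          · exact q1 0 (by rw [h0]; simp)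
          · exact q1 1 (by push_cast; linear_combination h0)
        · exact q1 2 (by push_cast; linear_combination h0)
      · exact q1 (-1) (by push_cast; linear_combination h0)
    · exact q2 h0

lemma sqrt2_lt : √2 < 1.41422 := by
  rw [Real.sqrt_lt' (by norm_num)]
  norm_num

/-- **An auxiliary polynomial for every short segment.** -/
theorem locate (S : Finset ℂ) (hS : S.Nonempty) (hre : ∀ s ∈ S, ∀ t ∈ S, s.re - t.re < 2 * √2)
    (him : ∀ t ∈ S, |t.im| ≤ 0.00422) :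
    ∃ (Φ : ℤ[X]) (n : ℤ), Aux Φ n ∧ (∀ t ∈ S, ‖ev Φ t‖ ≤ 0.96) ∧ ∀ t ∈ S, |t.re - n| ≤ 1.92 := by
  obtain ⟨t0, ht0, hmin⟩ := S.exists_min_image (fun t => t.re) hS
  obtain ⟨t1, ht1, hmax⟩ := S.exists_max_image (fun t => t.re) hS
  have hspan := hre t1 ht1 t0 ht0
  set c := (t0.re + t1.re) / 2 with hc
  set n := round c with hn
  have hround : |c - n| ≤ 1 / 2 := abs_sub_round c
  have hs3 := sqrt2_lt
  have hbox : ∀ t ∈ S, |t.re - c| < √2 := by
    intro t ht
    have h1 := hmin t ht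
    have h2 := hmax t ht
    rw [abs_lt]
    constructor <;> linarith
  obtain ⟨σ, hσ, hσc⟩ : ∃ σ : ℤ, (σ = 1 ∨ σ = -1) ∧ 0 ≤ (σ : ℝ) * (c - n) := by
    rcases le_total 0 (c - n) with h | h
    · exact ⟨1, Or.inl rfl, by push_cast; linarith⟩
    · exact ⟨-1, Or.inr rfl, by push_cast; linarith⟩
  have hσ1 : (σ : ℝ) * σ = 1 := by rcases hσ with rfl | rfl <;> norm_num
  have hσa : |(σ : ℝ)| = 1 := by rcases hσ with rfl | rfl <;> norm_num
  have hc2 : (σ : ℝ) * (c - n) ≤ 1 / 2 := by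
    have h1 : |(σ : ℝ) * (c - n)| ≤ 1 / 2 := by
      rw [abs_mul, hσa, one_mul]
      exact hround
    exact (abs_le.1 h1).2
  have hy : ∀ t ∈ S, |((σ : ℂ) * (t - n)).im| ≤ 0.00422 ∧
      (σ : ℝ) * (c - n) - 1.41422 ≤ ((σ : ℂ) * (t - n)).re ∧
      ((σ : ℂ) * (t - n)).re ≤ (σ : ℝ) * (c - n) + 1.41422 := by
    intro t ht
    have e1 : ((σ : ℂ) * (t - n)).im = σ * t.im := by
      have : (σ : ℂ) * (t - n) = ((σ : ℝ) : ℂ) * (t - ((n : ℝ) : ℂ)) := by push_cast; ring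
      rw [this, Complex.im_ofReal_mul, Complex.sub_im, Complex.ofReal_im, sub_zero]
    have e2 : ((σ : ℂ) * (t - n)).re = σ * (t.re - n) := by
      have : (σ : ℂ) * (t - n) = ((σ : ℝ) : ℂ) * (t - ((n : ℝ) : ℂ)) := by push_cast; ring
      rw [this, Complex.re_ofReal_mul, Complex.sub_re, Complex.ofReal_re]
    rw [e1, e2, abs_mul, hσa, one_mul]
    refine ⟨him t ht, ?_⟩
    have h1 : |(σ : ℝ) * (t.re - c)| < 1.41422 := by
      rw [abs_mul, hσa, one_mul]
      exact (hbox t ht).trans hs3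
    have h2 := abs_lt.1 h1
    constructor <;> nlinarith [h2.1, h2.2]
  have hnear : ∀ t ∈ S, |t.re - n| ≤ 1.92 := by
    intro t ht
    have h1 := hbox t ht
    have h2 : |t.re - n| ≤ |t.re - c| + |c - n| := by
      have : t.re - n = (t.re - c) + (c - n) := by ring
      rw [this]
      exact abs_add_le _ _
    linarith
  rcases le_or_gt ((σ : ℝ) * (c - n)) 0.316 with hcase | hcase
  · refine ⟨PA σ n, n, aux_PA hσ n, ?_, hnear⟩
    intro t ht
    obtain ⟨y1, y2, y3⟩ := hy t ht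
    have h1 := phi2 (y := (σ : ℂ) * (t - n)) (by linarith) (by linarith) y1
    rw [ev_PA]
    set y := (σ : ℂ) * (t - n)
    rw [norm_mul, norm_mul, norm_mul, norm_mul]
    simpa using h1
  · refine ⟨PB σ n, n, aux_PB hσ n, ?_, hnear⟩
    intro t ht
    obtain ⟨y1, y2, y3⟩ := hy t ht
    have h1 := phi1 (y := (σ : ℂ) * (t - n)) (by linarith) (by linarith) y1
    rw [ev_PB]
    set y := (σ : ℂ) * (t - n)
    rw [norm_mul, norm_mul, norm_mul, norm_mul]
    simpa using h1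

/-- the auxiliary polynomial of the antisymmetric case -/
noncomputable def PC (n : ℤ) : ℤ[X] :=
  (X - C n) * ((X - C n) ^ 2 + 1) * ((X - C n) ^ 2 + 2)

lemma ev_PC (n : ℤ) (t : ℂ) :
    ev (PC n) t = (t - n) * ((t - n) ^ 2 + 1) * ((t - n) ^ 2 + 2) := by
  simp [ev, PC]

lemma PC_deg (n : ℤ) : (PC n).natDegree ≤ 7 := by
  rw [PC]
  compute_degree
  norm_num

lemma PC_bound (n : ℤ) (t : ℂ) : ‖ev (PC n) t‖ ≤ (‖t - n‖ + 2) ^ 7 := by
  rw [ev_PC]
  set y := t - (n : ℂ)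
  rw [norm_mul, norm_mul]
  have h1 : ‖y ^ 2 + 1‖ ≤ (‖y‖ + 2) ^ 2 := by
    have h1 := norm_add_le (y ^ 2) 1
    rw [norm_pow, norm_one] at h1
    nlinarith [norm_nonneg y]
  have h2 : ‖y ^ 2 + 2‖ ≤ (‖y‖ + 2) ^ 2 := by
    have h1 := norm_add_le (y ^ 2) 2
    rw [norm_pow, Complex.norm_ofNat] at h1
    nlinarith [norm_nonneg y]
  have h0 := norm_nonneg y
  have := prod_le5 (a := ‖y‖) (b := 1) (c := 1) h0 h0 zero_le_one zero_le_one
    (norm_nonneg (y ^ 2 + 1)) (norm_nonneg (y ^ 2 + 2)) (by linarith) (by linarith) (by linarith)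
    h1 h2
  simpa using this

lemma PC_small (n : ℤ) {t : ℂ} (h1 : |t.im| ≤ 1.4143) (h2 : |t.re - n| ≤ 0.00422) :
    ‖ev (PC n) t‖ ≤ 0.96 := by
  set y : ℂ := -Complex.I * (t - n) with hy
  have hyim : y.im = -(t.re - n) := by
    rw [hy]
    simp
  have hyre : y.re = t.im := by
    rw [hy]
    simp
  have hty : t - n = Complex.I * y := by
    rw [hy]
    linear_combination (t - n) * Complex.I_sq
  have h3 := abs_le.1 h1
  have h4 := phi3 (y := y) (by rw [hyre]; linarith [h3.1]) (by rw [hyre]; linarith [h3.2])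
    (by rw [hyim, abs_neg]; exact h2)
  rw [ev_PC, hty]
  have e1 : Complex.I * y * ((Complex.I * y) ^ 2 + 1) * ((Complex.I * y) ^ 2 + 2) =
      Complex.I * (y * (y - 1) * (y + 1) * (y ^ 2 - 2)) := by
    have hI := Complex.I_sq
    linear_combination (Complex.I * y ^ 5 * (Complex.I ^ 2 - 1) + 3 * Complex.I * y ^ 3) * hI
  rw [e1, norm_mul, Complex.norm_I, one_mul, norm_mul, norm_mul, norm_mul]
  simpa using h4

end Pool.Agent.Run7.h80.Sym
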