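import Mathlib

/-!
# Outer functions of polynomials and their roots
-/

set_option autoImplicit false

open Real Metric Polynomial

namespace Pool.Agent.Run7.h80.Sym

lemma outer_factor (w : ℂ) (hw : ‖w‖ ≠ 1) : ∃ E : ℂ → ℂ, DifferentiableOn ℂ E (closedBall 0 1) ∧
    E 0 = 0 ∧ (∀ z ∈ closedBall (0 : ℂ) 1, ‖z - w‖ ≤ max 1 ‖w‖ * Real.exp (E z).re) ∧
    ∀ z ∈ sphere (0 : ℂ) 1, ‖z - w‖ = max 1 ‖w‖ * Real.exp (E z).re := by
  have key : ∀ u : ℂ, ‖u‖ < 1 → (∀ z ∈ closedBall (0 : ℂ) 1, ‖z - w‖ ≤ max 1 ‖w‖ * ‖1 - u * z‖) →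
      (∀ z ∈ sphere (0 : ℂ) 1, ‖z - w‖ = max 1 ‖w‖ * ‖1 - u * z‖) →
      ∃ E : ℂ → ℂ, DifferentiableOn ℂ E (closedBall 0 1) ∧
      E 0 = 0 ∧ (∀ z ∈ closedBall (0 : ℂ) 1, ‖z - w‖ ≤ max 1 ‖w‖ * Real.exp (E z).re) ∧
      ∀ z ∈ sphere (0 : ℂ) 1, ‖z - w‖ = max 1 ‖w‖ * Real.exp (E z).re := by
    intro u hu h1 h2
    have hs : ∀ z ∈ closedBall (0 : ℂ) 1, 1 - u * z ∈ Complex.slitPlane := by
      intro z hz
      have h3 : ‖u * z‖ < 1 := by
        rw [norm_mul]
        have : ‖z‖ ≤ 1 := by simpa using hz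
        calc ‖u‖ * ‖z‖ ≤ ‖u‖ * 1 := by gcongr
          _ < 1 := by linarith
      rw [Complex.mem_slitPlane_iff]
      left
      have h4 := Complex.re_le_norm (u * z)
      simp only [Complex.sub_re, Complex.one_re]
      linarith
    have hn : ∀ z ∈ closedBall (0 : ℂ) 1, Real.exp (Complex.log (1 - u * z)).re = ‖1 - u * z‖ := by
      intro z hz
      rw [Complex.log_re, Real.exp_log]
      exact norm_pos_iff.2 (Complex.slitPlane_ne_zero (hs z hz))
    refine ⟨fun z => Complex.log (1 - u * z), ?_, by simp, ?_, ?_⟩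
    · intro z hz
      apply DifferentiableAt.differentiableWithinAt
      exact (((differentiableAt_const _).sub ((differentiableAt_const _).mul
        differentiableAt_id)).clog (hs z hz))
    · intro z hz
      rw [hn z hz]
      exact h1 z hz
    · intro z hz
      rw [hn z (sphere_subset_closedBall hz)]
      exact h2 z hz
  rcases lt_or_gt_of_ne hw with h | h
  · have hid : ∀ z : ℂ, ‖1 - starRingEnd ℂ w * z‖ ^ 2 - ‖z - w‖ ^ 2 =
        (1 - ‖z‖ ^ 2) * (1 - ‖w‖ ^ 2) := by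
      intro z
      rw [← Complex.normSq_eq_norm_sq, ← Complex.normSq_eq_norm_sq, ← Complex.normSq_eq_norm_sq,
        ← Complex.normSq_eq_norm_sq]
      simp only [Complex.normSq_apply, Complex.sub_re, Complex.sub_im, Complex.mul_re,
        Complex.mul_im, Complex.one_re, Complex.one_im, Complex.conj_re, Complex.conj_im]
      ring
    have hm : max 1 ‖w‖ = 1 := max_eq_left h.le
    apply key (starRingEnd ℂ w) (by simpa using h)
    · intro z hz
      have hz1 : ‖z‖ ≤ 1 := by simpa using hz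
      rw [hm, one_mul]
      have h1 := hid z
      have h2 : 0 ≤ (1 - ‖z‖ ^ 2) * (1 - ‖w‖ ^ 2) := by
        apply mul_nonneg
        · nlinarith [norm_nonneg z]
        · nlinarith [norm_nonneg w]
      exact (pow_le_pow_iff_left₀ (norm_nonneg _) (norm_nonneg _) two_ne_zero).1 (by linarith)
    · intro z hz
      have hz1 : ‖z‖ = 1 := by simpa using hz
      rw [hm, one_mul]
      have h1 := hid z
      rw [hz1] at h1
      have h2 : ‖z - w‖ ^ 2 = ‖1 - starRingEnd ℂ w * z‖ ^ 2 := by linarith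
      exact (pow_left_inj₀ (norm_nonneg _) (norm_nonneg _) two_ne_zero).1 h2
  · have hw0 : w ≠ 0 := by
      rintro rfl
      simp at h
      linarith
    have hm : max 1 ‖w‖ = ‖w‖ := max_eq_right h.le
    have he : ∀ z : ℂ, ‖z - w‖ = max 1 ‖w‖ * ‖1 - w⁻¹ * z‖ := by
      intro z
      rw [hm, ← norm_mul, mul_sub, mul_one, mul_inv_cancel_left₀ hw0, norm_sub_rev]
    apply key w⁻¹
    · rw [norm_inv]
      exact inv_lt_one_of_one_lt₀ h
    · intro z _
      exact (he z).le
    · intro z _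
      exact he z

lemma outer_multiset (T : Multiset ℂ) (hT : ∀ w ∈ T, ‖w‖ ≠ 1) :
    ∃ E : ℂ → ℂ, DifferentiableOn ℂ E (closedBall 0 1) ∧ E 0 = 0 ∧
    (∀ z ∈ closedBall (0 : ℂ) 1, (T.map fun w => ‖z - w‖).prod ≤
      (T.map fun w => max 1 ‖w‖).prod * Real.exp (E z).re) ∧
    ∀ z ∈ sphere (0 : ℂ) 1, (T.map fun w => ‖z - w‖).prod =
      (T.map fun w => max 1 ‖w‖).prod * Real.exp (E z).re := by
  induction T using Multiset.induction_on with
  | empty => exact ⟨fun _ => 0, differentiableOn_const _, rfl, by simp, by simp⟩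
  | cons a T ih =>
    obtain ⟨E, h1, h2, h3, h4⟩ := ih fun w hw => hT w (Multiset.mem_cons_of_mem hw)
    obtain ⟨F, g1, g2, g3, g4⟩ := outer_factor a (hT a (Multiset.mem_cons_self a T))
    refine ⟨fun z => F z + E z, g1.add h1, by simp [h2, g2], ?_, ?_⟩
    · intro z hz
      rw [Multiset.map_cons, Multiset.prod_cons, Multiset.map_cons, Multiset.prod_cons,
        Complex.add_re, Real.exp_add]
      have h5 : (0 : ℝ) ≤ (T.map fun w => ‖z - w‖).prod :=
        Multiset.prod_nonneg fun x hx => by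
          obtain ⟨y, _, rfl⟩ := Multiset.mem_map.1 hx
          exact norm_nonneg _
      calc ‖z - a‖ * (T.map fun w => ‖z - w‖).prod ≤ (max 1 ‖a‖ * Real.exp (F z).re) *
          ((T.map fun w => max 1 ‖w‖).prod * Real.exp (E z).re) :=
            mul_le_mul (g3 z hz) (h3 z hz) h5 (by positivity)
        _ = _ := by ring
    · intro z hz
      rw [Multiset.map_cons, Multiset.prod_cons, Multiset.map_cons, Multiset.prod_cons,
        Complex.add_re, Real.exp_add, g4 z hz, h4 z hz]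
      ring

lemma eval_eq_prod (W : ℂ[X]) (z : ℂ) :
    W.eval z = W.leadingCoeff * (W.roots.map fun w => z - w).prod := by
  conv_lhs => rw [(IsAlgClosed.splits W).eq_prod_roots]
  rw [eval_mul, eval_C, eval_multiset_prod, Multiset.map_map]
  congr 2
  apply Multiset.map_congr rfl
  intro w _
  simp

lemma norm_multiset_prod (T : Multiset ℂ) : ‖T.prod‖ = (T.map fun w => ‖w‖).prod := by
  induction T using Multiset.induction_on with
  | empty => simp
  | cons a T ih => simp [ih]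

lemma norm_eval_eq_prod (W : ℂ[X]) (z : ℂ) :
    ‖W.eval z‖ = ‖W.leadingCoeff‖ * (W.roots.map fun w => ‖z - w‖).prod := by
  rw [eval_eq_prod, norm_mul, norm_multiset_prod, Multiset.map_map]
  rfl

/-- **Roots of the outer function of a polynomial.** -/
theorem outer (W : ℂ[X]) (hl : ‖W.leadingCoeff‖ = 1) (hno : ∀ z : ℂ, ‖z‖ = 1 → W.eval z ≠ 0)
    {L : ℕ} (hL : 0 < L) : ∃ e : ℂ → ℂ, DifferentiableOn ℂ e (closedBall 0 1) ∧
    e 0 = ((Real.exp (-(Real.log W.mahlerMeasure / L)) : ℝ) : ℂ) ∧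
    (∀ z ∈ closedBall (0 : ℂ) 1, ‖W.eval z‖ * ‖e z‖ ^ L ≤ 1) ∧
    ∀ z ∈ sphere (0 : ℂ) 1, ‖W.eval z‖ * ‖e z‖ ^ L = 1 := by
  have hW0 : W ≠ 0 := by
    rintro rfl
    simp at hl
  obtain ⟨E, h1, h2, h3, h4⟩ := outer_multiset W.roots fun w hw h => by
    have := (mem_roots'.1 hw).2
    exact hno w h this
  set Λ := Real.log W.mahlerMeasure with hΛ
  have hM : W.mahlerMeasure = (W.roots.map fun w => max 1 ‖w‖).prod := by
    rw [mahlerMeasure_eq_leadingCoeff_mul_prod_roots, hl, one_mul]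
  have hMp : 0 < W.mahlerMeasure := mahlerMeasure_pos_of_ne_zero hW0
  have hL0 : (L : ℝ) ≠ 0 := by exact_mod_cast hL.ne'
  refine ⟨fun z => Complex.exp (-((Λ + E z) / L)), ?_, ?_, ?_, ?_⟩
  · exact ((((differentiableOn_const _).add h1).div_const _).neg).cexp
  · simp only [h2]
    push_cast
    simp
  · intro z hz
    have e1 : ‖Complex.exp (-((Λ + E z) / L))‖ ^ L = (W.mahlerMeasure * Real.exp (E z).re)⁻¹ := by
      rw [Complex.norm_exp, ← Real.exp_nat_mul]
      have : (-(((Λ : ℂ) + E z) / L)).re = -((Λ + (E z).re) / L) := by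
        rw [Complex.neg_re]
        congr 1
        rw [Complex.div_natCast_re]
        simp
      rw [this]
      have : (L : ℝ) * -((Λ + (E z).re) / L) = -(Λ + (E z).re) := by
        field_simp
      rw [this, Real.exp_neg, Real.exp_add, hΛ, Real.exp_log hMp]
    rw [e1, norm_eval_eq_prod, hl, one_mul, mul_inv_le_iff₀ (by positivity), one_mul, hM]
    exact h3 z hz
  · intro z hz
    have e1 : ‖Complex.exp (-((Λ + E z) / L))‖ ^ L = (W.mahlerMeasure * Real.exp (E z).re)⁻¹ := by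
      rw [Complex.norm_exp, ← Real.exp_nat_mul]
      have : (-(((Λ : ℂ) + E z) / L)).re = -((Λ + (E z).re) / L) := by
        rw [Complex.neg_re]
        congr 1
        rw [Complex.div_natCast_re]
        simp
      rw [this]
      have : (L : ℝ) * -((Λ + (E z).re) / L) = -(Λ + (E z).re) := by
        field_simp
      rw [this, Real.exp_neg, Real.exp_add, hΛ, Real.exp_log hMp]
    rw [e1, norm_eval_eq_prod, hl, one_mul, h4 z hz, ← hM]
    exact mul_inv_cancel₀ (by positivity)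

end Pool.Agent.Run7.h80.Sym
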