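import Mathlib

/-!
# Taylor coefficients of bounded functions
-/

set_option autoImplicit false

open Real Metric

namespace Pool.Agent.Run7.h80.Sym

/-- the Taylor coefficient of index `j` at the origin -/
noncomputable def cf (j : ℕ) (f : ℂ → ℂ) : ℂ := iteratedDeriv j f 0 / j.factorial

lemma cf_zero (f : ℂ → ℂ) : cf 0 f = f 0 := by
  simp [cf]

lemma avg_div_pow {R : ℝ} (hR : 0 < R) {f : ℂ → ℂ} (hf : DifferentiableOn ℂ f (closedBall 0 R))
    (j : ℕ) : circleAverage (fun z => f z / z ^ j) 0 R = cf j f := by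
  rw [circleAverage_eq_circleIntegral hR.ne']
  have h1 := hf.circleIntegral_one_div_sub_center_pow_smul hR j
  have h2 : (fun z : ℂ => (z - 0)⁻¹ • (f z / z ^ j)) = fun z => (1 / (z - 0) ^ (j + 1)) • f z := by
    funext z
    simp only [sub_zero, smul_eq_mul, one_div, pow_succ, mul_inv, div_eq_mul_inv]
    ring
  rw [h2, h1, smul_eq_mul, smul_eq_mul, cf]
  have h3 : (j.factorial : ℂ) ≠ 0 := by exact_mod_cast j.factorial_ne_zero
  have h4 := Complex.two_pi_I_ne_zero
  field_simp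

lemma avg_mul_pow {R : ℝ} (hR : 0 < R) {f : ℂ → ℂ} (hf : DifferentiableOn ℂ f (closedBall 0 R))
    {j : ℕ} (hj : 0 < j) : circleAverage (fun z => f z * z ^ j) 0 R = 0 := by
  have h1 : DifferentiableOn ℂ (fun z => f z * z ^ j) (closedBall 0 R) :=
    hf.mul (differentiableOn_id.pow j)
  have h2 : DiffContOnCl ℂ (fun z => f z * z ^ j) (ball 0 |R|) := by
    rw [abs_of_pos hR]
    exact (h1.mono closure_ball_subset_closedBall).diffContOnCl
  rw [h2.circleAverage]
  simp [hj.ne']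

lemma avg_self {R : ℝ} (hR : 0 < R) {f : ℂ → ℂ} (hf : DifferentiableOn ℂ f (closedBall 0 R)) :
    circleAverage f 0 R = f 0 := by
  have h2 : DiffContOnCl ℂ f (ball 0 |R|) := by
    rw [abs_of_pos hR]
    exact (hf.mono closure_ball_subset_closedBall).diffContOnCl
  exact h2.circleAverage

lemma sphere_ne_zero {R : ℝ} (hR : 0 < R) {z : ℂ} (hz : z ∈ sphere (0 : ℂ) R) : z ≠ 0 := by
  rintro rfl
  simp at hz
  linarith

/-- the average of a linear combination -/
lemma avg_lin {R : ℝ} (hR : 0 < R) {f : ℂ → ℂ} (hf : DifferentiableOn ℂ f (closedBall 0 R))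
    {j : ℕ} (hj : 0 < j) (k0 k1 k2 k3 k4 : ℂ) :
    circleAverage (fun z => k0 + k1 * f z + k2 * (f z / z ^ j) + k3 * (f z * z ^ j) +
      k4 * z ^ j) 0 R = k0 + k1 * f 0 + k2 * cf j f := by
  have hfc : ContinuousOn f (sphere 0 R) := (hf.mono sphere_subset_closedBall).continuousOn
  have i1 : CircleIntegrable f 0 R := hfc.circleIntegrable hR.le
  have i2 : CircleIntegrable (fun z => f z / z ^ j) 0 R := by
    apply ContinuousOn.circleIntegrable hR.le
    apply hfc.div (continuousOn_id.pow j)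
    intro z hz
    exact pow_ne_zero _ (sphere_ne_zero hR hz)
  have i3 : CircleIntegrable (fun z => f z * z ^ j) 0 R :=
    ContinuousOn.circleIntegrable hR.le (hfc.mul (continuousOn_id.pow j))
  have i4 : CircleIntegrable (fun z : ℂ => z ^ j) 0 R :=
    ContinuousOn.circleIntegrable hR.le (continuousOn_id.pow j)
  have i0 : CircleIntegrable (fun _ : ℂ => k0) 0 R := circleIntegrable_const _ _ _
  have m1 : CircleIntegrable (fun z => k1 * f z) 0 R := i1.const_smul (a := k1)
  have m2 : CircleIntegrable (fun z => k2 * (f z / z ^ j)) 0 R := i2.const_smul (a := k2)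
  have m3 : CircleIntegrable (fun z => k3 * (f z * z ^ j)) 0 R := i3.const_smul (a := k3)
  have m4 : CircleIntegrable (fun z => k4 * z ^ j) 0 R := i4.const_smul (a := k4)
  have e4 : circleAverage (fun z : ℂ => z ^ j) 0 R = 0 := by
    have := avg_mul_pow hR (f := fun _ => 1) (differentiableOn_const _) hj
    simpa using this
  have s1 : ∀ (k : ℂ) (F : ℂ → ℂ), circleAverage (fun z => k * F z) 0 R =
      k * circleAverage F 0 R := by
    intro k F
    have := circleAverage_fun_smul (a := k) (f := F) (c := 0) (R := R)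
    simpa [smul_eq_mul] using this
  have n1 : CircleIntegrable (fun z => k0 + k1 * f z) 0 R := i0.add m1
  have n2 : CircleIntegrable (fun z => k0 + k1 * f z + k2 * (f z / z ^ j)) 0 R := n1.add m2
  have n3 : CircleIntegrable (fun z => k0 + k1 * f z + k2 * (f z / z ^ j) +
    k3 * (f z * z ^ j)) 0 R := n2.add m3
  rw [circleAverage_fun_add n3 m4, circleAverage_fun_add n2 m3, circleAverage_fun_add n1 m2,
    circleAverage_fun_add i0 m1, circleAverage_const, s1, s1, s1, s1, avg_self hR hf,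
    avg_div_pow hR hf, avg_mul_pow hR hf hj, e4]
  ring

/-- the basic inequality -/
lemma sp_aux {R : ℝ} (hR : 0 < R) {f : ℂ → ℂ} (hf : DifferentiableOn ℂ f (closedBall 0 R))
    {M c : ℝ} (hM : 0 ≤ M) (hb : ∀ z ∈ sphere (0 : ℂ) R, ‖f z‖ ≤ M) (hc : f 0 = c)
    {j : ℕ} (hj : 0 < j) (s : ℝ) :
    c ^ 2 + (‖cf j f‖ * R ^ j) ^ 2 * (1 + s * c) ^ 2 ≤
      M ^ 2 * (1 + s ^ 2 * (‖cf j f‖ * R ^ j) ^ 2) := by
  set b : ℂ := cf j f * (R : ℂ) ^ j with hbdef
  have hbn : ‖cf j f‖ * R ^ j = ‖b‖ := by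
    rw [hbdef, norm_mul, norm_pow, Complex.norm_real, Real.norm_of_nonneg hR.le]
  rw [hbn]
  set β : ℂ := b * (1 + s * c) with hβ
  set Rj : ℂ := (R : ℂ) ^ j with hRj
  have hRj0 : Rj ≠ 0 := pow_ne_zero _ (by exact_mod_cast hR.ne')
  have key : 0 ≤ (circleAverage (fun z => ((M ^ 2 * (1 + s ^ 2 * ‖b‖ ^ 2) + c ^ 2 + ‖β‖ ^ 2 : ℝ) : ℂ)
      + (-(2 * (c + s * b * starRingEnd ℂ β))) * f z
      + (-(2 * starRingEnd ℂ β * Rj)) * (f z / z ^ j)
      + (-(2 * (s * c * b / Rj))) * (f z * z ^ j)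
      + ((2 * M ^ 2 * s * b + 2 * c * β) / Rj) * z ^ j) 0 R).re := by
    have hfc : ContinuousOn f (sphere 0 R) := (hf.mono sphere_subset_closedBall).continuousOn
    rw [← Complex.reCLM_apply, ← ContinuousLinearMap.circleAverage_comp_comm]
    · apply circleAverage_nonneg_of_nonneg
      intro z hz
      rw [abs_of_pos hR] at hz
      have hz0 := sphere_ne_zero hR hz
      have hzn : ‖z‖ = R := by simpa using hz
      set g : ℂ := z ^ j / Rj with hg
      have hgn : ‖g‖ = 1 := by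
        rw [hg, norm_div, norm_pow, hzn, hRj, norm_pow, Complex.norm_real,
          Real.norm_of_nonneg hR.le, div_self (pow_ne_zero _ hR.ne')]
      have hgg : g * starRingEnd ℂ g = 1 := by
        rw [Complex.mul_conj, Complex.normSq_eq_norm_sq, hgn]
        norm_num
      have hg0 : g ≠ 0 := by
        intro h
        rw [h] at hgn
        simp at hgn
      have hgi : starRingEnd ℂ g = Rj / z ^ j := by
        have : starRingEnd ℂ g = g⁻¹ := by
          field_simp
          rw [mul_comm]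
          exact hgg
        rw [this, hg, inv_div]
      have hfb := hb z hz
      have e1 : f z / z ^ j * Rj = f z * starRingEnd ℂ g := by
        rw [hgi]
        ring
      have e2 : z ^ j / Rj = g := rfl
      have hid : ((M ^ 2 * (1 + s ^ 2 * ‖b‖ ^ 2) + c ^ 2 + ‖β‖ ^ 2 : ℝ) : ℂ)
          + (-(2 * (c + s * b * starRingEnd ℂ β))) * f z
          + (-(2 * starRingEnd ℂ β * Rj)) * (f z / z ^ j)
          + (-(2 * (s * c * b / Rj))) * (f z * z ^ j)
          + ((2 * M ^ 2 * s * b + 2 * c * β) / Rj) * z ^ j =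
          ((M ^ 2 * (1 + s ^ 2 * ‖b‖ ^ 2) + c ^ 2 + ‖β‖ ^ 2 : ℝ) : ℂ)
          - 2 * (f z * (1 + s * b * g) * (c + starRingEnd ℂ β * starRingEnd ℂ g))
          + 2 * M ^ 2 * s * b * g + 2 * c * β * g := by
        have e3 : (-(2 * starRingEnd ℂ β * Rj)) * (f z / z ^ j) =
            -(2 * starRingEnd ℂ β) * (f z * starRingEnd ℂ g) := by
          rw [← e1]
          ring
        have e4 : (-(2 * (s * c * b / Rj))) * (f z * z ^ j) = -(2 * (s * c * b)) * (f z * g) := by
          rw [hg]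
          ring
        have e5 : ((2 * M ^ 2 * s * b + 2 * c * β) / Rj) * z ^ j =
            (2 * M ^ 2 * s * b + 2 * c * β) * g := by
          rw [hg]
          ring
        rw [e3, e4, e5]
        linear_combination (2 * f z * s * b * starRingEnd ℂ β) * hgg
      have hre : (((M ^ 2 * (1 + s ^ 2 * ‖b‖ ^ 2) + c ^ 2 + ‖β‖ ^ 2 : ℝ) : ℂ)
          - 2 * (f z * (1 + s * b * g) * (c + starRingEnd ℂ β * starRingEnd ℂ g))
          + 2 * M ^ 2 * s * b * g + 2 * c * β * g).re =
          (M ^ 2 - ‖f z‖ ^ 2) * ‖1 + s * b * g‖ ^ 2 +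
            ‖f z * (1 + s * b * g) - (c + β * g)‖ ^ 2 := by
        have hu : ‖1 + s * b * g‖ ^ 2 = 1 + s ^ 2 * ‖b‖ ^ 2 + 2 * (s * b * g : ℂ).re := by
          rw [← Complex.normSq_eq_norm_sq, Complex.normSq_add]
          simp only [map_one, map_mul, Complex.conj_ofReal, one_mul, Complex.normSq_ofReal]
          rw [Complex.normSq_eq_norm_sq b, Complex.normSq_eq_norm_sq g, hgn]
          have : (s * starRingEnd ℂ b * starRingEnd ℂ g : ℂ).re = (s * b * g : ℂ).re := by
            rw [← Complex.conj_re (s * b * g)]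
            simp
          rw [this]
          ring
        have hv : ‖c + β * g‖ ^ 2 = c ^ 2 + ‖β‖ ^ 2 + 2 * (c * β * g : ℂ).re := by
          rw [← Complex.normSq_eq_norm_sq, Complex.normSq_add]
          simp only [map_mul, Complex.normSq_ofReal]
          rw [Complex.normSq_eq_norm_sq β, Complex.normSq_eq_norm_sq g, hgn]
          have : (c * (starRingEnd ℂ β * starRingEnd ℂ g) : ℂ).re = (c * β * g : ℂ).re := by
            rw [← Complex.conj_re (c * β * g)]
            simp [mul_assoc]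
          rw [this]
          ring
        have hw : ‖f z * (1 + s * b * g) - (c + β * g)‖ ^ 2 =
            ‖f z‖ ^ 2 * ‖1 + s * b * g‖ ^ 2 + ‖c + β * g‖ ^ 2 -
              2 * (f z * (1 + s * b * g) * (c + starRingEnd ℂ β * starRingEnd ℂ g)).re := by
          rw [← Complex.normSq_eq_norm_sq, Complex.normSq_sub, Complex.normSq_mul,
            Complex.normSq_eq_norm_sq, Complex.normSq_eq_norm_sq, Complex.normSq_eq_norm_sq]
          simp only [map_add, map_mul, Complex.conj_ofReal]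
        rw [hw, hv, hu]
        have h3 : (2 * (f z * (1 + s * b * g) * (c + starRingEnd ℂ β * starRingEnd ℂ g))).re =
            2 * (f z * (1 + s * b * g) * (c + starRingEnd ℂ β * starRingEnd ℂ g)).re := by
          simp
        have h4 : (2 * M ^ 2 * s * b * g : ℂ).re = 2 * M ^ 2 * (s * b * g : ℂ).re := by
          have : (2 * M ^ 2 * s * b * g : ℂ) = ((2 * M ^ 2 : ℝ) : ℂ) * (s * b * g) := by
            push_cast
            ring
          rw [this, Complex.re_ofReal_mul]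
        have h5 : (2 * c * β * g : ℂ).re = 2 * (c * β * g : ℂ).re := by
          have : (2 * c * β * g : ℂ) = ((2 : ℝ) : ℂ) * (c * β * g) := by
            push_cast
            ring
          rw [this, Complex.re_ofReal_mul]
        rw [Complex.add_re, Complex.add_re, Complex.sub_re, h3, h4, h5, Complex.ofReal_re]
        ring
      rw [Function.comp_apply, Complex.reCLM_apply, hid, hre]
      have h1 : 0 ≤ M ^ 2 - ‖f z‖ ^ 2 := by
        have := pow_le_pow_left₀ (norm_nonneg _) hfb 2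
        linarith
      positivity
    · apply ContinuousOn.circleIntegrable hR.le
      have hd : ContinuousOn (fun z => f z / z ^ j) (sphere (0 : ℂ) R) := by
        apply hfc.div (continuousOn_id.pow j)
        intro z hz
        exact pow_ne_zero _ (sphere_ne_zero hR hz)
      fun_prop
  rw [avg_lin hR hf hj] at key
  have h2 : (((M ^ 2 * (1 + s ^ 2 * ‖b‖ ^ 2) + c ^ 2 + ‖β‖ ^ 2 : ℝ) : ℂ) +
      (-(2 * (c + s * b * starRingEnd ℂ β))) * f 0 +
      (-(2 * starRingEnd ℂ β * Rj)) * cf j f).re =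
      M ^ 2 * (1 + s ^ 2 * ‖b‖ ^ 2) - c ^ 2 - ‖b‖ ^ 2 * (1 + s * c) ^ 2 := by
    have e1 : starRingEnd ℂ β * Rj * cf j f = ((‖b‖ ^ 2 * (1 + s * c) : ℝ) : ℂ) := by
      have : starRingEnd ℂ β * Rj * cf j f = (b * starRingEnd ℂ b) * (1 + s * c) := by
        rw [hβ, map_mul, hbdef]
        simp only [map_add, map_one, map_mul, Complex.conj_ofReal]
        ring
      rw [this, Complex.mul_conj, Complex.normSq_eq_norm_sq]
      push_cast
      ring
    have e2 : b * starRingEnd ℂ β = ((‖b‖ ^ 2 * (1 + s * c) : ℝ) : ℂ) := by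
      rw [← e1, hbdef]
      ring
    have e3 : (‖β‖ : ℝ) ^ 2 = ‖b‖ ^ 2 * (1 + s * c) ^ 2 := by
      rw [hβ, norm_mul, mul_pow]
      congr 1
      have : (1 + (s : ℂ) * c) = ((1 + s * c : ℝ) : ℂ) := by push_cast; ring
      rw [this, Complex.norm_real, Real.norm_eq_abs, sq_abs]
    have e4 : ((M ^ 2 * (1 + s ^ 2 * ‖b‖ ^ 2) + c ^ 2 + ‖β‖ ^ 2 : ℝ) : ℂ) +
      (-(2 * (c + s * b * starRingEnd ℂ β))) * f 0 +
      (-(2 * starRingEnd ℂ β * Rj)) * cf j f =
      ((M ^ 2 * (1 + s ^ 2 * ‖b‖ ^ 2) + c ^ 2 + ‖β‖ ^ 2 - 2 * (c + s * (‖b‖ ^ 2 * (1 + s * c))) * c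
        - 2 * (‖b‖ ^ 2 * (1 + s * c)) : ℝ) : ℂ) := by
      rw [hc]
      push_cast at e1 e2 ⊢
      linear_combination (-2 * s * c : ℂ) * e2 - 2 * e1
    rw [e4, Complex.ofReal_re, e3]
    ring
  rw [h2] at key
  linarith

/-- **The coefficient inequality of Schwarz and Pick.** -/
theorem sp {R : ℝ} (hR : 0 < R) {f : ℂ → ℂ} (hf : DifferentiableOn ℂ f (closedBall 0 R))
    {M c : ℝ} (hM : 0 < M) (hb : ∀ z ∈ sphere (0 : ℂ) R, ‖f z‖ ≤ M) (hc : f 0 = c)
    (hc0 : 0 ≤ c) {j : ℕ} (hj : 0 < j) : ‖cf j f‖ * R ^ j * M ≤ M ^ 2 - c ^ 2 := by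
  have h0 := sp_aux hR hf hM.le hb hc hj 0
  set B := ‖cf j f‖ * R ^ j with hB
  have hB0 : 0 ≤ B := by positivity
  norm_num at h0
  rcases lt_or_ge c M with h | h
  · have hD : 0 < M ^ 2 - c ^ 2 := by nlinarith
    have h1 := sp_aux hR hf hM.le hb hc hj (c / (M ^ 2 - c ^ 2))
    rw [← hB] at h1
    have e1 : 1 + c / (M ^ 2 - c ^ 2) * c = M ^ 2 / (M ^ 2 - c ^ 2) := by
      field_simp
      ring
    rw [e1] at h1
    have h2 : B ^ 2 * M ^ 2 ≤ (M ^ 2 - c ^ 2) ^ 2 := by
      have e2 : B ^ 2 * (M ^ 2 / (M ^ 2 - c ^ 2)) ^ 2 -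
          M ^ 2 * ((c / (M ^ 2 - c ^ 2)) ^ 2 * B ^ 2) = B ^ 2 * M ^ 2 / (M ^ 2 - c ^ 2) := by
        field_simp
      have h3 : B ^ 2 * M ^ 2 / (M ^ 2 - c ^ 2) ≤ M ^ 2 - c ^ 2 := by
        rw [← e2]
        linarith
      rw [div_le_iff₀ hD] at h3
      nlinarith
    have h4 : (B * M) ^ 2 ≤ (M ^ 2 - c ^ 2) ^ 2 := by
      rw [mul_pow]
      exact h2
    exact (pow_le_pow_iff_left₀ (by positivity) hD.le (by norm_num)).1 h4
  · have h1 : M ^ 2 ≤ c ^ 2 := by nlinarith
    have h2 : B ^ 2 ≤ 0 := by nlinarith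
    have h3 : B = 0 := by nlinarith
    have h4 : c ^ 2 = M ^ 2 := by
      rw [h3] at h0
      nlinarith
    rw [h3, h4]
    simp

end Pool.Agent.Run7.h80.Sym
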