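import Mathlib
import Pool.Agent.Run7.h80.Sym.SP
import Pool.Agent.Run7.h80.Sym.Outer

/-!
# Pencils of self-inversive polynomials
-/

set_option autoImplicit false

open Real Metric Polynomial

namespace Pool.Agent.Run7.h80.Sym

/-- self-inversive polynomials of degree `2 * n` with end coefficients of modulus one -/
structure SI (Q : ℂ[X]) (n : ℕ) : Prop where
  deg : Q.natDegree = 2 * n
  npos : 0 < n
  sym : ∀ i ≤ 2 * n, Q.coeff (2 * n - i) = starRingEnd ℂ (Q.coeff i)
  one : ‖Q.coeff 0‖ = 1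

/-- the pencil `Q - t X ^ n` -/
noncomputable def pen (Q : ℂ[X]) (n : ℕ) (t : ℂ) : ℂ[X] := Q - C t * X ^ n

lemma pen_coeff (Q : ℂ[X]) (n : ℕ) (t : ℂ) (i : ℕ) :
    (pen Q n t).coeff i = Q.coeff i - if i = n then t else 0 := by
  rw [pen, coeff_sub, coeff_C_mul, coeff_X_pow]
  split_ifs <;> simp

lemma pen_eval (Q : ℂ[X]) (n : ℕ) (t z : ℂ) : (pen Q n t).eval z = Q.eval z - t * z ^ n := by
  simp [pen]

variable {Q : ℂ[X]} {n : ℕ}

lemma SI.natDegree_pen (h : SI Q n) (t : ℂ) : (pen Q n t).natDegree = 2 * n := by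
  have hn := h.npos
  rw [pen, natDegree_sub_eq_left_of_natDegree_lt, h.deg]
  refine lt_of_le_of_lt (natDegree_C_mul_X_pow_le t n) ?_
  rw [h.deg]
  omega

lemma SI.norm_lead (h : SI Q n) : ‖Q.coeff (2 * n)‖ = 1 := by
  have := h.sym 0 (by omega)
  rw [Nat.sub_zero] at this
  rw [this, RCLike.norm_conj, h.one]

lemma SI.norm_lead_pen (h : SI Q n) (t : ℂ) : ‖(pen Q n t).leadingCoeff‖ = 1 := by
  have hn := h.npos
  rw [leadingCoeff, h.natDegree_pen t, pen_coeff, if_neg (by omega), sub_zero, h.norm_lead]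

lemma SI.pen_ne_zero (h : SI Q n) (t : ℂ) : pen Q n t ≠ 0 := by
  intro h0
  have := h.norm_lead_pen t
  rw [h0] at this
  simp at this

lemma SI.one_le (h : SI Q n) (t : ℂ) : 1 ≤ (pen Q n t).mahlerMeasure := by
  have := leadingCoeff_le_mahlerMeasure (pen Q n t)
  rwa [h.norm_lead_pen t] at this

/-- the values of `Q / z ^ n` on the unit circle are real -/
lemma SI.real (h : SI Q n) {z : ℂ} (hz : ‖z‖ = 1) : ∃ x : ℝ, Q.eval z = x * z ^ n := by
  have hz0 : z ≠ 0 := by
    rintro rfl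
    simp at hz
  have hzz : z * starRingEnd ℂ z = 1 := by
    rw [Complex.mul_conj, Complex.normSq_eq_norm_sq, hz]
    norm_num
  have h1 : z ^ (2 * n) * starRingEnd ℂ (Q.eval z) = Q.eval z := by
    rw [eval_eq_sum_range, h.deg, map_sum, Finset.mul_sum]
    rw [← Finset.sum_range_reflect (fun i => Q.coeff i * z ^ i)]
    apply Finset.sum_congr rfl
    intro i hi
    have hi' : i ≤ 2 * n := by
      have := Finset.mem_range.1 hi
      omega
    rw [map_mul, map_pow, show 2 * n + 1 - 1 - i = 2 * n - i by omega, h.sym i hi']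
    have h2 : z ^ (2 * n) = z ^ (2 * n - i) * z ^ i := by
      rw [← pow_add]
      congr 1
      omega
    rw [h2]
    have h3 : z ^ i * starRingEnd ℂ z ^ i = 1 := by rw [← mul_pow, hzz, one_pow]
    linear_combination (z ^ (2 * n - i) * starRingEnd ℂ (Q.coeff i)) * h3
  refine ⟨(Q.eval z / z ^ n).re, ?_⟩
  have h2 : starRingEnd ℂ (Q.eval z / z ^ n) = Q.eval z / z ^ n := by
    rw [map_div₀, map_pow]
    have h3 : starRingEnd ℂ z = z⁻¹ := by
      field_simp
      rw [mul_comm]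
      exact hzz
    rw [h3]
    have h4 : starRingEnd ℂ (Q.eval z) = Q.eval z / z ^ (2 * n) := by
      rw [eq_div_iff (pow_ne_zero _ hz0), mul_comm]
      exact h1
    rw [h4, inv_pow, div_inv_eq_mul, two_mul, pow_add]
    have := pow_ne_zero n hz0
    field_simp
  have h3 : (((Q.eval z / z ^ n).re : ℝ) : ℂ) = Q.eval z / z ^ n := Complex.conj_eq_iff_re.1 h2
  rw [h3]
  field_simp

lemma SI.no_zero (h : SI Q n) {t : ℂ} (ht : t.im ≠ 0) (z : ℂ) (hz : ‖z‖ = 1) :
    (pen Q n t).eval z ≠ 0 := by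
  obtain ⟨x, hx⟩ := h.real hz
  have hz0 : z ≠ 0 := by
    rintro rfl
    simp at hz
  rw [pen_eval, hx, ← sub_mul]
  apply mul_ne_zero _ (pow_ne_zero _ hz0)
  intro h1
  apply ht
  have := congrArg Complex.im h1
  simpa using this

lemma SI.norm_conj (h : SI Q n) (t : ℂ) (z : ℂ) (hz : ‖z‖ = 1) :
    ‖(pen Q n (starRingEnd ℂ t)).eval z‖ = ‖(pen Q n t).eval z‖ := by
  obtain ⟨x, hx⟩ := h.real hz
  rw [pen_eval, pen_eval, hx, ← sub_mul, ← sub_mul, norm_mul, norm_mul]
  congr 1
  rw [← RCLike.norm_conj, map_sub]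
  simp

/-- **nonreal points have a Mahler measure bounded from below** -/
theorem SI.im_le (h : SI Q n) (t : ℂ) :
    |t.im| ≤ (pen Q n t).mahlerMeasure - (pen Q n t).mahlerMeasure⁻¹ := by
  set M := (pen Q n t).mahlerMeasure with hM
  have hM1 : 1 ≤ M := h.one_le t
  rcases eq_or_ne t.im 0 with ht | ht
  · rw [ht, abs_zero, sub_nonneg]
    exact (inv_le_one_of_one_le₀ hM1).trans hM1
  obtain ⟨e, h1, h2, h3, h4⟩ := outer (pen Q n t) (h.norm_lead_pen t) (h.no_zero ht)
    (L := 1) one_pos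
  have e0 : e 0 = ((M⁻¹ : ℝ) : ℂ) := by
    rw [h2, Nat.cast_one, div_one, Real.exp_neg, Real.exp_log (by linarith)]
  have hn := h.npos
  set c0 := starRingEnd ℂ (Q.coeff 0) with hc0
  have hcc : c0 * Q.coeff 0 = 1 := by
    rw [hc0, mul_comm, Complex.mul_conj, Complex.normSq_eq_norm_sq, h.one]
    norm_num
  have hc0n : ‖c0‖ = 1 := by rw [hc0, RCLike.norm_conj, h.one]
  -- the two bounded functions
  have key : ∀ s : ℂ, (∀ z ∈ sphere (0 : ℂ) 1, ‖(pen Q n s).eval z‖ = ‖(pen Q n t).eval z‖) →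
      DifferentiableOn ℂ (fun z => c0 * (pen Q n s).eval z * e z) (closedBall 0 1) ∧
      ‖cf n (fun z => c0 * (pen Q n s).eval z * e z)‖ ≤ 1 - (M⁻¹) ^ 2 := by
    intro s hs
    have hd : DifferentiableOn ℂ (fun z => c0 * (pen Q n s).eval z * e z) (closedBall 0 1) :=
      ((differentiableOn_const _).mul (pen Q n s).differentiable.differentiableOn).mul h1
    refine ⟨hd, ?_⟩
    have := sp (M := 1) (c := M⁻¹) one_pos hd one_pos ?_ ?_ (by positivity) hn
    · simpa using this
    · intro z hz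
      have h5 := h4 z hz
      rw [pow_one] at h5
      rw [norm_mul, norm_mul, hc0n, one_mul, hs z hz, h5]
    · rw [e0, ← coeff_zero_eq_eval_zero, pen_coeff, if_neg (by omega), sub_zero, hcc, one_mul]
  obtain ⟨d1, b1⟩ := key t fun _ _ => rfl
  obtain ⟨d2, b2⟩ := key (starRingEnd ℂ t) fun z hz => h.norm_conj t z (by simpa using hz)
  have hdiff : cf n (fun z => c0 * (pen Q n (starRingEnd ℂ t)).eval z * e z) -
      cf n (fun z => c0 * (pen Q n t).eval z * e z) = c0 * (t - starRingEnd ℂ t) * e 0 := by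
    have hcont : ∀ F : ℂ → ℂ, DifferentiableOn ℂ F (closedBall 0 1) →
        CircleIntegrable (fun z => F z / z ^ n) 0 1 := by
      intro F hF
      apply ContinuousOn.circleIntegrable zero_le_one
      apply ((hF.mono sphere_subset_closedBall).continuousOn).div (continuousOn_id.pow n)
      intro z hz
      exact pow_ne_zero _ (sphere_ne_zero one_pos hz)
    rw [← avg_div_pow one_pos d2, ← avg_div_pow one_pos d1,
      ← circleAverage_fun_sub (hcont _ d2) (hcont _ d1)]
    have hd3 : DifferentiableOn ℂ (fun z => c0 * (t - starRingEnd ℂ t) * e z) (closedBall 0 1) :=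
      (differentiableOn_const _).mul h1
    rw [← avg_self one_pos hd3]
    apply circleAverage_congr_sphere
    intro z hz
    rw [abs_one] at hz
    have hz0 := sphere_ne_zero one_pos hz
    simp only [pen_eval]
    field_simp
    ring
  have h6 : ‖c0 * (t - starRingEnd ℂ t) * e 0‖ ≤ 2 * (1 - (M⁻¹) ^ 2) := by
    rw [← hdiff]
    calc _ ≤ _ := norm_sub_le _ _
      _ ≤ _ := by linarith
  rw [norm_mul, norm_mul, hc0n, one_mul, e0, Complex.norm_real, Real.norm_of_nonneg (by positivity)]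
    at h6
  have h7 : t - starRingEnd ℂ t = ((2 * t.im : ℝ) : ℂ) * Complex.I := by
    apply Complex.ext <;> simp
    ring
  rw [h7, norm_mul, Complex.norm_real, Complex.norm_I, mul_one, Real.norm_eq_abs, abs_mul,
    abs_two] at h6
  have hMp : 0 < M := by linarith
  have h8 : |t.im| * M⁻¹ ≤ 1 - M⁻¹ ^ 2 := by linarith
  have h9 := mul_le_mul_of_nonneg_right h8 hMp.le
  have e5 : |t.im| * M⁻¹ * M = |t.im| := by field_simp
  have e6 : (1 - M⁻¹ ^ 2) * M = M - M⁻¹ := by field_simp
  rw [e5, e6] at h9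
  exact h9

end Pool.Agent.Run7.h80.Sym
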