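import Mathlib
import Pool.Agent.Run7.h80.Sym.Self

/-!
# Chebyshev nodes
-/

set_option autoImplicit false

open Real Metric Polynomial

namespace Pool.Agent.Run7.h80.Sym

lemma jouk (w : ℂ) : ∃ ζ : ℂ, 1 ≤ ‖ζ‖ ∧ ζ + ζ⁻¹ = w := by
  obtain ⟨s, hs⟩ := IsAlgClosed.exists_pow_nat_eq (w ^ 2 - 4) (n := 2) two_pos
  set a : ℂ := (w + s) / 2 with ha
  set b : ℂ := (w - s) / 2 with hb
  have hab : a * b = 1 := by
    rw [ha, hb]
    linear_combination (-1 / 4 : ℂ) * hs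
  have hsum : a + b = w := by rw [ha, hb]; ring
  have hn : ‖a‖ * ‖b‖ = 1 := by rw [← norm_mul, hab, norm_one]
  rcases le_or_gt 1 ‖a‖ with h | h
  · refine ⟨a, h, ?_⟩
    rw [← eq_inv_of_mul_eq_one_right hab, hsum]
  · have hb1 : 1 ≤ ‖b‖ := by
      by_contra hcon
      push Not at hcon
      have : ‖a‖ * ‖b‖ < 1 := by
        calc ‖a‖ * ‖b‖ ≤ ‖a‖ * 1 := by gcongr
          _ < 1 := by linarith
      linarith
    refine ⟨b, hb1, ?_⟩
    rw [← eq_inv_of_mul_eq_one_right (by rw [mul_comm]; exact hab : b * a = 1), add_comm, hsum]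

lemma jouk_real {ζ : ℂ} (hζ : ζ ≠ 0) {x : ℝ} (h : ζ + ζ⁻¹ = x) (L : ℕ) :
    (ζ ^ L + (ζ⁻¹) ^ L).im = 0 := by
  have h1 : starRingEnd ℂ ζ + (starRingEnd ℂ ζ)⁻¹ = x := by
    have := congrArg (starRingEnd ℂ) h
    simpa using this
  set ω := starRingEnd ℂ ζ with hω
  have hω0 : ω ≠ 0 := by
    rw [hω]
    simpa using hζ
  have h2 : (ω - ζ) * (ω * ζ - 1) = 0 := by
    have h3 : ω + ω⁻¹ = ζ + ζ⁻¹ := by rw [h1, h]
    field_simp at h3
    linear_combination h3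
  rw [← Complex.conj_eq_iff_im, map_add, map_pow, map_pow, map_inv₀, ← hω]
  rcases mul_eq_zero.1 h2 with h3 | h3
  · rw [sub_eq_zero.1 h3]
  · have h4 : ω = ζ⁻¹ := by
      field_simp
      linear_combination h3
    rw [h4, inv_inv, add_comm]

/-- the roots of `X ^ L = 2 i` -/
noncomputable def nodes (L : ℕ) : Multiset ℂ := (X ^ L - C (2 * Complex.I) : ℂ[X]).roots

lemma nodes_card (L : ℕ) : Multiset.card (nodes L) = L := by
  rw [nodes, ← (IsAlgClosed.splits (X ^ L - C (2 * Complex.I) : ℂ[X])).natDegree_eq_card_roots]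
  exact natDegree_X_pow_sub_C

lemma nodes_pow {L : ℕ} {ξ : ℂ} (h : ξ ∈ nodes L) : ξ ^ L = 2 * Complex.I := by
  have h1 := (mem_roots'.1 h).2
  rw [IsRoot, eval_sub, eval_pow, eval_X, eval_C] at h1
  exact sub_eq_zero.1 h1

lemma nodes_prod {L : ℕ} (hL : 0 < L) (v : ℂ) :
    ((nodes L).map fun ξ => v - ξ).prod = v ^ L - 2 * Complex.I := by
  have h1 : (X ^ L - C (2 * Complex.I) : ℂ[X]).Monic := monic_X_pow_sub_C _ hL.ne'
  have h2 := (IsAlgClosed.splits (X ^ L - C (2 * Complex.I) : ℂ[X])).eq_prod_roots_of_monic h1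
  have h3 := congrArg (eval v) h2
  rw [eval_sub, eval_pow, eval_X, eval_C, eval_multiset_prod, Multiset.map_map] at h3
  rw [h3, nodes]
  congr 1
  apply Multiset.map_congr rfl
  intro ξ _
  simp

lemma node_ne_zero {L : ℕ} (hL : 0 < L) {ξ : ℂ} (h : ξ ∈ nodes L) : ξ ≠ 0 := by
  rintro rfl
  have := nodes_pow h
  rw [zero_pow hL.ne'] at this
  have h2 : (2 * Complex.I : ℂ) ≠ 0 := by simp
  exact h2 this.symm

/-- the point of the pencil attached to a node -/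
noncomputable def pt (m r : ℝ) (ξ : ℂ) : ℂ := m + r * (ξ + ξ⁻¹)

/-- the product of the pencil over the nodes -/
noncomputable def WW (Q : ℂ[X]) (n : ℕ) (m r : ℝ) (L : ℕ) : ℂ[X] :=
  ((nodes L).map fun ξ => pen Q n (pt m r ξ)).prod

lemma WW_eval (Q : ℂ[X]) (n : ℕ) (m r : ℝ) {L : ℕ} (hL : 0 < L) {z ζ : ℂ} (hζ : ζ ≠ 0)
    (h : Q.eval z = (m + r * (ζ + ζ⁻¹)) * z ^ n) : (WW Q n m r L).eval z =
    (r * z ^ n) ^ L * (ζ ^ L + (ζ⁻¹) ^ L - 3 / 2 * Complex.I) := by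
  have h1 : (WW Q n m r L).eval z =
      ((nodes L).map fun ξ => (r * z ^ n) * ((ζ - ξ) * ((ζ⁻¹ - ξ) / (0 - ξ)))).prod := by
    rw [WW, eval_multiset_prod, Multiset.map_map]
    congr 1
    apply Multiset.map_congr rfl
    intro ξ hξ
    have hξ0 := node_ne_zero hL hξ
    rw [Function.comp_apply, pen_eval, h, pt]
    field_simp
    ring
  have h2 : ∀ (T : Multiset ℂ) (k : ℂ), (T.map fun ξ => k * ((ζ - ξ) * ((ζ⁻¹ - ξ) / (0 - ξ)))).prod =
      k ^ Multiset.card T * ((T.map fun ξ => ζ - ξ).prod *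
        ((T.map fun ξ => ζ⁻¹ - ξ).prod / (T.map fun ξ => 0 - ξ).prod)) := by
    intro T k
    induction T using Multiset.induction_on with
    | empty => simp
    | cons a T ih =>
      rw [Multiset.map_cons, Multiset.prod_cons, ih, Multiset.map_cons, Multiset.prod_cons,
        Multiset.map_cons, Multiset.prod_cons, Multiset.map_cons, Multiset.prod_cons,
        Multiset.card_cons, pow_succ, mul_div_mul_comm]
      ring
  rw [h1, h2, nodes_prod hL, nodes_prod hL, nodes_prod hL, nodes_card, zero_pow hL.ne']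
  congr 1
  have hI := Complex.I_sq
  have hI0 := Complex.I_ne_zero
  have h2 : ζ ^ L * (ζ⁻¹) ^ L = 1 := by rw [← mul_pow, mul_inv_cancel₀ hζ, one_pow]
  set A := ζ ^ L with hA
  set B := (ζ⁻¹) ^ L with hB
  field_simp
  linear_combination 2 * h2 + 2 * hI

end Pool.Agent.Run7.h80.Sym
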