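import Mathlib
import Pool.Agent.Run7.h80.Sym.Self

/-!
# Semicontinuity of the Mahler measure along a pencil
-/

set_option autoImplicit false

open Real Metric Polynomial Filter Topology

namespace Pool.Agent.Run7.h80.Sym

lemma mahler_le_of_le {f g : ℂ[X]} {K : ℝ} (hK : 0 < K) (hf : ∀ z : ℂ, ‖z‖ = 1 → f.eval z ≠ 0)
    (h : ∀ z : ℂ, ‖z‖ = 1 → ‖f.eval z‖ ≤ K * ‖g.eval z‖) :
    f.mahlerMeasure ≤ K * g.mahlerMeasure := by
  have hg : ∀ z : ℂ, ‖z‖ = 1 → g.eval z ≠ 0 := by
    intro z hz h0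
    have := h z hz
    rw [h0, norm_zero, mul_zero] at this
    exact hf z hz (norm_le_zero_iff.1 this)
  have hf0 : f ≠ 0 := by
    rintro rfl
    exact hf 1 (by simp) (by simp)
  have hg0 : g ≠ 0 := by
    rintro rfl
    exact hg 1 (by simp) (by simp)
  have hint : ∀ p : ℂ[X], (∀ z : ℂ, ‖z‖ = 1 → p.eval z ≠ 0) →
      CircleIntegrable (fun z => Real.log ‖p.eval z‖) 0 1 := by
    intro p hp
    apply ContinuousOn.circleIntegrable zero_le_one
    apply ContinuousOn.log
    · exact p.continuous.norm.continuousOn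
    · intro z hz
      exact norm_ne_zero_iff.2 (hp z (by simpa using hz))
  have h1 : f.logMahlerMeasure ≤ Real.log K + g.logMahlerMeasure := by
    rw [logMahlerMeasure_def, logMahlerMeasure_def]
    have h2 : circleAverage (fun z => Real.log K + Real.log ‖g.eval z‖) 0 1 =
        Real.log K + circleAverage (fun z => Real.log ‖g.eval z‖) 0 1 := by
      rw [circleAverage_fun_add (circleIntegrable_const _ _ _) (hint g hg), circleAverage_const]
    rw [← h2]
    apply circleAverage_mono (hint f hf)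
    · exact (circleIntegrable_const _ _ _).add (hint g hg)
    · intro z hz
      have hz1 : ‖z‖ = 1 := by simpa using hz
      rw [← Real.log_mul hK.ne' (norm_ne_zero_iff.2 (hg z hz1))]
      exact Real.log_le_log (norm_pos_iff.2 (hf z hz1)) (h z hz1)
  rw [logMahlerMeasure_eq_log_MahlerMeasure, logMahlerMeasure_eq_log_MahlerMeasure,
    ← Real.log_mul hK.ne' (mahlerMeasure_pos_of_ne_zero hg0).ne'] at h1
  exact (Real.log_le_log_iff (mahlerMeasure_pos_of_ne_zero hf0)
    (mul_pos hK (mahlerMeasure_pos_of_ne_zero hg0))).1 h1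

/-- dilation -/
lemma mahler_dil (W : ℂ[X]) {R : ℝ} (hR : 0 < R) : (W.comp (C (R : ℂ) * X)).mahlerMeasure =
    ‖W.leadingCoeff‖ * (W.roots.map fun w => max R ‖w‖).prod := by
  conv_lhs => rw [(IsAlgClosed.splits W).eq_prod_roots]
  rw [mul_comp, C_comp, mahlerMeasure_mul, mahlerMeasure_const]
  congr 1
  generalize W.roots = T
  induction T using Multiset.induction_on with
  | empty => simp
  | cons a T ih =>
    rw [Multiset.map_cons, Multiset.prod_cons, mul_comp, mahlerMeasure_mul, ih, Multiset.map_cons,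
      Multiset.prod_cons]
    congr 1
    have : (X - C a : ℂ[X]).comp (C (R : ℂ) * X) = C (R : ℂ) * X + C (-a) := by
      rw [sub_comp, X_comp, C_comp, C_neg]
      ring
    rw [this, mahlerMeasure_C_mul_X_add_C (by exact_mod_cast hR.ne'), Complex.norm_real,
      Real.norm_of_nonneg hR.le, norm_neg]

lemma dil_cont (W : ℂ[X]) : Continuous fun R : ℝ =>
    ‖W.leadingCoeff‖ * (W.roots.map fun w => max R ‖w‖).prod := by
  apply continuous_const.mul
  generalize W.roots = T
  induction T using Multiset.induction_on with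
  | empty => simpa using continuous_const
  | cons a T ih =>
    simp only [Multiset.map_cons, Multiset.prod_cons]
    exact (continuous_id.max continuous_const).mul ih

lemma dil_mono (W : ℂ[X]) {R : ℝ} (hR : 1 ≤ R) :
    W.mahlerMeasure ≤ ‖W.leadingCoeff‖ * (W.roots.map fun w => max R ‖w‖).prod := by
  rw [mahlerMeasure_eq_leadingCoeff_mul_prod_roots]
  apply mul_le_mul_of_nonneg_left _ (norm_nonneg _)
  generalize W.roots = T
  induction T using Multiset.induction_on with
  | empty => simp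
  | cons a T ih =>
    rw [Multiset.map_cons, Multiset.prod_cons, Multiset.map_cons, Multiset.prod_cons]
    have h0 : 0 ≤ (T.map fun w => max 1 ‖w‖).prod :=
      Multiset.prod_nonneg fun x hx => by
        obtain ⟨y, _, rfl⟩ := Multiset.mem_map.1 hx
        positivity
    exact mul_le_mul (max_le_max_right _ hR) ih h0 (by positivity)

/-- **The sublevel sets are open.** -/
theorem isOpen_sublevel {Q : ℂ[X]} {n : ℕ} (h : SI Q n) (K : ℝ) :
    IsOpen {y : ℂ | (pen Q n y).mahlerMeasure < K} := by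
  rw [Metric.isOpen_iff]
  intro y₀ hy₀
  rw [Set.mem_ofPred_eq] at hy₀
  set W := pen Q n y₀ with hW
  set φ : ℝ → ℝ := fun R => ‖W.leadingCoeff‖ * (W.roots.map fun w => max R ‖w‖).prod with hφ
  have hφ1 : φ 1 < K := by
    rw [hφ]
    simp only
    rw [← mahlerMeasure_eq_leadingCoeff_mul_prod_roots]
    exact hy₀
  have hev : ∀ᶠ R in 𝓝[>] (1 : ℝ), φ R < K ∧ ∀ w ∈ W.roots, ‖w‖ ≠ R := by
    apply Filter.Eventually.and
    · exact ((dil_cont W).continuousAt.tendsto.mono_left nhdsWithin_le_nhds).eventually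
        (gt_mem_nhds hφ1) |>.mono fun _ h => h
    · have : ∀ w : ℂ, ∀ᶠ R in 𝓝[>] (1 : ℝ), ‖w‖ ≠ R := by
        intro w
        rcases eq_or_ne ‖w‖ 1 with hw | hw
        · filter_upwards [self_mem_nhdsWithin] with R hR
          rw [hw]
          exact (ne_of_gt hR).symm
        · exact nhdsWithin_le_nhds ((eventually_ne_nhds hw.symm).mono fun R hR => hR.symm)
      have h2 : ∀ᶠ R in 𝓝[>] (1 : ℝ), ∀ w ∈ W.roots.toFinset, ‖w‖ ≠ R :=
        (Filter.eventually_all_finset _).2 fun w _ => this w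
      exact h2.mono fun R hR w hw => hR w (Multiset.mem_toFinset.2 hw)
  obtain ⟨R, ⟨hR1, hR2⟩, hR3⟩ := (hev.and self_mem_nhdsWithin).exists
  have hR3' : 1 < R := hR3
  have hR0 : 0 < R := by linarith
  have hφp : 0 < φ R := by
    have h1 := dil_mono W hR3'.le
    have h2 := h.one_le y₀
    calc (0 : ℝ) < 1 := one_pos
      _ ≤ _ := h2
      _ ≤ _ := h1
  set g := W.comp (C (R : ℂ) * X) with hg
  have hgev : ∀ z : ℂ, g.eval z = W.eval (R * z) := by
    intro z
    rw [hg, eval_comp]
    simp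
  have hgne : ∀ z : ℂ, ‖z‖ = 1 → g.eval z ≠ 0 := by
    intro z hz h0
    rw [hgev] at h0
    apply hR2 (R * z) (mem_roots'.2 ⟨h.pen_ne_zero y₀, h0⟩)
    rw [norm_mul, hz, mul_one, Complex.norm_real, Real.norm_of_nonneg hR0.le]
  obtain ⟨z₀, hz₀, hmin⟩ := (isCompact_sphere (0 : ℂ) 1).exists_isMinOn
    ⟨1, by simp⟩ (g.continuous.norm.continuousOn)
  have hδ : 0 < ‖g.eval z₀‖ := norm_pos_iff.2 (hgne z₀ (by simpa using hz₀))
  set δ := ‖g.eval z₀‖ with hδdef
  obtain ⟨η, hη0, hη1, hη2⟩ : ∃ η : ℝ, 0 < η ∧ η < 1 ∧ (1 + η) * φ R < K := by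
    refine ⟨min (1 / 2) ((K - φ R) / (2 * φ R)), ?_, ?_, ?_⟩
    · have : 0 < K - φ R := by linarith
      positivity
    · exact lt_of_le_of_lt (min_le_left _ _) (by norm_num)
    · have h1 : min (1 / 2) ((K - φ R) / (2 * φ R)) ≤ (K - φ R) / (2 * φ R) := min_le_right _ _
      have h2 : (K - φ R) / (2 * φ R) * φ R = (K - φ R) / 2 := by
        field_simp
      have h3 := mul_le_mul_of_nonneg_right h1 hφp.le
      rw [h2] at h3
      nlinarith
  refine ⟨η * δ / R ^ n, by positivity, ?_⟩
  intro y hy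
  rw [Set.mem_ofPred_eq]
  rw [mem_ball, dist_eq_norm, lt_div_iff₀ (by positivity)] at hy
  set f := (pen Q n y).comp (C (R : ℂ) * X) with hf
  have hdiff : ∀ z : ℂ, ‖z‖ = 1 → ‖f.eval z - g.eval z‖ ≤ η * δ := by
    intro z hz
    have : f.eval z - g.eval z = -((y - y₀) * (R * z) ^ n) := by
      rw [hf, hgev, eval_comp, hW, pen_eval, pen_eval]
      simp
      ring
    rw [this, norm_neg, norm_mul, norm_pow, norm_mul, hz, mul_one, Complex.norm_real,
      Real.norm_of_nonneg hR0.le]
    exact hy.le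
  have hδz : ∀ z : ℂ, ‖z‖ = 1 → δ ≤ ‖g.eval z‖ := fun z hz => hmin (by simpa using hz)
  have h1 : f.mahlerMeasure ≤ (1 + η) * g.mahlerMeasure := by
    apply mahler_le_of_le (by positivity)
    · intro z hz h0
      have h2 := hdiff z hz
      rw [h0, zero_sub, norm_neg] at h2
      have h3 := hδz z hz
      have h4 : η * δ < δ := by nlinarith
      linarith
    · intro z hz
      have h2 := hdiff z hz
      have h3 := hδz z hz
      have h4 := norm_sub_norm_le (f.eval z) (g.eval z)
      nlinarith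
  have h2 : (pen Q n y).mahlerMeasure ≤ f.mahlerMeasure := by
    rw [hf, mahler_dil _ hR0]
    exact dil_mono _ hR3'.le
  have h3 : g.mahlerMeasure = φ R := by rw [hg, mahler_dil _ hR0]
  rw [h3] at h1
  linarith

end Pool.Agent.Run7.h80.Sym
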