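import Mathlib
import Pool.Agent.Run7.h80.Sym.Open
import Pool.Agent.Run7.h80.Sym.Jouk

/-!
# The averaged outer function
-/

set_option autoImplicit false

open Real Metric Polynomial Filter Topology

namespace Pool.Agent.Run7.h80.Sym

variable {Q : ℂ[X]} {n : ℕ}

lemma node_close {L : ℕ} (hL : 0 < L) {ξ : ℂ} (hξ : ξ ∈ nodes L) (m : ℝ) {r : ℝ} (hr : 0 < r) :
    ∃ x : ℝ, |x - m| ≤ 2 * r ∧ ‖pt m r ξ - x‖ ≤ 2 * r / L := by
  have h1 := nodes_pow hξ
  have h2 : ‖ξ‖ ^ L = 2 := by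
    rw [← norm_pow, h1]
    simp
  set τ := ‖ξ‖ with hτ
  have hL0 : (0 : ℝ) < L := by exact_mod_cast hL
  have hτ1 : 1 ≤ τ := by
    by_contra hcon
    push Not at hcon
    have := pow_le_one₀ (n := L) (norm_nonneg ξ) hcon.le
    rw [← hτ, h2] at this
    linarith
  have hτ2 : τ - 1 ≤ 1 / L := by
    have h3 := one_add_mul_le_pow (a := τ - 1) (by linarith) L
    rw [show 1 + (τ - 1) = τ by ring, h2] at h3
    rw [le_div_iff₀ hL0]
    linarith
  have hτ0 : (τ : ℂ) ≠ 0 := by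
    have : τ ≠ 0 := by linarith
    exact_mod_cast this
  set ω : ℂ := ξ / τ with hω
  have hωn : ‖ω‖ = 1 := by
    rw [hω, norm_div, Complex.norm_real, Real.norm_of_nonneg (by linarith), ← hτ,
      div_self (by linarith)]
  have hω0 : ω ≠ 0 := by
    intro h
    rw [h] at hωn
    simp at hωn
  have hωi : ω⁻¹ = starRingEnd ℂ ω := by
    have : ω * starRingEnd ℂ ω = 1 := by
      rw [Complex.mul_conj, Complex.normSq_eq_norm_sq, hωn]
      norm_num
    field_simp
    exact this.symm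
  have hξω : ξ = τ * ω := by
    rw [hω]
    field_simp
  refine ⟨m + r * (2 * ω.re), ?_, ?_⟩
  · have h3 := Complex.abs_re_le_norm ω
    rw [hωn] at h3
    rw [show m + r * (2 * ω.re) - m = 2 * r * ω.re by ring, abs_mul, abs_of_pos (by positivity)]
    nlinarith
  · have h3 : pt m r ξ - ((m + r * (2 * ω.re) : ℝ) : ℂ) =
        r * ((τ - 1) * ω) - r * ((1 - (τ : ℂ)⁻¹) * ω⁻¹) := by
      have h4 : ((2 * ω.re : ℝ) : ℂ) = ω + ω⁻¹ := by
        rw [hωi, Complex.add_conj]
      have h5 : ((m + r * (2 * ω.re) : ℝ) : ℂ) = m + r * (ω + ω⁻¹) := by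
        rw [← h4]
        push_cast
        ring
      rw [h5, pt, hξω, mul_inv]
      ring
    rw [h3]
    have h6 : ‖(r : ℂ) * ((τ - 1) * ω)‖ = r * (τ - 1) := by
      rw [norm_mul, norm_mul, hωn, mul_one, Complex.norm_real, Real.norm_of_nonneg hr.le]
      congr 1
      rw [show (τ : ℂ) - 1 = ((τ - 1 : ℝ) : ℂ) by push_cast; ring, Complex.norm_real,
        Real.norm_of_nonneg (by linarith)]
    have h7 : ‖(r : ℂ) * ((1 - (τ : ℂ)⁻¹) * ω⁻¹)‖ = r * (1 - τ⁻¹) := by
      rw [norm_mul, norm_mul, norm_inv, hωn, inv_one, mul_one, Complex.norm_real,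
        Real.norm_of_nonneg hr.le]
      congr 1
      rw [show (1 : ℂ) - (τ : ℂ)⁻¹ = ((1 - τ⁻¹ : ℝ) : ℂ) by push_cast; ring, Complex.norm_real,
        Real.norm_of_nonneg (by
          have := inv_le_one_of_one_le₀ hτ1
          linarith)]
    have h8 : 1 - τ⁻¹ ≤ τ - 1 := by
      have : 0 < τ := by linarith
      have h9 : τ * τ⁻¹ = 1 := mul_inv_cancel₀ this.ne'
      nlinarith [inv_pos.2 this]
    calc _ ≤ ‖(r : ℂ) * ((τ - 1) * ω)‖ + ‖(r : ℂ) * ((1 - (τ : ℂ)⁻¹) * ω⁻¹)‖ := norm_sub_le _ _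
      _ = r * (τ - 1) + r * (1 - τ⁻¹) := by rw [h6, h7]
      _ ≤ r * (1 / L) + r * (1 / L) := by
        gcongr
        linarith
      _ = 2 * r / L := by ring

lemma SI.norm_lead_WW (h : SI Q n) (m r : ℝ) (L : ℕ) : ‖(WW Q n m r L).leadingCoeff‖ = 1 := by
  rw [WW, leadingCoeff_multiset_prod, Multiset.map_map]
  generalize nodes L = T
  induction T using Multiset.induction_on with
  | empty => simp
  | cons a T ih =>
    rw [Multiset.map_cons, Multiset.prod_cons, norm_mul, ih, Function.comp_apply,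
      h.norm_lead_pen, one_mul]

lemma SI.mahler_WW_le (h : SI Q n) (m r : ℝ) (L : ℕ) {K : ℝ}
    (hK : ∀ ξ ∈ nodes L, (pen Q n (pt m r ξ)).mahlerMeasure ≤ K) :
    (WW Q n m r L).mahlerMeasure ≤ K ^ L := by
  rw [WW, prod_mahlerMeasure_eq_mahlerMeasure_prod, Multiset.map_map]
  have : ∀ T : Multiset ℂ, (∀ ξ ∈ T, (pen Q n (pt m r ξ)).mahlerMeasure ≤ K) →
      (T.map (mahlerMeasure ∘ fun ξ => pen Q n (pt m r ξ))).prod ≤ K ^ Multiset.card T := by
    intro T hT
    induction T using Multiset.induction_on with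
    | empty => simp
    | cons a T ih =>
      rw [Multiset.map_cons, Multiset.prod_cons, Multiset.card_cons, pow_succ, mul_comm]
      have h1 := h.one_le (pt m r a)
      have h2 := hT a (Multiset.mem_cons_self a T)
      have h3 := ih fun ξ hξ => hT ξ (Multiset.mem_cons_of_mem hξ)
      have h4 : 0 ≤ (T.map (mahlerMeasure ∘ fun ξ => pen Q n (pt m r ξ))).prod :=
        Multiset.prod_nonneg fun x hx => by
          obtain ⟨y, _, rfl⟩ := Multiset.mem_map.1 hx
          exact mahlerMeasure_nonneg _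
      exact mul_le_mul h3 h2 (mahlerMeasure_nonneg _) (by
        have : (0 : ℝ) ≤ K := by linarith
        positivity)
  have h1 := this (nodes L) hK
  rwa [nodes_card] at h1

lemma le_one_add_of_pow_le_two {L : ℕ} (hL : 0 < L) {A : ℝ} (h : A ^ L ≤ 2) :
    A ≤ 1 + 1 / L := by
  have hL0 : (0 : ℝ) < L := by exact_mod_cast hL
  have h1 := one_add_mul_le_pow (a := (1 : ℝ) / L) (by
    have : (0 : ℝ) ≤ 1 / L := by positivity
    linarith) L
  have h2 : (L : ℝ) * (1 / L) = 1 := by field_simp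
  rw [h2] at h1
  by_contra hcon
  push Not at hcon
  have h3 := pow_lt_pow_left₀ hcon (by positivity) hL.ne'
  linarith

theorem SI.exists_e (h : SI Q n) (m : ℝ) {r K η : ℝ} (hr : 0 < r) (hη : 0 < η)
    (hK : ∀ x : ℝ, |x - m| ≤ 2 * r → (pen Q n x).mahlerMeasure < K) :
    ∃ (e : ℂ → ℂ) (e0 : ℝ), DifferentiableOn ℂ e (closedBall 0 1) ∧ e 0 = e0 ∧ K⁻¹ ≤ e0 ∧
      e0 ≤ 1 ∧ (∀ z ∈ closedBall (0 : ℂ) 1, r * ‖e z‖ ≤ 1) ∧
      ∀ z ∈ closedBall (0 : ℂ) 1, ‖z‖ ^ n ≤ 1 / 15 →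
        ‖(pen Q n m).eval z‖ * ‖e z‖ ≤ (1 + η) * (1 + (1 / 15) ^ 2) := by
  have hn := h.npos
  have hK1 : 1 < K := lt_of_le_of_lt (h.one_le m) (hK m (by simp; positivity))
  have hcomp : IsCompact ((fun x : ℝ => (x : ℂ)) '' Set.Icc (m - 2 * r) (m + 2 * r)) :=
    isCompact_Icc.image Complex.continuous_ofReal
  obtain ⟨δ, hδ, hthick⟩ := hcomp.exists_thickening_subset_open (isOpen_sublevel h K) (by
    rintro _ ⟨x, hx, rfl⟩
    apply hK x
    rw [abs_le]
    constructor <;> linarith [hx.1, hx.2])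
  obtain ⟨L, hL0, hL1, hL2⟩ : ∃ L : ℕ, 0 < L ∧ 2 * r / L < δ ∧ (1 : ℝ) / L ≤ η := by
    obtain ⟨L, hL⟩ := exists_nat_gt (max (2 * r / δ) (1 / η))
    have h1 := lt_of_le_of_lt (le_max_left _ _) hL
    have h2 := lt_of_le_of_lt (le_max_right _ _) hL
    have h3 : (0 : ℝ) < L := lt_trans (by positivity) h1
    refine ⟨L, by exact_mod_cast h3, ?_, ?_⟩
    · rw [div_lt_iff₀ hδ] at h1
      rw [div_lt_iff₀ h3]
      linarith
    · rw [div_lt_iff₀ hη] at h2
      rw [div_le_iff₀ h3]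
      linarith
  have hLr : (0 : ℝ) < L := by exact_mod_cast hL0
  have hnodes : ∀ ξ ∈ nodes L, (pen Q n (pt m r ξ)).mahlerMeasure ≤ K := by
    intro ξ hξ
    obtain ⟨x, hx1, hx2⟩ := node_close hL0 hξ m hr
    apply le_of_lt
    apply hthick
    rw [mem_thickening_iff]
    refine ⟨x, ⟨x, ?_, rfl⟩, ?_⟩
    · rw [abs_le] at hx1
      constructor <;> linarith [hx1.1, hx1.2]
    · rw [dist_eq_norm]
      exact lt_of_le_of_lt hx2 hL1
  set W := WW Q n m r L with hW
  have hWl : ‖W.leadingCoeff‖ = 1 := h.norm_lead_WW m r L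
  have hM1 : 1 ≤ W.mahlerMeasure := by
    have := leadingCoeff_le_mahlerMeasure W
    rwa [hWl] at this
  have hM2 : W.mahlerMeasure ≤ K ^ L := h.mahler_WW_le m r L hnodes
  -- lower bound on the circle
  have hcirc : ∀ z : ℂ, ‖z‖ = 1 → r ^ L ≤ ‖W.eval z‖ := by
    intro z hz
    obtain ⟨x, hx⟩ := h.real hz
    obtain ⟨ζ, hζ1, hζ2⟩ := jouk (((x - m) / r : ℝ) : ℂ)
    have hζ0 : ζ ≠ 0 := by
      rintro rfl
      simp at hζ1
      linarith
    have hr0 : (r : ℂ) ≠ 0 := by exact_mod_cast hr.ne'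
    have h1 := WW_eval Q n m r hL0 (z := z) hζ0 (by
      rw [hx, hζ2]
      push_cast
      field_simp
      ring)
    rw [hW, h1, norm_mul, norm_pow, norm_mul, norm_pow, hz, one_pow, mul_one, Complex.norm_real,
      Real.norm_of_nonneg hr.le]
    have h2 : 1 ≤ ‖ζ ^ L + ζ⁻¹ ^ L - 3 / 2 * Complex.I‖ := by
      have h3 := jouk_real hζ0 hζ2 L
      have h4 := Complex.abs_im_le_norm (ζ ^ L + ζ⁻¹ ^ L - 3 / 2 * Complex.I)
      have h5 : (ζ ^ L + ζ⁻¹ ^ L - 3 / 2 * Complex.I).im = -(3 / 2) := by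
        rw [Complex.sub_im, h3]
        simp
      rw [h5, abs_neg, abs_of_pos (by norm_num)] at h4
      linarith
    exact le_mul_of_one_le_right (by positivity) h2
  obtain ⟨e, d, e1, e2, e3⟩ := outer W hWl (fun z hz h0 => by
    have := hcirc z hz
    rw [h0, norm_zero] at this
    have h5 : 0 < r ^ L := by positivity
    linarith) hL0
  set e0 := Real.exp (-(Real.log W.mahlerMeasure / L)) with he0
  have he01 : e0 ≤ 1 := by
    rw [he0, Real.exp_le_one_iff, neg_nonpos]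
    exact div_nonneg (Real.log_nonneg hM1) hLr.le
  have hsph : ∀ z ∈ sphere (0 : ℂ) 1, r * ‖e z‖ ≤ 1 := by
    intro z hz
    have h1 := e3 z hz
    have h2 := hcirc z (by simpa using hz)
    have h3 : (r * ‖e z‖) ^ L ≤ 1 := by
      rw [mul_pow, ← h1]
      exact mul_le_mul_of_nonneg_right h2 (by positivity)
    exact (pow_le_one_iff_of_nonneg (by positivity) hL0.ne').1 h3
  have hball : ∀ z ∈ closedBall (0 : ℂ) 1, r * ‖e z‖ ≤ 1 := by
    intro z hz
    have hd : DiffContOnCl ℂ e (ball 0 1) := (d.mono closure_ball_subset_closedBall).diffContOnCl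
    have h1 : ‖e z‖ ≤ 1 / r := by
      apply Complex.norm_le_of_forall_mem_frontier_norm_le isBounded_ball hd
      · intro w hw
        rw [frontier_ball _ one_ne_zero] at hw
        rw [le_div_iff₀ hr, mul_comm]
        exact hsph w hw
      · rw [closure_ball _ one_ne_zero]
        exact hz
    rw [le_div_iff₀ hr] at h1
    linarith
  refine ⟨e, e0, d, e1, ?_, he01, hball, ?_⟩
  · have h1 : Real.log W.mahlerMeasure ≤ L * Real.log K := by
      rw [← Real.log_pow]
      exact Real.log_le_log (by linarith) hM2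
    have h2 : Real.log W.mahlerMeasure / L ≤ Real.log K := by
      rw [div_le_iff₀ hLr]
      linarith
    rw [he0, ← Real.exp_log (show 0 < K by linarith), ← Real.exp_neg]
    exact Real.exp_le_exp.2 (by linarith)
  · intro z hz hzn
    have hz1 : ‖z‖ ≤ 1 := by simpa using hz
    rcases eq_or_ne z 0 with rfl | hz0
    · rw [← coeff_zero_eq_eval_zero, pen_coeff, if_neg (by omega), sub_zero, h.one, one_mul, e1,
        Complex.norm_real, Real.norm_of_nonneg (Real.exp_nonneg _)]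
      nlinarith
    have hzn0 : z ^ n ≠ 0 := pow_ne_zero _ hz0
    have hr0 : (r : ℂ) ≠ 0 := by exact_mod_cast hr.ne'
    obtain ⟨ζ, hζ1, hζ2⟩ := jouk ((Q.eval z / z ^ n - m) / r)
    have hζ0 : ζ ≠ 0 := by
      rintro rfl
      simp at hζ1
      linarith
    have hQ : Q.eval z = (m + r * (ζ + ζ⁻¹)) * z ^ n := by
      rw [hζ2]
      field_simp
      ring
    have hp : (pen Q n m).eval z = r * (ζ + ζ⁻¹) * z ^ n := by
      rw [pen_eval, hQ]
      ring
    set c := ‖z‖ ^ n with hc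
    have hc0 : 0 < c := by positivity
    set s := ‖ζ‖ with hs
    have hs0 : 0 < s := by linarith
    have hpn : ‖(pen Q n m).eval z‖ ≤ r * (s + s⁻¹) * c := by
      rw [hp, norm_mul, norm_mul, norm_pow, Complex.norm_real, Real.norm_of_nonneg hr.le]
      gcongr
      refine (norm_add_le _ _).trans ?_
      rw [norm_inv]
    have hb := hball z hz
    have hep : 0 ≤ ‖e z‖ := norm_nonneg _
    rcases le_or_gt (c * s) 1 with hcs | hcs
    · have h1 : ‖(pen Q n m).eval z‖ * ‖e z‖ ≤ c * s + c * s⁻¹ := by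
        calc _ ≤ (r * (s + s⁻¹) * c) * ‖e z‖ := mul_le_mul_of_nonneg_right hpn hep
          _ = (c * s + c * s⁻¹) * (r * ‖e z‖) := by ring
          _ ≤ (c * s + c * s⁻¹) * 1 := mul_le_mul_of_nonneg_left hb (by positivity)
          _ = _ := mul_one _
      have h2 : c * s + c * s⁻¹ ≤ 1 + c ^ 2 := by
        have h3 : s * s⁻¹ = 1 := mul_inv_cancel₀ hs0.ne'
        have h4 : s⁻¹ ≤ 1 := inv_le_one_of_one_le₀ hζ1
        have h5 : 0 ≤ (1 - c * s) * (1 - c * s⁻¹) := by
          apply mul_nonneg (by linarith)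
          nlinarith
        nlinarith
      have h3 : c ^ 2 ≤ (1 / 15) ^ 2 := pow_le_pow_left₀ hc0.le hzn 2
      nlinarith
    · have hs15 : 15 ≤ s := by nlinarith
      have h1 := WW_eval Q n m r hL0 hζ0 hQ
      have h2 : (r * c) ^ L * (s ^ L / 2) ≤ ‖W.eval z‖ := by
        rw [hW, h1, norm_mul, norm_pow, norm_mul, norm_pow, Complex.norm_real,
          Real.norm_of_nonneg hr.le]
        gcongr
        have h3 : ‖ζ ^ L‖ = s ^ L := norm_pow _ _
        have h4 : ‖ζ⁻¹ ^ L‖ ≤ 1 := by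
          rw [norm_pow, norm_inv]
          exact pow_le_one₀ (by positivity) (inv_le_one_of_one_le₀ hζ1)
        have h5 : ‖(3 / 2 * Complex.I : ℂ)‖ = 3 / 2 := by simp
        have h6 : s ≤ s ^ L := le_self_pow₀ hζ1 hL0.ne'
        have h7 : ‖ζ ^ L‖ ≤ ‖ζ ^ L + ζ⁻¹ ^ L - 3 / 2 * Complex.I‖ + ‖ζ⁻¹ ^ L‖ +
            ‖(3 / 2 * Complex.I : ℂ)‖ := by
          calc ‖ζ ^ L‖ = ‖(ζ ^ L + ζ⁻¹ ^ L - 3 / 2 * Complex.I) - ζ⁻¹ ^ L + 3 / 2 * Complex.I‖ := by
                congr 1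
                ring
            _ ≤ ‖(ζ ^ L + ζ⁻¹ ^ L - 3 / 2 * Complex.I) - ζ⁻¹ ^ L‖ + ‖(3 / 2 * Complex.I : ℂ)‖ :=
                norm_add_le _ _
            _ ≤ _ := by
                gcongr
                exact norm_sub_le _ _
        rw [h3, h5] at h7
        linarith
      have h3 := e2 z hz
      have h4 : (r * c * s * ‖e z‖) ^ L ≤ 2 := by
        have h5 : (r * c) ^ L * (s ^ L / 2) * ‖e z‖ ^ L ≤ 1 :=
          (mul_le_mul_of_nonneg_right h2 (by positivity)).trans h3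
        calc (r * c * s * ‖e z‖) ^ L = 2 * ((r * c) ^ L * (s ^ L / 2) * ‖e z‖ ^ L) := by
              rw [mul_pow, mul_pow]
              ring
          _ ≤ 2 * 1 := by gcongr
          _ = 2 := by norm_num
      have h5 := le_one_add_of_pow_le_two hL0 h4
      have h6 : s⁻¹ ^ 2 ≤ (1 / 15) ^ 2 := by
        apply pow_le_pow_left₀ (by positivity)
        rw [inv_eq_one_div]
        exact one_div_le_one_div_of_le (by norm_num) hs15
      have h7 : (r * (s + s⁻¹) * c) * ‖e z‖ = (r * c * s * ‖e z‖) * (1 + s⁻¹ ^ 2) := by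
        field_simp
      calc _ ≤ (r * (s + s⁻¹) * c) * ‖e z‖ := mul_le_mul_of_nonneg_right hpn hep
        _ = (r * c * s * ‖e z‖) * (1 + s⁻¹ ^ 2) := h7
        _ ≤ (1 + η) * (1 + (1 / 15) ^ 2) := by
          apply mul_le_mul (by linarith) (by linarith) (by positivity) (by positivity)

end Pool.Agent.Run7.h80.Sym
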