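import Mathlib
import Pool.Agent.Run7.h80.Sym.Avg

/-!
# Long intervals contain points of large Mahler measure
-/

set_option autoImplicit false

open Real Metric Polynomial Filter Topology

namespace Pool.Agent.Run7.h80.Sym

variable {Q : ℂ[X]} {n : ℕ}

lemma cf_rel {e : ℂ → ℂ} (d : DifferentiableOn ℂ e (closedBall 0 1)) {P : ℂ[X]} {j : ℕ}
    (hj : 0 < j) (hlow : ∀ i, 0 < i → i < j → P.coeff i = 0) (k : ℂ) (hk : k * P.coeff 0 = 1) :
    cf j (fun z => k * P.eval z * e z) = cf j e + k * P.coeff j * e 0 := by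
  obtain ⟨s, hs⟩ : X ^ (j + 1) ∣ P - C (P.coeff 0) - C (P.coeff j) * X ^ j := by
    rw [X_pow_dvd_iff]
    intro i hi
    rw [coeff_sub, coeff_sub, coeff_C, coeff_C_mul, coeff_X_pow]
    rcases Nat.eq_zero_or_pos i with rfl | hi0
    · rw [if_pos rfl, if_neg (by omega)]
      simp
    · rw [if_neg (by omega)]
      rcases Nat.lt_or_ge i j with h | h
      · rw [if_neg (by omega), hlow i hi0 h]
        simp
      · have : i = j := by omega
        rw [if_pos this, this]
        simp
  have hP : P = C (P.coeff 0) + C (P.coeff j) * X ^ j + X ^ (j + 1) * s := by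
    rw [← hs]
    ring
  have hev : ∀ z, P.eval z = P.coeff 0 + P.coeff j * z ^ j + z ^ (j + 1) * s.eval z := by
    intro z
    conv_lhs => rw [hP]
    simp
  have d1 : DifferentiableOn ℂ (fun z => k * P.eval z * e z) (closedBall 0 1) :=
    ((differentiableOn_const _).mul P.differentiable.differentiableOn).mul d
  have d2 : DifferentiableOn ℂ (fun z => k * P.coeff j * e z) (closedBall 0 1) :=
    (differentiableOn_const _).mul d
  have d3 : DifferentiableOn ℂ (fun z => k * s.eval z * e z) (closedBall 0 1) :=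
    ((differentiableOn_const _).mul s.differentiable.differentiableOn).mul d
  have i1 : CircleIntegrable (fun z => e z / z ^ j) 0 1 := by
    apply ContinuousOn.circleIntegrable zero_le_one
    apply ((d.mono sphere_subset_closedBall).continuousOn).div (continuousOn_id.pow j)
    intro z hz
    exact pow_ne_zero _ (sphere_ne_zero one_pos hz)
  have i2 : CircleIntegrable (fun z => k * P.coeff j * e z) 0 1 :=
    ((d2.mono sphere_subset_closedBall).continuousOn).circleIntegrable zero_le_one
  have i3 : CircleIntegrable (fun z => k * s.eval z * e z * z ^ 1) 0 1 :=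
    (((d3.mono sphere_subset_closedBall).continuousOn).mul
      (continuousOn_id.pow 1)).circleIntegrable zero_le_one
  have i12 : CircleIntegrable (fun z => e z / z ^ j + k * P.coeff j * e z) 0 1 := i1.add i2
  rw [← avg_div_pow one_pos d1 j]
  have h1 : circleAverage (fun z => k * P.eval z * e z / z ^ j) 0 1 =
      circleAverage (fun z => e z / z ^ j + k * P.coeff j * e z + k * s.eval z * e z * z ^ 1) 0 1 := by
    apply circleAverage_congr_sphere
    intro z hz
    rw [abs_one] at hz
    have hz0 := sphere_ne_zero one_pos hz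
    simp only
    rw [hev z]
    have : z ^ j ≠ 0 := pow_ne_zero _ hz0
    field_simp
    rw [pow_succ]
    linear_combination e z * hk
  rw [h1, circleAverage_fun_add i12 i3, circleAverage_fun_add i1 i2, avg_div_pow one_pos d j,
    avg_mul_pow one_pos d3 one_pos, avg_self one_pos d2, add_zero]

/-- **Every interval of length `2 √2` contains a point of Mahler measure at least
`exp (0.0042)`.** -/
theorem SI.key (h : SI Q n) {j : ℕ} (hj0 : 0 < j) (hjn : j < n) (hc : 1 ≤ ‖Q.coeff j‖)
    (hlow : ∀ i, 0 < i → i < j → Q.coeff i = 0) (m : ℝ) :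
    ∃ x : ℝ, |x - m| ≤ √2 ∧ Real.exp 0.0042 ≤ (pen Q n x).mahlerMeasure := by
  by_contra hcon
  push Not at hcon
  have hs2 : √2 * √2 = 2 := Real.mul_self_sqrt (by norm_num)
  have hs1 : 1.41421 < √2 := by
    rw [Real.lt_sqrt (by norm_num)]
    norm_num
  have hs3 : √2 < 1.41422 := by
    rw [Real.sqrt_lt' (by norm_num)]
    norm_num
  obtain ⟨e, e0, d, he, he1, he2, hb, hF⟩ := h.exists_e m (r := √2 / 2) (K := Real.exp 0.0042)
    (η := 0.00005) (by positivity) (by norm_num) (by
      intro x hx
      exact hcon x (by linarith))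
  rw [← Real.exp_neg] at he1
  have he3 : 0.9958 ≤ e0 := by
    have := Real.add_one_le_exp (-0.0042 : ℝ)
    linarith
  set k := starRingEnd ℂ (Q.coeff 0) with hk
  have hkn : ‖k‖ = 1 := by rw [hk, RCLike.norm_conj, h.one]
  have hkk : k * Q.coeff 0 = 1 := by
    rw [hk, mul_comm, Complex.mul_conj, Complex.normSq_eq_norm_sq, h.one]
    norm_num
  have hp0 : (pen Q n m).coeff 0 = Q.coeff 0 := by
    rw [pen_coeff, if_neg (by omega), sub_zero]
  have hpj : (pen Q n m).coeff j = Q.coeff j := by
    rw [pen_coeff, if_neg (by omega), sub_zero]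
  have hrel := cf_rel d (P := pen Q n m) hj0 (fun i h0 h1 => by
    rw [pen_coeff, if_neg (by omega), sub_zero, hlow i h0 h1]) k (by rw [hp0, hkk])
  rw [hpj] at hrel
  -- the bound for `e`
  have b1 : ‖cf j e‖ ≤ √2 - √2 / 2 * e0 ^ 2 := by
    have h1 := sp (M := √2) (c := e0) one_pos d (by positivity) (by
      intro z hz
      have := hb z (sphere_subset_closedBall hz)
      have h2 : √2 / 2 * ‖e z‖ * √2 ≤ 1 * √2 := mul_le_mul_of_nonneg_right this (by positivity)
      nlinarith [norm_nonneg (e z)]) he (by linarith) hj0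
    rw [one_pow, mul_one, Real.sq_sqrt (by norm_num)] at h1
    have h2 : ‖cf j e‖ * √2 * √2 ≤ (2 - e0 ^ 2) * √2 :=
      mul_le_mul_of_nonneg_right h1 (by positivity)
    nlinarith [norm_nonneg (cf j e)]
  -- the bound for the other function
  obtain ⟨ρ, hρ0, hρ1, hρn⟩ : ∃ ρ : ℝ, 0 < ρ ∧ ρ ≤ 1 ∧ ρ ^ n = 1 / 15 := by
    refine ⟨(1 / 15 : ℝ) ^ ((n : ℝ)⁻¹), by positivity, ?_, ?_⟩
    · exact Real.rpow_le_one (by norm_num) (by norm_num) (by positivity)
    · exact Real.rpow_inv_natCast_pow (by norm_num) (by omega)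
  have d1 : DifferentiableOn ℂ (fun z => k * (pen Q n m).eval z * e z) (closedBall 0 1) :=
    ((differentiableOn_const _).mul (pen Q n m).differentiable.differentiableOn).mul d
  have b2 := sp (M := 1.0045) (c := e0) hρ0 (d1.mono (closedBall_subset_closedBall hρ1))
    (by norm_num) (by
      intro z hz
      have hz1 : ‖z‖ = ρ := by simpa using hz
      have h1 := hF z (by simp [hz1, hρ1]) (by rw [hz1, hρn])
      rw [norm_mul, norm_mul, hkn, one_mul]
      refine h1.trans ?_
      norm_num) (by
      rw [← coeff_zero_eq_eval_zero, hp0, hkk, one_mul, he]) (by linarith) hj0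
  rw [hrel] at b2
  have hρj : 1 / 15 ≤ ρ ^ j := by
    rw [← hρn]
    exact pow_le_pow_of_le_one hρ0.le hρ1 hjn.le
  set A := ‖cf j e + k * Q.coeff j * e 0‖ with hA
  have hA0 : 0 ≤ A := norm_nonneg _
  have b3 : A * (1 / 15) * 1.0045 ≤ 1.0045 ^ 2 - e0 ^ 2 := by
    refine le_trans ?_ b2
    gcongr
  have b4 : e0 ≤ A + ‖cf j e‖ := by
    have h1 : ‖k * Q.coeff j * e 0‖ ≤ A + ‖cf j e‖ := by
      calc ‖k * Q.coeff j * e 0‖ = ‖(cf j e + k * Q.coeff j * e 0) - cf j e‖ := by
            congr 1
            ring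
        _ ≤ _ := norm_sub_le _ _
    rw [norm_mul, norm_mul, hkn, one_mul, he, Complex.norm_real,
      Real.norm_of_nonneg (by linarith)] at h1
    nlinarith
  have he4 : 0.9916 ≤ e0 ^ 2 := by nlinarith
  nlinarith

end Pool.Agent.Run7.h80.Sym
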