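import Mathlib
import Pool.Agent.Run7.h80.Sym.SP

/-!
# Counting zeros of a pencil in a disc
-/

set_option autoImplicit false

open Real Metric Polynomial Filter Topology

namespace Pool.Agent.Run7.h80.Sym

/-- the number of zeros of `f` in the open disc of radius `r` -/
noncomputable def N (f : ℂ[X]) (r : ℝ) : ℕ :=
  letI := Classical.decPred fun w : ℂ => ‖w‖ < r
  Multiset.card (f.roots.filter fun w => ‖w‖ < r)

lemma split (f : ℂ[X]) {r : ℝ} (hr : 0 < r) (hf : ∀ w ∈ f.roots, ‖w‖ ≠ r) (hf0 : f ≠ 0) :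
    ∃ I O J : ℂ[X], f = I * O ∧ (∀ z : ℂ, ‖z‖ ≤ r → O.eval z ≠ 0) ∧
      (∀ z : ℂ, ‖z‖ ≤ r → J.eval z ≠ 0) ∧
      (∀ z : ℂ, ‖z‖ = r → J.eval z = z ^ (N f r) * starRingEnd ℂ (I.eval z)) ∧
      ∀ z : ℂ, ‖z‖ = r → I.eval z ≠ 0 := by
  classical
  set A := f.roots.filter fun w => ‖w‖ < r with hA
  set B := f.roots.filter fun w => ¬ ‖w‖ < r with hB
  have hN : N f r = Multiset.card A := by
    rw [N, hA]
  have hprod : ∀ (T : Multiset ℂ) (F : ℂ → ℂ[X]) (z : ℂ), (∀ w ∈ T, (F w).eval z ≠ 0) →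
      ((T.map F).prod).eval z ≠ 0 := by
    intro T F z h
    rw [eval_multiset_prod, Multiset.map_map]
    apply Multiset.prod_ne_zero
    intro h0
    obtain ⟨w, hw, h1⟩ := Multiset.mem_map.1 h0
    exact h w hw h1
  refine ⟨(A.map fun w => (X - C w : ℂ[X])).prod,
    C f.leadingCoeff * (B.map fun w => (X - C w : ℂ[X])).prod,
    (A.map fun w => (C ((r : ℂ) ^ 2) - C (starRingEnd ℂ w) * X : ℂ[X])).prod, ?_, ?_, ?_, ?_, ?_⟩
  · conv_lhs => rw [(IsAlgClosed.splits f).eq_prod_roots]
    rw [← Multiset.filter_add_not (fun w => ‖w‖ < r) f.roots, Multiset.map_add, Multiset.prod_add]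
    ring
  · intro z hz
    rw [eval_mul, eval_C]
    apply mul_ne_zero (leadingCoeff_ne_zero.2 hf0)
    apply hprod
    intro w hw h0
    rw [eval_sub, eval_X, eval_C, sub_eq_zero] at h0
    obtain ⟨h1, h2⟩ := Multiset.mem_filter.1 hw
    have := hf w h1
    rw [← h0] at this h2
    push Not at h2
    exact this (le_antisymm hz h2)
  · intro z hz
    apply hprod
    intro w hw h0
    obtain ⟨h1, h2⟩ := Multiset.mem_filter.1 hw
    rw [eval_sub, eval_C, eval_mul, eval_C, eval_X, sub_eq_zero] at h0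
    have h3 := congrArg norm h0
    rw [norm_pow, Complex.norm_real, Real.norm_of_nonneg hr.le, norm_mul, RCLike.norm_conj] at h3
    have h4 : ‖w‖ * ‖z‖ < r ^ 2 := by
      calc ‖w‖ * ‖z‖ ≤ ‖w‖ * r := by gcongr
        _ < r * r := by gcongr
        _ = r ^ 2 := by ring
    linarith
  · intro z hz
    have hzz : (r : ℂ) ^ 2 = z * starRingEnd ℂ z := by
      rw [Complex.mul_conj, Complex.normSq_eq_norm_sq, hz]
      push_cast
      ring
    rw [hN]
    clear_value A
    clear hA hN
    induction A using Multiset.induction_on with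
    | empty => simp
    | cons a T ih =>
      rw [Multiset.map_cons, Multiset.prod_cons, eval_mul, ih, Multiset.map_cons,
        Multiset.prod_cons, eval_mul, Multiset.card_cons, map_mul, pow_succ z]
      simp only [eval_sub, eval_C, eval_mul, eval_X, map_sub]
      linear_combination (z ^ Multiset.card T *
        starRingEnd ℂ (eval z (Multiset.map (fun w => X - C w) T).prod)) * hzz
  · intro z hz
    apply hprod
    intro w hw h0
    rw [eval_sub, eval_X, eval_C, sub_eq_zero] at h0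
    obtain ⟨h1, h2⟩ := Multiset.mem_filter.1 hw
    rw [← h0, hz] at h2
    exact lt_irrefl _ h2

/-- the polynomial `P - z ^ (2 a) P^* / r ^ (2 a)` -/
noncomputable def TT (P : ℂ[X]) (a : ℕ) (r : ℝ) : ℂ[X] :=
  P - ∑ i ∈ Finset.range (2 * a + 1),
    C (starRingEnd ℂ (P.coeff i) * (r : ℂ) ^ (2 * i) / (r : ℂ) ^ (2 * a)) * X ^ (2 * a - i)

lemma TT_eval {P : ℂ[X]} {a : ℕ} (hP : P.natDegree ≤ 2 * a) {r : ℝ} {z : ℂ}
    (hz : ‖z‖ = r) : (TT P a r).eval z =
      P.eval z - z ^ (2 * a) * starRingEnd ℂ (P.eval z) / (r : ℂ) ^ (2 * a) := by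
  have hzz : (r : ℂ) ^ 2 = z * starRingEnd ℂ z := by
    rw [Complex.mul_conj, Complex.normSq_eq_norm_sq, hz]
    push_cast
    ring
  rw [TT, eval_sub]
  congr 1
  rw [eval_finsetSum, eval_eq_sum_range' (Nat.lt_succ_of_le hP), map_sum, Finset.mul_sum,
    Finset.sum_div]
  apply Finset.sum_congr rfl
  intro i hi
  have hi' : i ≤ 2 * a := by
    have := Finset.mem_range.1 hi
    omega
  rw [eval_mul, eval_C, eval_pow, eval_X, map_mul, map_pow, pow_mul, hzz, mul_pow]
  have h2 : z ^ (2 * a) = z ^ (2 * a - i) * z ^ i := by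
    rw [← pow_add]
    congr 1
    omega
  rw [h2]
  ring

lemma TT_eval_zero {P : ℂ[X]} {a : ℕ} {r : ℝ} (hr : 0 < r)
    (h : ‖P.coeff 0‖ ≠ ‖P.coeff (2 * a)‖ * r ^ (2 * a)) : (TT P a r).eval 0 ≠ 0 := by
  rw [TT, eval_sub, eval_finsetSum, Finset.sum_eq_single (2 * a)]
  · rw [eval_mul, eval_C, eval_pow, eval_X, Nat.sub_self, pow_zero, mul_one,
      ← coeff_zero_eq_eval_zero]
    intro h0
    apply h
    have h1 := congrArg norm (sub_eq_zero.1 h0)
    rw [norm_div, norm_mul, RCLike.norm_conj, norm_pow, norm_pow, Complex.norm_real,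
      Real.norm_of_nonneg hr.le] at h1
    rw [h1, show 2 * (2 * a) = 2 * a + 2 * a by ring, pow_add]
    field_simp
  · intro i hi hne
    have := Finset.mem_range.1 hi
    rw [eval_mul, eval_C, eval_pow, eval_X, zero_pow (by omega), mul_zero]
  · intro h1
    exact absurd (Finset.mem_range.2 (by omega)) h1

lemma unimod {u : ℂ} (hu : ‖u‖ = 1) : 0 ≤ (1 - u).re ∧ ((1 - u).re = 0 → u = 1) := by
  have h1 := Complex.re_le_norm u
  rw [hu] at h1
  refine ⟨by simpa using h1, fun h0 => ?_⟩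
  have h2 : u.re = 1 := by
    rw [Complex.sub_re, Complex.one_re] at h0
    linarith
  have h3 : u.re ^ 2 + u.im ^ 2 = 1 := by
    have h5 : Complex.normSq u = u.re ^ 2 + u.im ^ 2 := by
      rw [Complex.normSq_apply]
      ring
    rw [← h5, Complex.normSq_eq_norm_sq, hu]
    norm_num
  have h4 : u.im = 0 := by
    rw [h2] at h3
    nlinarith
  exact Complex.ext (by simpa using h2) (by simpa using h4)

theorem count {P : ℂ[X]} {a : ℕ} (hP : P.natDegree ≤ 2 * a) {y : ℝ} (hy0 : 0 < y)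
    (hy1 : y < 1) {r : ℝ} (hr : 0 < r)
    (hT : ‖P.coeff 0‖ ≠ ‖P.coeff (2 * a)‖ * r ^ (2 * a))
    (n0 : P ≠ 0) (n1 : P - X ^ a ≠ 0) (ny : P - C (y : ℂ) * X ^ a ≠ 0)
    (h0 : ∀ w ∈ P.roots, ‖w‖ ≠ r) (h1 : ∀ w ∈ (P - X ^ a).roots, ‖w‖ ≠ r)
    (h2 : ∀ w ∈ (P - C (y : ℂ) * X ^ a).roots, ‖w‖ ≠ r) :
    N (P - C (y : ℂ) * X ^ a) r ≤ N P r + N (P - X ^ a) r := by
  by_contra hcon
  push Not at hcon
  obtain ⟨I0, O0, J0, a1, a2, a3, a4, a5⟩ := split P hr h0 n0
  obtain ⟨I1, O1, J1, b1, b2, b3, b4, b5⟩ := split _ hr h1 n1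
  obtain ⟨Iy, Oy, Jy, c1, c2, c3, c4, c5⟩ := split _ hr h2 ny
  set f1 := P - X ^ a with hf1
  set fy := P - C (y : ℂ) * X ^ a with hfy
  obtain ⟨k, hk⟩ : ∃ k, N fy r = N P r + N f1 r + (k + 1) := ⟨N fy r - (N P r + N f1 r) - 1, by omega⟩
  set F : ℂ → ℂ := fun z => (TT P a r).eval z * z ^ (k + 1) * Oy.eval z * J0.eval z * J1.eval z /
    (O0.eval z * O1.eval z * Jy.eval z) with hF
  have hd : DifferentiableOn ℂ F (closedBall 0 r) := by
    apply DifferentiableOn.div
    · exact (((((TT P a r).differentiable.mul (differentiable_id.pow _)).mul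
        Oy.differentiable).mul J0.differentiable).mul J1.differentiable).differentiableOn
    · exact ((O0.differentiable.mul O1.differentiable).mul Jy.differentiable).differentiableOn
    · intro z hz
      have hz1 : ‖z‖ ≤ r := by simpa using hz
      exact mul_ne_zero (mul_ne_zero (a2 z hz1) (b2 z hz1)) (c3 z hz1)
  have havg : circleAverage F 0 r = 0 := by
    rw [avg_self hr hd, hF]
    simp
  -- the value on the circle
  have hval : ∀ z : ℂ, ‖z‖ = r → 0 ≤ (F z).re ∧ ((F z).re = 0 → (TT P a r).eval z = 0) := by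
    intro z hz
    have hz0 : z ≠ 0 := by
      rintro rfl
      simp at hz
      linarith
    have hr0 : (r : ℂ) ≠ 0 := by exact_mod_cast hr.ne'
    have e0 : P.eval z = I0.eval z * O0.eval z := by
      conv_lhs => rw [a1]
      rw [eval_mul]
    have e1 : f1.eval z = I1.eval z * O1.eval z := by
      conv_lhs => rw [b1]
      rw [eval_mul]
    have ey : fy.eval z = Iy.eval z * Oy.eval z := by
      conv_lhs => rw [c1]
      rw [eval_mul]
    have z0 := a5 z hz
    have z1 := b5 z hz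
    have zy := c5 z hz
    have w0 := a2 z hz.le
    have w1 := b2 z hz.le
    have wy := c2 z hz.le
    have p0 : P.eval z ≠ 0 := by rw [e0]; exact mul_ne_zero z0 w0
    have p1 : f1.eval z ≠ 0 := by rw [e1]; exact mul_ne_zero z1 w1
    have g1 : f1.eval z = P.eval z - z ^ a := by rw [hf1]; simp
    have gy : fy.eval z = P.eval z - y * z ^ a := by rw [hfy]; simp
    set u0 : ℂ := z ^ (2 * a) * starRingEnd ℂ (P.eval z) / ((r : ℂ) ^ (2 * a) * P.eval z) with hu0
    set u1 : ℂ := z ^ (2 * a) * starRingEnd ℂ (f1.eval z) / ((r : ℂ) ^ (2 * a) * f1.eval z) with hu1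
    have nu : ∀ w : ℂ, w ≠ 0 → ‖z ^ (2 * a) * starRingEnd ℂ w / ((r : ℂ) ^ (2 * a) * w)‖ = 1 := by
      intro w hw
      rw [norm_div, norm_mul, norm_mul, norm_pow, norm_pow, RCLike.norm_conj, Complex.norm_real,
        Real.norm_of_nonneg hr.le, hz]
      have : ‖w‖ ≠ 0 := norm_ne_zero_iff.2 hw
      have hr' : r ^ (2 * a) ≠ 0 := pow_ne_zero _ hr.ne'
      field_simp
    have zr : z ^ (2 * a) * starRingEnd ℂ (z ^ a) = (r : ℂ) ^ (2 * a) * z ^ a := by
      have hzz : (r : ℂ) ^ 2 = z * starRingEnd ℂ z := by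
        rw [Complex.mul_conj, Complex.normSq_eq_norm_sq, hz]
        push_cast
        ring
      rw [map_pow, pow_mul, pow_mul, hzz, mul_pow]
      ring
    have t0 : (TT P a r).eval z = P.eval z * (1 - u0) := by
      rw [TT_eval hP hz, hu0]
      field_simp
    have t1 : (TT P a r).eval z = f1.eval z * (1 - u1) := by
      have h3 : f1.eval z * (1 - u1) = f1.eval z - z ^ (2 * a) * starRingEnd ℂ (f1.eval z) /
          (r : ℂ) ^ (2 * a) := by
        rw [hu1]
        field_simp
      rw [h3, TT_eval hP hz, g1, map_sub]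
      have h4 : z ^ (2 * a) * (starRingEnd ℂ (P.eval z) - starRingEnd ℂ (z ^ a)) /
          (r : ℂ) ^ (2 * a) = z ^ (2 * a) * starRingEnd ℂ (P.eval z) / (r : ℂ) ^ (2 * a) - z ^ a := by
        rw [mul_sub, zr]
        field_simp
      rw [h4]
      ring
    have hpos : 0 < ‖I0.eval z‖ ^ 2 * ‖I1.eval z‖ ^ 2 / ‖Iy.eval z‖ ^ 2 := by
      have q0 := norm_pos_iff.2 z0
      have q1 := norm_pos_iff.2 z1
      have qy := norm_pos_iff.2 zy
      positivity
    set c := ‖I0.eval z‖ ^ 2 * ‖I1.eval z‖ ^ 2 / ‖Iy.eval z‖ ^ 2 with hc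
    have hFz : F z = (c : ℂ) * (y * (1 - u0) + (1 - y) * (1 - u1)) := by
      have hcc : (c : ℂ) = (I0.eval z * starRingEnd ℂ (I0.eval z)) *
          (I1.eval z * starRingEnd ℂ (I1.eval z)) / (Iy.eval z * starRingEnd ℂ (Iy.eval z)) := by
        rw [hc, Complex.mul_conj, Complex.mul_conj, Complex.mul_conj, Complex.normSq_eq_norm_sq,
          Complex.normSq_eq_norm_sq, Complex.normSq_eq_norm_sq]
        push_cast
        ring
      have zyc : starRingEnd ℂ (Iy.eval z) ≠ 0 := by simpa using zy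
      have hu : (y : ℂ) * (1 - u0) + (1 - y) * (1 - u1) =
          (TT P a r).eval z * fy.eval z / (P.eval z * f1.eval z) := by
        have q0 : 1 - u0 = (TT P a r).eval z / P.eval z := by
          rw [t0]
          field_simp
        have q1 : 1 - u1 = (TT P a r).eval z / f1.eval z := by
          rw [t1]
          field_simp
        rw [q0, q1, gy, ← mul_div_assoc, ← mul_div_assoc, div_add_div _ _ p0 p1]
        congr 1
        rw [g1]
        ring
      rw [hu, hcc, hF]
      simp only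
      rw [a4 z hz, b4 z hz, c4 z hz, hk, ey, e0, e1]
      have e5 : z ^ (N P r + N f1 r + (k + 1)) = z ^ (N P r) * z ^ (N f1 r) * z ^ (k + 1) := by
        rw [pow_add, pow_add]
      rw [e5]
      have q1 := pow_ne_zero (N P r) hz0
      have q2 := pow_ne_zero (N f1 r) hz0
      have q3 := pow_ne_zero (k + 1) hz0
      field_simp
    obtain ⟨v1, v2⟩ := unimod (nu _ p0)
    obtain ⟨v3, v4⟩ := unimod (nu _ p1)
    rw [← hu0] at v1 v2
    rw [← hu1] at v3 v4
    have hre : (F z).re = c * (y * (1 - u0).re + (1 - y) * (1 - u1).re) := by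
      rw [hFz, Complex.re_ofReal_mul, Complex.add_re, Complex.re_ofReal_mul]
      have : (1 - (y : ℂ)) = ((1 - y : ℝ) : ℂ) := by push_cast; ring
      rw [this, Complex.re_ofReal_mul]
    have hy1' : 0 < 1 - y := by linarith
    refine ⟨?_, ?_⟩
    · rw [hre]
      positivity
    · intro hz2
      rw [hre] at hz2
      have h5 : y * (1 - u0).re + (1 - y) * (1 - u1).re = 0 := by
        rcases mul_eq_zero.1 hz2 with h | h
        · exact absurd h hpos.ne'
        · exact h
      have h6 : (1 - u0).re = 0 := by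
        have h7 : 0 ≤ (1 - y) * (1 - u1).re := by positivity
        have h8 : y * (1 - u0).re ≤ 0 := by linarith
        nlinarith
      rw [t0, v2 h6]
      simp
  -- a point where the real part is positive
  obtain ⟨θ₀, hθ₀, hθpos⟩ : ∃ θ ∈ Set.Icc 0 (2 * π), 0 < (F (circleMap 0 r θ)).re := by
    by_contra hno
    push Not at hno
    have hall : ∀ z : ℂ, ‖z‖ = r → (TT P a r).eval z = 0 := by
      intro z hz
      obtain ⟨θ, hθ1, hθ2⟩ : ∃ θ ∈ Set.Icc 0 (2 * π), circleMap 0 r θ = z := by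
        have hz2 : z ∈ circleMap 0 r '' Set.Ioc 0 (2 * π) := by
          rw [image_circleMap_Ioc]
          simp [hz, abs_of_pos hr]
        obtain ⟨θ, hθ, rfl⟩ := hz2
        exact ⟨θ, ⟨hθ.1.le, hθ.2⟩, rfl⟩
      have h5 := hno θ hθ1
      rw [hθ2] at h5
      exact (hval z hz).2 (le_antisymm h5 (hval z hz).1)
    have h6 : circleAverage (fun z => (TT P a r).eval z) 0 r = (TT P a r).eval 0 :=
      avg_self hr (TT P a r).differentiable.differentiableOn
    have h7 : circleAverage (fun z => (TT P a r).eval z) 0 r = 0 := by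
      have : circleAverage (fun z => (TT P a r).eval z) 0 r = circleAverage (fun _ => (0 : ℂ)) 0 r := by
        apply circleAverage_congr_sphere
        intro z hz
        rw [abs_of_pos hr] at hz
        exact hall z (by simpa using hz)
      rw [this, circleAverage_const]
    exact TT_eval_zero hr hT (h6.symm.trans h7)
  have hFc : Continuous fun θ : ℝ => F (circleMap 0 r θ) := by
    apply hd.continuousOn.comp_continuous (continuous_circleMap 0 r)
    intro θ
    exact sphere_subset_closedBall (circleMap_mem_sphere 0 hr.le θ)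
  have hint : 0 < ∫ θ in (0 : ℝ)..(2 * π), (F (circleMap 0 r θ)).re := by
    apply intervalIntegral.integral_pos (by positivity)
    · exact (Complex.continuous_re.comp hFc).continuousOn
    · intro θ _
      exact (hval _ (by simp [abs_of_pos hr])).1
    · exact ⟨θ₀, hθ₀, hθpos⟩
  have h8 : ∫ θ in (0 : ℝ)..(2 * π), (F (circleMap 0 r θ)).re =
      (∫ θ in (0 : ℝ)..(2 * π), F (circleMap 0 r θ)).re := by
    have := Complex.reCLM.intervalIntegral_comp_comm
      (hFc.intervalIntegrable (μ := MeasureTheory.volume) 0 (2 * π))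
    simpa using this
  have h9 : ∫ θ in (0 : ℝ)..(2 * π), F (circleMap 0 r θ) = 0 := by
    rw [circleAverage_def] at havg
    rcases smul_eq_zero.1 havg with h | h
    · have : (2 * π)⁻¹ ≠ 0 := by positivity
      exact absurd h this
    · exact h
  rw [h8, h9] at hint
  simp at hint

end Pool.Agent.Run7.h80.Sym
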