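import Mathlib
import Pool.Agent.Run7.h80.Sym.Pair

/-!
# The pairwise inequality for Mahler measures in a pencil
-/

set_option autoImplicit false

open Real Metric Polynomial Filter Topology MeasureTheory

namespace Pool.Agent.Run7.h80.Sym

/-- the number of elements which are at least `u` -/
noncomputable def cnt (A : Multiset ℝ) (u : ℝ) : ℝ :=
  (A.map fun a => if u ≤ a then (1 : ℝ) else 0).sum

lemma layer_one {a K : ℝ} (hK : 0 ≤ K) (ha : a ≤ K) :
    IntervalIntegrable (fun u => if u ≤ a then (1 : ℝ) else 0) volume 0 K ∧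
      ∫ u in (0 : ℝ)..K, (if u ≤ a then (1 : ℝ) else 0) = max 0 a := by
  have hanti : Antitone fun u : ℝ => if u ≤ a then (1 : ℝ) else 0 := by
    intro u v huv
    simp only
    split_ifs with h1 h2 <;> linarith
  have hint : ∀ p q : ℝ, IntervalIntegrable (fun u => if u ≤ a then (1 : ℝ) else 0) volume p q :=
    fun p q => hanti.intervalIntegrable
  refine ⟨hint _ _, ?_⟩
  rcases lt_or_ge a 0 with h | h
  · rw [max_eq_left h.le]
    rw [intervalIntegral.integral_congr (g := fun _ => (0 : ℝ))]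
    · simp
    · intro u hu
      rw [Set.uIcc_of_le hK] at hu
      simp only
      rw [if_neg (by linarith [hu.1])]
  · rw [max_eq_right h, ← intervalIntegral.integral_add_adjacent_intervals (hint 0 a) (hint a K)]
    have h1 : ∫ u in (0 : ℝ)..a, (if u ≤ a then (1 : ℝ) else 0) = a := by
      rw [intervalIntegral.integral_congr (g := fun _ => (1 : ℝ))]
      · simp
      · intro u hu
        rw [Set.uIcc_of_le h] at hu
        simp only
        rw [if_pos hu.2]
    have h2 : ∫ u in a..K, (if u ≤ a then (1 : ℝ) else 0) = 0 := by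
      rw [intervalIntegral.integral_congr_ae (g := fun _ => (0 : ℝ))]
      · simp
      · apply Filter.Eventually.of_forall
        intro u hu
        rw [Set.uIoc_of_le ha] at hu
        rw [if_neg (by linarith [hu.1])]
    rw [h1, h2, add_zero]

lemma layer (A : Multiset ℝ) {K : ℝ} (hK : 0 ≤ K) (hA : ∀ a ∈ A, a ≤ K) :
    IntervalIntegrable (cnt A) volume 0 K ∧
      ∫ u in (0 : ℝ)..K, cnt A u = (A.map fun a => max 0 a).sum := by
  induction A using Multiset.induction_on with
  | empty =>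
    have : cnt 0 = fun _ => (0 : ℝ) := by
      funext u
      simp [cnt]
    rw [this]
    exact ⟨by simp, by simp⟩
  | cons a A ih =>
    obtain ⟨h1, h2⟩ := ih fun b hb => hA b (Multiset.mem_cons_of_mem hb)
    obtain ⟨h3, h4⟩ := layer_one hK (hA a (Multiset.mem_cons_self a A))
    have h5 : cnt (a ::ₘ A) = fun u => (if u ≤ a then (1 : ℝ) else 0) + cnt A u := by
      funext u
      rw [cnt, Multiset.map_cons, Multiset.sum_cons]
      rfl
    rw [h5]
    refine ⟨h3.add h1, ?_⟩
    rw [intervalIntegral.integral_add h3 h1, h4, h2, Multiset.map_cons, Multiset.sum_cons]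

lemma sum_le_of_cnt_le (A B : Multiset ℝ) (s : Finset ℝ)
    (h : ∀ u : ℝ, 0 < u → u ∉ s → cnt A u ≤ cnt B u) :
    (A.map fun a => max 0 a).sum ≤ (B.map fun a => max 0 a).sum := by
  obtain ⟨K, hK0, hKA, hKB⟩ : ∃ K : ℝ, 0 ≤ K ∧ (∀ a ∈ A, a ≤ K) ∧ ∀ b ∈ B, b ≤ K := by
    refine ⟨((A + B).map fun a => |a|).sum, ?_, ?_, ?_⟩
    · exact Multiset.sum_nonneg fun x hx => by
        obtain ⟨y, _, rfl⟩ := Multiset.mem_map.1 hx
        exact abs_nonneg y
    · intro a ha
      have h1 := Multiset.single_le_sum (s := (A + B).map fun a => |a|) (fun x hx => by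
        obtain ⟨y, _, rfl⟩ := Multiset.mem_map.1 hx
        exact abs_nonneg y) |a| (Multiset.mem_map_of_mem _ (Multiset.mem_add.2 (Or.inl ha)))
      exact (le_abs_self a).trans h1
    · intro a ha
      have h1 := Multiset.single_le_sum (s := (A + B).map fun a => |a|) (fun x hx => by
        obtain ⟨y, _, rfl⟩ := Multiset.mem_map.1 hx
        exact abs_nonneg y) |a| (Multiset.mem_map_of_mem _ (Multiset.mem_add.2 (Or.inr ha)))
      exact (le_abs_self a).trans h1
  obtain ⟨i1, e1⟩ := layer A hK0 hKA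
  obtain ⟨i2, e2⟩ := layer B hK0 hKB
  rw [← e1, ← e2]
  apply intervalIntegral.integral_mono_ae_restrict hK0 i1 i2
  rw [EventuallyLE, ae_restrict_iff' measurableSet_Icc]
  have hs : ∀ᵐ u : ℝ, u ∉ (insert 0 (s : Set ℝ)) := by
    have : (insert (0 : ℝ) (s : Set ℝ)).Countable := (s.finite_toSet.insert 0).countable
    exact this.ae_notMem volume
  filter_upwards [hs] with u hu hu2
  have hu0 : u ≠ 0 := fun h0 => hu (Set.mem_insert_iff.2 (Or.inl h0))
  have hus : u ∉ s := fun h0 => hu (Set.mem_insert_iff.2 (Or.inr (by exact_mod_cast h0)))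
  exact h u (lt_of_le_of_ne hu2.1 hu0.symm) hus

/-- the values `- log ‖w‖` -/
noncomputable def vals (f : ℂ[X]) : Multiset ℝ := f.roots.map fun w => -Real.log ‖w‖

lemma root_ne_zero {f : ℂ[X]} (h : f.coeff 0 ≠ 0) {w : ℂ} (hw : w ∈ f.roots) : w ≠ 0 := by
  rintro rfl
  have h1 := (mem_roots'.1 hw).2
  rw [IsRoot, ← coeff_zero_eq_eval_zero] at h1
  exact h h1

lemma mahler_eq_vals {f : ℂ[X]} (h : f.coeff 0 ≠ 0) :
    f.mahlerMeasure = ‖f.coeff 0‖ * Real.exp (((vals f).map fun a => max 0 a).sum) := by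
  have h1 : ‖f.coeff 0‖ = ‖f.leadingCoeff‖ * (f.roots.map fun w => ‖w‖).prod := by
    rw [coeff_zero_eq_eval_zero, (IsAlgClosed.splits f).eq_prod_roots]
    simp only [eval_mul, eval_C, eval_multiset_prod, Multiset.map_map]
    rw [norm_mul]
    have h2 : ∀ T : Multiset ℂ, ‖(T.map (eval 0 ∘ fun w => (X - C w : ℂ[X]))).prod‖ =
        (T.map fun w => ‖w‖).prod := by
      intro T
      induction T using Multiset.induction_on with
      | empty => simp
      | cons a T ih =>
        rw [Multiset.map_cons, Multiset.prod_cons, norm_mul, ih, Multiset.map_cons,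
          Multiset.prod_cons]
        simp
    rw [h2]
    rw [← (IsAlgClosed.splits f).eq_prod_roots]
  rw [h1, mahlerMeasure_eq_leadingCoeff_mul_prod_roots, mul_assoc, vals]
  congr 1
  have h3 : ∀ w ∈ f.roots, w ≠ 0 := fun w hw => root_ne_zero h hw
  generalize f.roots = T at h3
  induction T using Multiset.induction_on with
  | empty => simp
  | cons a T ih =>
    rw [Multiset.map_cons, Multiset.prod_cons, ih fun w hw => h3 w (Multiset.mem_cons_of_mem hw)]
    simp only [Multiset.map_cons, Multiset.prod_cons, Multiset.sum_cons]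
    rw [Real.exp_add]
    have ha : 0 < ‖a‖ := norm_pos_iff.2 (h3 a (Multiset.mem_cons_self a T))
    have h4 : max 1 ‖a‖ = ‖a‖ * Real.exp (max 0 (-Real.log ‖a‖)) := by
      rcases le_total 1 ‖a‖ with h5 | h5
      · rw [max_eq_right h5, max_eq_left (neg_nonpos.2 (Real.log_nonneg h5)), Real.exp_zero,
          mul_one]
      · rw [max_eq_left h5, max_eq_right (neg_nonneg.2 (Real.log_nonpos ha.le h5)), Real.exp_neg,
          Real.exp_log ha, mul_inv_cancel₀ ha.ne']
    rw [h4]
    ring

lemma N_eq_cnt {f : ℂ[X]} (h : f.coeff 0 ≠ 0) {u : ℝ} (hu : u ∉ vals f) :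
    (N f (Real.exp (-u)) : ℝ) = cnt (vals f) u := by
  classical
  rw [N, cnt, vals, Multiset.map_map]
  have h3 : ∀ w ∈ f.roots, w ≠ 0 := fun w hw => root_ne_zero h hw
  have h4 : ∀ w ∈ f.roots, u ≠ -Real.log ‖w‖ := fun w hw h0 =>
    hu (by
      rw [h0]
      exact Multiset.mem_map_of_mem _ hw)
  generalize f.roots = T at h3 h4
  induction T using Multiset.induction_on with
  | empty => simp
  | cons a T ih =>
    have ih' := ih (fun w hw => h3 w (Multiset.mem_cons_of_mem hw))
      (fun w hw => h4 w (Multiset.mem_cons_of_mem hw))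
    have ha : 0 < ‖a‖ := norm_pos_iff.2 (h3 a (Multiset.mem_cons_self a T))
    have ha2 := h4 a (Multiset.mem_cons_self a T)
    rw [Multiset.map_cons, Multiset.sum_cons, ← ih', Function.comp_apply]
    by_cases hc : ‖a‖ < Real.exp (-u)
    · have h5 : u ≤ -Real.log ‖a‖ := by
        have := (Real.log_lt_log ha hc)
        rw [Real.log_exp] at this
        linarith
      rw [if_pos h5]
      have h6 := Multiset.filter_cons_of_pos (p := fun w : ℂ => ‖w‖ < Real.exp (-u)) T hc
      have h7 : Multiset.card (Multiset.filter (fun w : ℂ => ‖w‖ < Real.exp (-u)) (a ::ₘ T)) =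
          Multiset.card (Multiset.filter (fun w : ℂ => ‖w‖ < Real.exp (-u)) T) + 1 := by
        rw [h6, Multiset.card_cons]
      have h8 : ((Multiset.card (Multiset.filter (fun w : ℂ => ‖w‖ < Real.exp (-u)) (a ::ₘ T)) : ℕ)
        : ℝ) = (Multiset.card (Multiset.filter (fun w : ℂ => ‖w‖ < Real.exp (-u)) T) : ℝ) + 1 := by
        rw [h7]
        push_cast
        ring
      rw [add_comm]
      convert h8
    · have h5 : ¬ u ≤ -Real.log ‖a‖ := by
        intro h6
        apply hc
        have h7 : u < -Real.log ‖a‖ := lt_of_le_of_ne h6 ha2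
        rw [← Real.exp_log ha]
        exact Real.exp_lt_exp.2 (by linarith)
      rw [if_neg h5]
      have h6 := Multiset.filter_cons_of_neg (p := fun w : ℂ => ‖w‖ < Real.exp (-u)) T hc
      rw [zero_add]
      congr 2

lemma cnt_add (A B : Multiset ℝ) (u : ℝ) : cnt (A + B) u = cnt A u + cnt B u := by
  rw [cnt, Multiset.map_add, Multiset.sum_add]
  rfl

lemma norm_coeff_zero_le (f : ℂ[X]) : ‖f.coeff 0‖ ≤ f.mahlerMeasure := by
  have := norm_coeff_le_choose_mul_mahlerMeasure 0 f
  rwa [Nat.choose_zero_right, Nat.cast_one, one_mul] at this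

/-- **The pairwise inequality**, inner form -/
theorem pair_inner {P : ℂ[X]} {a : ℕ} (ha : 0 < a) (hP : P.natDegree ≤ 2 * a)
    (hP0 : P.coeff 0 ≠ 0) {y : ℝ} (hy0 : 0 ≤ y) (hy1 : y ≤ 1) :
    ‖P.coeff 0‖ * (P - C (y : ℂ) * X ^ a).mahlerMeasure ≤
      P.mahlerMeasure * (P - X ^ a).mahlerMeasure := by
  have c1 : (P - X ^ a).coeff 0 = P.coeff 0 := by
    rw [coeff_sub, coeff_X_pow, if_neg (by omega), sub_zero]
  have cy : ∀ y : ℝ, (P - C (y : ℂ) * X ^ a).coeff 0 = P.coeff 0 := by
    intro y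
    rw [coeff_sub, coeff_C_mul, coeff_X_pow, if_neg (by omega), mul_zero, sub_zero]
  have h1 : (P - X ^ a).coeff 0 ≠ 0 := by rw [c1]; exact hP0
  have hy : (P - C (y : ℂ) * X ^ a).coeff 0 ≠ 0 := by rw [cy]; exact hP0
  rcases hy0.eq_or_lt with rfl | hy0
  · rw [Complex.ofReal_zero, C_0, zero_mul, sub_zero, mul_comm]
    have := norm_coeff_zero_le (P - X ^ a)
    rw [c1] at this
    exact mul_le_mul_of_nonneg_left this (mahlerMeasure_nonneg _)
  rcases hy1.eq_or_lt with rfl | hy1
  · rw [Complex.ofReal_one, C_1, one_mul]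
    exact mul_le_mul_of_nonneg_right (norm_coeff_zero_le P) (mahlerMeasure_nonneg _)
  have n0 : P ≠ 0 := by
    rintro rfl
    simp at hP0
  have n1 : P - X ^ a ≠ 0 := fun h0 => by
    rw [h0] at h1
    simp at h1
  have ny : P - C (y : ℂ) * X ^ a ≠ 0 := fun h0 => by
    rw [h0] at hy
    simp at hy
  rw [mahler_eq_vals hP0, mahler_eq_vals h1, mahler_eq_vals hy, c1, cy]
  have key : ((vals (P - C (y : ℂ) * X ^ a)).map fun v => max 0 v).sum ≤
      ((vals P).map fun v => max 0 v).sum + ((vals (P - X ^ a)).map fun v => max 0 v).sum := by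
    rw [← Multiset.sum_add, ← Multiset.map_add]
    -- the exceptional set
    set S : Finset ℝ := (vals P + vals (P - X ^ a) + vals (P - C (y : ℂ) * X ^ a)).toFinset ∪
      {-(Real.log (‖P.coeff 0‖ / ‖P.coeff (2 * a)‖) / (2 * a))} with hS
    apply sum_le_of_cnt_le _ _ S
    intro u _ hu
    rw [hS, Finset.mem_union, Multiset.mem_toFinset, Finset.mem_singleton] at hu
    push Not at hu
    obtain ⟨hu1, hu2⟩ := hu
    rw [Multiset.mem_add, Multiset.mem_add] at hu1
    push Not at hu1
    obtain ⟨⟨u0, u1⟩, uy⟩ := hu1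
    rw [cnt_add, ← N_eq_cnt hP0 u0, ← N_eq_cnt h1 u1, ← N_eq_cnt hy uy]
    have hne : ∀ f : ℂ[X], f.coeff 0 ≠ 0 → u ∉ vals f → ∀ w ∈ f.roots, ‖w‖ ≠ Real.exp (-u) := by
      intro f hf hu w hw h0
      apply hu
      rw [vals, Multiset.mem_map]
      refine ⟨w, hw, ?_⟩
      rw [h0, Real.log_exp, neg_neg]
    have hT : ‖P.coeff 0‖ ≠ ‖P.coeff (2 * a)‖ * Real.exp (-u) ^ (2 * a) := by
      intro h0
      apply hu2
      have hp0 : 0 < ‖P.coeff 0‖ := norm_pos_iff.2 hP0
      have hp2 : 0 < ‖P.coeff (2 * a)‖ := by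
        rcases (norm_nonneg (P.coeff (2 * a))).eq_or_lt with h2 | h2
        · rw [← h2, zero_mul] at h0
          linarith
        · exact h2
      have h3 : ‖P.coeff 0‖ / ‖P.coeff (2 * a)‖ = Real.exp (-u) ^ (2 * a) := by
        rw [h0]
        field_simp
      have ha' : (a : ℝ) ≠ 0 := by
        have : (0 : ℝ) < a := by exact_mod_cast ha
        exact this.ne'
      rw [h3, Real.log_pow, Real.log_exp]
      push_cast
      field_simp
    have := count hP hy0 hy1 (Real.exp_pos (-u)) hT n0 n1 ny (hne _ hP0 u0) (hne _ h1 u1)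
      (hne _ hy uy)
    exact_mod_cast this
  have hexp := Real.exp_le_exp.2 key
  rw [Real.exp_add] at hexp
  calc _ = ‖P.coeff 0‖ ^ 2 * Real.exp (((vals (P - C (y : ℂ) * X ^ a)).map
        fun v => max 0 v).sum) := by ring
    _ ≤ ‖P.coeff 0‖ ^ 2 * (Real.exp (((vals P).map fun v => max 0 v).sum) *
        Real.exp (((vals (P - X ^ a)).map fun v => max 0 v).sum)) :=
      mul_le_mul_of_nonneg_left hexp (by positivity)
    _ = _ := by ring

end Pool.Agent.Run7.h80.Sym
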