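import Mathlib
import Pool.Agent.Run7.h80.Sym.Layer
import Pool.Agent.Run7.h80.Sym.Key

/-!
# Convexity of the sublevel sets, and the gap
-/

set_option autoImplicit false

open Real Metric Polynomial Filter Topology

namespace Pool.Agent.Run7.h80.Sym

/-- **The pairwise inequality**, inner form, for complex parameters -/
theorem pair_inner_complex {P : ℂ[X]} {a : ℕ} (ha : 0 < a) (hP : P.natDegree ≤ 2 * a)
    (hP0 : P.coeff 0 ≠ 0) (s t : ℂ) {y : ℝ} (hy0 : 0 ≤ y) (hy1 : y ≤ 1) :
    ‖P.coeff 0‖ * (P - C ((1 - y) * s + y * t) * X ^ a).mahlerMeasure ≤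
      (P - C s * X ^ a).mahlerMeasure * (P - C t * X ^ a).mahlerMeasure := by
  have c0 : ∀ t : ℂ, (P - C t * X ^ a).coeff 0 = P.coeff 0 := by
    intro t
    rw [coeff_sub, coeff_C_mul, coeff_X_pow, if_neg (by omega), mul_zero, sub_zero]
  rcases eq_or_ne s t with rfl | hst
  · rw [show ((1 - (y : ℂ)) * s + y * s) = s by ring]
    have := norm_coeff_zero_le (P - C s * X ^ a)
    rw [c0] at this
    exact mul_le_mul_of_nonneg_right this (mahlerMeasure_nonneg _)
  set k : ℂ := (t - s)⁻¹ with hk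
  have hts : t - s ≠ 0 := sub_ne_zero.2 hst.symm
  have hk0 : k ≠ 0 := inv_ne_zero hts
  set R : ℂ[X] := C k * (P - C s * X ^ a) with hR
  have hRd : R.natDegree ≤ 2 * a := by
    rw [hR]
    refine (natDegree_C_mul_le _ _).trans ?_
    refine (natDegree_sub_le _ _).trans (max_le hP ?_)
    exact (natDegree_C_mul_X_pow_le _ _).trans (by omega)
  have hR0 : R.coeff 0 = k * P.coeff 0 := by rw [hR, coeff_C_mul, c0]
  have h1 := pair_inner ha hRd (by rw [hR0]; exact mul_ne_zero hk0 hP0) hy0 hy1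
  have e1 : R - C (y : ℂ) * X ^ a = C k * (P - C ((1 - y) * s + y * t) * X ^ a) := by
    rw [hR]
    have : C (y : ℂ) = C k * C (y * (t - s)) := by
      rw [← C_mul]
      congr 1
      rw [hk]
      field_simp
    rw [this]
    simp only [C_mul, C_add, C_sub, C_1]
    ring
  have e2 : R - X ^ a = C k * (P - C t * X ^ a) := by
    rw [hR]
    have : (1 : ℂ[X]) = C k * C (t - s) := by
      rw [← C_mul, hk, inv_mul_cancel₀ hts, C_1]
    calc C k * (P - C s * X ^ a) - X ^ a = C k * (P - C s * X ^ a) - 1 * X ^ a := by rw [one_mul]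
      _ = _ := by
        rw [this, C_sub]
        ring
  rw [e1, e2, hR0, hR, mahlerMeasure_mul, mahlerMeasure_mul, mahlerMeasure_mul,
    mahlerMeasure_const, norm_mul] at h1
  have hkn : 0 < ‖k‖ := norm_pos_iff.2 hk0
  have h2 : ‖k‖ ^ 2 * (‖P.coeff 0‖ * (P - C ((1 - y) * s + y * t) * X ^ a).mahlerMeasure) ≤
      ‖k‖ ^ 2 * ((P - C s * X ^ a).mahlerMeasure * (P - C t * X ^ a).mahlerMeasure) := by
    nlinarith
  exact le_of_mul_le_mul_left h2 (by positivity)

variable {Q : ℂ[X]} {n : ℕ}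

/-- the logarithm of the Mahler measure along the pencil -/
noncomputable def G (Q : ℂ[X]) (n : ℕ) (t : ℂ) : ℝ := Real.log (pen Q n t).mahlerMeasure

lemma SI.mahler_pos (h : SI Q n) (t : ℂ) : 0 < (pen Q n t).mahlerMeasure := by
  linarith [h.one_le t]

lemma SI.G_nonneg (h : SI Q n) (t : ℂ) : 0 ≤ G Q n t := Real.log_nonneg (h.one_le t)

lemma SI.exp_G (h : SI Q n) (t : ℂ) : Real.exp (G Q n t) = (pen Q n t).mahlerMeasure :=
  Real.exp_log (h.mahler_pos t)

lemma SI.G_conj (h : SI Q n) (t : ℂ) : G Q n (starRingEnd ℂ t) = G Q n t := by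
  rw [G, G, ← logMahlerMeasure_eq_log_MahlerMeasure, ← logMahlerMeasure_eq_log_MahlerMeasure,
    logMahlerMeasure_def, logMahlerMeasure_def]
  apply circleAverage_congr_sphere
  intro z hz
  have hz1 : ‖z‖ = 1 := by simpa using hz
  simp only
  rw [h.norm_conj t z hz1]

lemma SI.G_pair (h : SI Q n) (s t : ℂ) {y : ℝ} (hy0 : 0 ≤ y) (hy1 : y ≤ 1) :
    G Q n ((1 - y) * s + y * t) ≤ G Q n s + G Q n t := by
  have h0 : Q.coeff 0 ≠ 0 := fun h0 => by
    have := h.one
    rw [h0] at this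
    simp at this
  have h1 := pair_inner_complex h.npos h.deg.le h0 s t hy0 hy1
  rw [h.one, one_mul] at h1
  rw [G, G, G, ← Real.log_mul (h.mahler_pos s).ne' (h.mahler_pos t).ne']
  exact Real.log_le_log (h.mahler_pos _) h1

lemma SI.G_re (h : SI Q n) (t : ℂ) : G Q n t.re ≤ G Q n t + G Q n (starRingEnd ℂ t) := by
  have h1 := h.G_pair t (starRingEnd ℂ t) (y := 1 / 2) (by norm_num) (by norm_num)
  have h2 : (1 - ((1 / 2 : ℝ) : ℂ)) * t + ((1 / 2 : ℝ) : ℂ) * starRingEnd ℂ t = (t.re : ℂ) := by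
    have := Complex.add_conj t
    push_cast at this ⊢
    linear_combination (1 / 2 : ℂ) * this
  rwa [h2] at h1

/-- the value at the real part is bounded by the sum over the point and its conjugate -/
lemma SI.G_re_le_sum (h : SI Q n) (t : ℂ) [DecidableEq ℂ] :
    G Q n t.re ≤ ∑ w ∈ ({t, starRingEnd ℂ t} : Finset ℂ), G Q n w := by
  by_cases ht : t = starRingEnd ℂ t
  · rw [← ht]
    have h1 : ((t.re : ℝ) : ℂ) = t := Complex.conj_eq_iff_re.1 ht.symm
    rw [h1]
    simp
  · rw [Finset.sum_pair ht]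
    exact h.G_re t

/-- real segments -/
lemma SI.G_between (h : SI Q n) {a b x : ℝ} (h1 : a ≤ x) (h2 : x ≤ b) :
    G Q n x ≤ G Q n a + G Q n b := by
  rcases eq_or_lt_of_le (h1.trans h2) with hab | hab
  · have : x = a := le_antisymm (by linarith) h1
    rw [this]
    linarith [h.G_nonneg b]
  · have h3 := h.G_pair a b (y := (x - a) / (b - a)) (div_nonneg (by linarith) (by linarith))
      ((div_le_one (by linarith)).2 (by linarith))
    have h4 : (1 - (((x - a) / (b - a) : ℝ) : ℂ)) * a + (((x - a) / (b - a) : ℝ) : ℂ) * b = x := by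
      have : b - a ≠ 0 := by linarith
      have h5 : (1 - (x - a) / (b - a)) * a + (x - a) / (b - a) * b = x := by
        field_simp
        ring
      exact_mod_cast congrArg (fun v : ℝ => (v : ℂ)) h5
    rwa [h4] at h3

/-- **Long real intervals**: the endpoints of an interval of length at least `2 √2` have
`G` at least `0.0042` together. -/
theorem SI.G_long (h : SI Q n) {j : ℕ} (hj0 : 0 < j) (hjn : j < n) (hc : 1 ≤ ‖Q.coeff j‖)
    (hlow : ∀ i, 0 < i → i < j → Q.coeff i = 0) {a b : ℝ} (hab : 2 * √2 ≤ b - a) :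
    0.0042 ≤ G Q n a + G Q n b := by
  obtain ⟨x, hx1, hx2⟩ := h.key hj0 hjn hc hlow ((a + b) / 2)
  have h1 : 0.0042 ≤ G Q n x := by
    rw [G, Real.le_log_iff_exp_le (h.mahler_pos _)]
    exact hx2
  have h2 := abs_le.1 hx1
  exact h1.trans (h.G_between (by linarith [h2.1]) (by linarith [h2.2]))

lemma small_exp {g : ℝ} (h0 : 0 ≤ g) (h : g ≤ 0.0021) :
    Real.exp g - (Real.exp g)⁻¹ ≤ 0.00422 := by
  rw [← Real.exp_neg]
  have h1 : Real.exp g ≤ 1 + g + g ^ 2 := by
    have := Real.abs_exp_sub_one_sub_id_le (x := g) (by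
      rw [abs_of_nonneg h0]
      linarith)
    have h2 := abs_le.1 this
    linarith [h2.2]
  have h2 := Real.add_one_le_exp (-g)
  nlinarith

lemma SI.im_small (h : SI Q n) (t : ℂ) (ht : G Q n t ≤ 0.0021) : |t.im| ≤ 0.00422 := by
  have h1 := h.im_le t
  rw [← h.exp_G t] at h1
  exact h1.trans (small_exp (h.G_nonneg t) ht)

end Pool.Agent.Run7.h80.Sym
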