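import Mathlib
import Pool.Agent.Run7.h80.Sym.Seg
import Pool.Agent.Run7.h80.Sym.NT

/-!
# The bound for the zeros of an irreducible polynomial
-/

set_option autoImplicit false

open Real Metric Polynomial Filter Topology

namespace Pool.Agent.Run7.h80.Sym

variable {Q : ℂ[X]} {n : ℕ}

/-- distances on the real line -/
theorem SI.dist (h : SI Q n) {a b : ℝ} (hab : a ≤ b) :
    b - a ≤ 4 * Real.exp (G Q n a + G Q n b) := by
  rcases eq_or_lt_of_le hab with rfl | hlt
  · rw [sub_self]
    positivity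
  by_contra hcon
  push Not at hcon
  set r := (b - a) / 4 with hr
  have hr0 : 0 < r := by
    rw [hr]
    linarith
  have h1 : Real.exp (G Q n a + G Q n b) < r := by
    rw [hr]
    linarith
  obtain ⟨K, hK1, hK2⟩ := exists_between h1
  have hK0 : 0 < K := lt_trans (Real.exp_pos _) hK1
  obtain ⟨e, e0, _, he, he1, _, hb, _⟩ := h.exists_e ((a + b) / 2) (r := r) (K := K)
    (η := 1) hr0 one_pos (by
      intro x hx
      have h2 := abs_le.1 hx
      refine lt_of_le_of_lt ?_ hK1
      rw [← h.exp_G x]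
      apply Real.exp_le_exp.2
      apply h.G_between
      · rw [hr] at h2
        linarith [h2.1]
      · rw [hr] at h2
        linarith [h2.2])
  have h3 := hb 0 (by simp)
  have he00 : 0 < e0 := lt_of_lt_of_le (inv_pos.2 hK0) he1
  rw [he, Complex.norm_real, Real.norm_of_nonneg he00.le] at h3
  have h4 : r * K⁻¹ ≤ 1 := le_trans (mul_le_mul_of_nonneg_left he1 hr0.le) h3
  have h5 : r ≤ K := by
    rw [← div_eq_mul_inv, div_le_one hK0] at h4
    exact h4
  linarith

lemma SI.im_le_exp (h : SI Q n) (t : ℂ) : |t.im| ≤ Real.exp (G Q n t) := by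
  have h1 := h.im_le t
  rw [← h.exp_G t] at h1
  have h2 : 0 ≤ (Real.exp (G Q n t))⁻¹ := by positivity
  linarith

lemma SI.G_re2 (h : SI Q n) (t : ℂ) : G Q n t.re ≤ 2 * G Q n t := by
  have h1 := h.G_re t
  rw [h.G_conj] at h1
  linarith

/-- real parts of two points -/
lemma SI.re_dist (h : SI Q n) (s t : ℂ) :
    |s.re - t.re| ≤ 4 * Real.exp (2 * G Q n s + 2 * G Q n t) := by
  have h1 := h.G_re2 s
  have h2 := h.G_re2 t
  rw [abs_le]
  constructor
  · rcases le_total s.re t.re with h3 | h3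
    · have h4 := h.dist h3
      have h5 : Real.exp (G Q n s.re + G Q n t.re) ≤ Real.exp (2 * G Q n s + 2 * G Q n t) :=
        Real.exp_le_exp.2 (by linarith)
      linarith
    · have := Real.exp_pos (2 * G Q n s + 2 * G Q n t)
      linarith
  · rcases le_total t.re s.re with h3 | h3
    · have h4 := h.dist h3
      have h5 : Real.exp (G Q n t.re + G Q n s.re) ≤ Real.exp (2 * G Q n s + 2 * G Q n t) :=
        Real.exp_le_exp.2 (by linarith)
      linarith
    · have := Real.exp_pos (2 * G Q n s + 2 * G Q n t)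
      linarith

lemma log_nine : 7 * Real.log 9 ≤ 15.94 := by
  have h1 : Real.log 9 = 3 * Real.log 2 + Real.log (9 / 8) := by
    rw [show (9 : ℝ) = 2 ^ 3 * (9 / 8) by norm_num, Real.log_mul (by norm_num) (by norm_num),
      Real.log_pow]
    norm_num
  have h2 := Real.log_two_lt_d9
  have h3 : Real.log (9 / 8) ≤ 9 / 8 - 1 := Real.log_le_sub_one_of_pos (by norm_num)
  rw [h1]
  linarith

lemma log_096 : Real.log 0.96 ≤ -0.04 := by
  have := Real.log_le_sub_one_of_pos (x := 0.96) (by norm_num)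
  linarith

lemma exp_0002 : Real.exp 0.002 ≤ 1.003 := by
  have := Real.abs_exp_sub_one_sub_id_le (x := (0.002 : ℝ)) (by
    rw [abs_of_nonneg] <;> norm_num)
  have h2 := abs_le.1 this
  norm_num at h2 ⊢
  linarith [h2.2]

/-- the estimate at the bad points -/
lemma bad_bound {u g : ℝ} (hg : 0.001 ≤ g) {v : ℝ} (hv0 : 0 < v) (hv : v ≤ (u + 2) ^ 7)
    (hu0 : 0 ≤ u) (hu : u + 2 ≤ 9 * Real.exp (2 * g)) : Real.log v ≤ -0.04 + 16000 * g := by
  have h1 : Real.log v ≤ 7 * Real.log (u + 2) := by
    calc Real.log v ≤ Real.log ((u + 2) ^ 7) := Real.log_le_log hv0 hv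
      _ = 7 * Real.log (u + 2) := by
        rw [Real.log_pow]
        norm_num
  have h2 : Real.log (u + 2) ≤ Real.log 9 + 2 * g := by
    calc Real.log (u + 2) ≤ Real.log (9 * Real.exp (2 * g)) :=
          Real.log_le_log (by linarith) hu
      _ = _ := by rw [Real.log_mul (by norm_num) (Real.exp_ne_zero _), Real.log_exp]
  have h3 := log_nine
  linarith

/-- the summation over the zeros -/
lemma sum_bound {f Φ : ℤ[X]} (hf : f ≠ 0) (hΦ : Φ.natDegree ≤ 7)
    (h : ∀ t ∈ rts f, ev Φ t ≠ 0) {g : ℂ → ℝ}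
    (hb : ∀ t ∈ rts f, Real.log ‖ev Φ t‖ ≤ -0.04 + 16000 * g t) :
    (f.natDegree : ℝ) / 400000 ≤ Real.log |(f.leadingCoeff : ℝ)| + ((rts f).map g).sum := by
  have h1 := res_ineq hf hΦ h
  have h2 : ((rts f).map fun t => Real.log ‖ev Φ t‖).sum ≤
      ((rts f).map fun t => -0.04 + 16000 * g t).sum := Multiset.sum_map_le_sum_map _ _ hb
  have h3 : ((rts f).map fun t => -0.04 + 16000 * g t).sum =
      -0.04 * f.natDegree + 16000 * ((rts f).map g).sum := by
    rw [Multiset.sum_map_add, Multiset.sum_map_mul_left]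
    congr 1
    rw [Multiset.map_const', Multiset.sum_replicate, card_rts, nsmul_eq_mul, mul_comm]
  have h4 : 0 ≤ Real.log |(f.leadingCoeff : ℝ)| := by
    apply Real.log_nonneg
    have := Int.one_le_abs (leadingCoeff_ne_zero.2 hf)
    exact_mod_cast this
  push_cast at h1
  linarith

/-- all zeros are bad -/
lemma all_bad {f : ℤ[X]} (hf : f ≠ 0) {g : ℂ → ℝ} (hb : ∀ t ∈ rts f, 0.001 ≤ g t) :
    (f.natDegree : ℝ) / 400000 ≤ Real.log |(f.leadingCoeff : ℝ)| + ((rts f).map g).sum := by
  have h4 : 0 ≤ Real.log |(f.leadingCoeff : ℝ)| := by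
    apply Real.log_nonneg
    have := Int.one_le_abs (leadingCoeff_ne_zero.2 hf)
    exact_mod_cast this
  have h1 : Multiset.card (rts f) • (0.001 : ℝ) ≤ ((rts f).map g).sum := by
    rw [← Multiset.sum_replicate, ← Multiset.map_const']
    exact Multiset.sum_map_le_sum_map _ _ hb
  rw [card_rts, nsmul_eq_mul] at h1
  have h2 : (0 : ℝ) ≤ f.natDegree := Nat.cast_nonneg _
  linarith

/-- exceptional zeros of irreducible polynomials -/
lemma exc_all {f : ℤ[X]} (hirr : Irreducible f) {t : ℂ} (ht : ev f t = 0) (h : Exc t) {s : ℂ}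
    (hs : ev f s = 0) : Exc s := by
  rcases h with ⟨k, hk⟩ | ⟨m, hm⟩
  · left
    exact ⟨k, all_int hirr (hk ▸ ht) hs⟩
  · right
    refine ⟨m, ?_⟩
    have h1 := all_quad (b := -(2 * m + 1)) (c := m ^ 2 + m - 1) hirr ht (by
      push_cast
      linear_combination hm) hs
    push_cast at h1
    linear_combination h1

lemma int_sq_ne_two (k : ℤ) : k ^ 2 ≠ 2 := by
  intro h
  have h1 : k < 2 := by nlinarith
  have h2 : -2 < k := by nlinarith
  interval_cases k <;> omega

/-- the polynomials `(X - n) ^ 2 - 2` -/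
lemma sqrt_two_case {f : ℤ[X]} (hirr : Irreducible f) {t : ℂ} {m : ℤ} (ht : ev f t = 0)
    (h : (t - m) ^ 2 = 2) :
    f.natDegree = 2 ∧ (((m - √2 : ℝ) : ℂ) ∈ rts f) ∧ ((m + √2 : ℝ) : ℂ) ∈ rts f := by
  have h1 := quad_dvd (b := -2 * m) (c := m ^ 2 - 2) hirr ht (by
    push_cast
    linear_combination h) (by
    rintro k rfl
    apply int_sq_ne_two (k - m)
    exact_mod_cast h)
  have hs : (√2 : ℂ) * √2 = 2 := by
    have : (√2 : ℝ) * √2 = 2 := Real.mul_self_sqrt (by norm_num)
    exact_mod_cast congrArg (fun v : ℝ => (v : ℂ)) this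
  refine ⟨h1.1, ?_, ?_⟩
  · rw [mem_rts hirr.ne_zero]
    apply h1.2
    push_cast
    linear_combination hs
  · rw [mem_rts hirr.ne_zero]
    apply h1.2
    push_cast
    linear_combination hs

lemma sum_pair_le {R : Multiset ℂ} {F : ℂ → ℝ} (h : ∀ t, 0 ≤ F t) {s t : ℂ} (hst : s ≠ t)
    (hs : s ∈ R) (ht : t ∈ R) : F s + F t ≤ (R.map F).sum := by
  obtain ⟨S, rfl⟩ := Multiset.exists_cons_of_mem hs
  have h1 : t ∈ S := by
    rcases Multiset.mem_cons.1 ht with h1 | h1
    · exact absurd h1.symm hst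
    · exact h1
  obtain ⟨T, rfl⟩ := Multiset.exists_cons_of_mem h1
  rw [Multiset.map_cons, Multiset.map_cons, Multiset.sum_cons, Multiset.sum_cons]
  have h3 : 0 ≤ (T.map F).sum := Multiset.sum_nonneg fun x hx => by
    obtain ⟨y, _, rfl⟩ := Multiset.mem_map.1 hx
    exact h y
  linarith

/-- **The exponential bound for the symmetric pencils** -/
theorem SI.core_exp (h : SI Q n) {j : ℕ} (hj0 : 0 < j) (hjn : j < n)
    (hc : 1 ≤ ‖Q.coeff j‖) (hlow : ∀ i, 0 < i → i < j → Q.coeff i = 0) {f : ℤ[X]}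
    (hirr : Irreducible f) {t1 : ℂ} (ht1 : t1 ∈ rts f) (hexc : ¬ Exc t1) :
    (f.natDegree : ℝ) / 400000 ≤
      Real.log |(f.leadingCoeff : ℝ)| + ((rts f).map fun t => G Q n t).sum := by
  classical
  have hf := hirr.ne_zero
  set S : Finset ℂ := (rts f).toFinset.filter fun t => G Q n t ≤ 0.001 with hS
  have hmem : ∀ t, t ∈ S ↔ t ∈ rts f ∧ G Q n t ≤ 0.001 := by
    intro t
    rw [hS, Finset.mem_filter, Multiset.mem_toFinset]
  rcases S.eq_empty_or_nonempty with h0 | h0
  · apply all_bad hf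
    intro t ht
    by_contra hcon
    push Not at hcon
    have : t ∈ S := (hmem t).2 ⟨ht, hcon.le⟩
    rw [h0] at this
    simp at this
  obtain ⟨Φ, m, hA, hsmall, hnear⟩ := locate S h0 (by
    intro s hs t ht
    by_contra hcon
    push Not at hcon
    have h1 := h.G_long hj0 hjn hc hlow (a := t.re) (b := s.re) hcon
    have h2 := h.G_re2 t
    have h3 := h.G_re2 s
    have h4 := ((hmem t).1 ht).2
    have h5 := ((hmem s).1 hs).2
    linarith) (by
    intro t ht
    have h4 := ((hmem t).1 ht).2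
    exact h.im_small t (by linarith))
  by_cases hzero : ∃ t ∈ rts f, ev Φ t = 0
  · obtain ⟨t, ht, hz⟩ := hzero
    have htf := (mem_rts hf).1 ht
    rcases hA.zero t hz with h1 | h1
    · exact absurd (exc_all hirr htf h1 ((mem_rts hf).1 ht1)) hexc
    · obtain ⟨h2, h3, h4⟩ := sqrt_two_case hirr htf h1
      have hs2 : 0 < √2 := by positivity
      have h5 := h.G_long hj0 hjn hc hlow (a := (m : ℝ) - √2) (b := (m : ℝ) + √2) (by linarith)
      have h6 := sum_pair_le (fun t => h.G_nonneg t) (by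
        intro he
        have := Complex.ofReal_injective he
        linarith) h3 h4
      have h7 : 0 ≤ Real.log |(f.leadingCoeff : ℝ)| := by
        apply Real.log_nonneg
        have := Int.one_le_abs (leadingCoeff_ne_zero.2 hf)
        exact_mod_cast this
      rw [h2]
      push_cast
      linarith
  · push Not at hzero
    apply sum_bound hf hA.deg hzero
    intro t ht
    have hpos : 0 < ‖ev Φ t‖ := norm_pos_iff.2 (hzero t ht)
    have hg0 := h.G_nonneg t
    rcases le_or_gt (G Q n t) 0.001 with h1 | h1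
    · have h2 := hsmall t ((hmem t).2 ⟨ht, h1⟩)
      have h3 := Real.log_le_log hpos h2
      have h4 := log_096
      linarith
    · obtain ⟨t0, ht0⟩ := h0
      have ht0g := ((hmem t0).1 ht0).2
      apply bad_bound h1.le hpos (hA.bound t) (norm_nonneg _)
      have h2 := h.re_dist t t0
      have h3 := hnear t0 ht0
      have h4 := h.im_le_exp t
      have h5 : Real.exp (2 * G Q n t + 2 * G Q n t0) ≤ 1.003 * Real.exp (2 * G Q n t) := by
        rw [Real.exp_add, mul_comm]
        apply mul_le_mul_of_nonneg_right _ (Real.exp_pos _).le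
        refine le_trans (Real.exp_le_exp.2 ?_) exp_0002
        linarith
      have h6 : Real.exp (G Q n t) ≤ Real.exp (2 * G Q n t) := Real.exp_le_exp.2 (by linarith)
      have h7 : 1 ≤ Real.exp (2 * G Q n t) := Real.one_le_exp (by linarith)
      have h8 : ‖t - m‖ ≤ |t.re - m| + |t.im| := by
        have := Complex.norm_le_abs_re_add_abs_im (t - m)
        simpa using this
      have h9 : |t.re - m| ≤ |t.re - t0.re| + |t0.re - m| := by
        have : t.re - m = (t.re - t0.re) + (t0.re - m) := by ring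
        rw [this]
        exact abs_add_le _ _
      linarith

/-- **The gap for the symmetric pencils** -/
theorem SI.core_gap (h : SI Q n) {j : ℕ} (hj0 : 0 < j) (hjn : j < n)
    (hc : 1 ≤ ‖Q.coeff j‖) (hlow : ∀ i, 0 < i → i < j → Q.coeff i = 0) {f : ℤ[X]}
    (hirr : Irreducible f) {t1 : ℂ} (ht1 : t1 ∈ rts f) (hexc : ¬ Exc t1) :
    0.0042 ≤ Real.log |(f.leadingCoeff : ℝ)| + ((rts f).map fun t => G Q n t).sum := by
  classical
  have hf := hirr.ne_zero
  have hlead : 1 ≤ |f.leadingCoeff| := Int.one_le_abs (leadingCoeff_ne_zero.2 hf)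
  have hsum0 : 0 ≤ ((rts f).map fun t => G Q n t).sum := Multiset.sum_nonneg fun x hx => by
    obtain ⟨y, _, rfl⟩ := Multiset.mem_map.1 hx
    exact h.G_nonneg y
  rcases eq_or_lt_of_le hlead with hl | hl
  swap
  · have h1 : (2 : ℝ) ≤ |(f.leadingCoeff : ℝ)| := by
      have : (2 : ℤ) ≤ |f.leadingCoeff| := hl
      exact_mod_cast this
    have h2 := Real.log_le_log (by norm_num) h1
    have h3 := Real.log_two_gt_d9
    linarith
  have hl1 : Real.log |(f.leadingCoeff : ℝ)| = 0 := by
    have : |(f.leadingCoeff : ℝ)| = 1 := by exact_mod_cast hl.symm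
    rw [this, Real.log_one]
  rw [hl1, zero_add]
  by_contra hcon
  push Not at hcon
  have hconj : ∀ t ∈ rts f, starRingEnd ℂ t ∈ rts f := by
    intro t ht
    rw [mem_rts hf] at ht ⊢
    rw [ev, eval_map] at ht ⊢
    have h3 := congrArg (starRingEnd ℂ) ht
    rw [map_zero, hom_eval₂] at h3
    have h4 : (starRingEnd ℂ).comp (Int.castRingHom ℂ) = Int.castRingHom ℂ := by
      ext
      simp
    rwa [h4] at h3
  have hSsum : ∑ t ∈ (rts f).toFinset, G Q n t < 0.0042 := by
    refine lt_of_le_of_lt ?_ hcon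
    have h1 : (rts f).dedup ≤ rts f := Multiset.dedup_le _
    obtain ⟨S, hS⟩ := Multiset.le_iff_exists_add.1 h1
    have h2 : ∑ t ∈ (rts f).toFinset, G Q n t = ((rts f).dedup.map fun t => G Q n t).sum := rfl
    rw [h2]
    conv_rhs => rw [hS]
    rw [Multiset.map_add, Multiset.sum_add]
    have h3 : 0 ≤ (S.map fun t => G Q n t).sum := Multiset.sum_nonneg fun x hx => by
      obtain ⟨y, _, rfl⟩ := Multiset.mem_map.1 hx
      exact h.G_nonneg y
    linarith
  have hpair : ∀ t ∈ rts f, ({t, starRingEnd ℂ t} : Finset ℂ) ⊆ (rts f).toFinset := by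
    intro t ht w hw
    rw [Finset.mem_insert, Finset.mem_singleton] at hw
    rw [Multiset.mem_toFinset]
    rcases hw with rfl | rfl
    · exact ht
    · exact hconj t ht
  obtain ⟨Φ, m, hA, hsmall, hnear⟩ := locate (rts f).toFinset
    ⟨t1, Multiset.mem_toFinset.2 ht1⟩ (by
    intro s hs t ht
    rw [Multiset.mem_toFinset] at hs ht
    by_contra hcon
    push Not at hcon
    have h1 := h.G_long hj0 hjn hc hlow (a := t.re) (b := s.re) hcon
    have h2 := h.G_re_le_sum t
    have h3 := h.G_re_le_sum s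
    have hdisj : Disjoint ({t, starRingEnd ℂ t} : Finset ℂ) {s, starRingEnd ℂ s} := by
      rw [Finset.disjoint_left]
      intro w hw1 hw2
      rw [Finset.mem_insert, Finset.mem_singleton] at hw1 hw2
      have e1 : w.re = t.re := by rcases hw1 with rfl | rfl <;> simp
      have e2 : w.re = s.re := by rcases hw2 with rfl | rfl <;> simp
      have : 0 < √2 := by positivity
      linarith
    have h4 : ∑ w ∈ ({t, starRingEnd ℂ t} : Finset ℂ) ∪ {s, starRingEnd ℂ s}, G Q n w ≤
        ∑ w ∈ (rts f).toFinset, G Q n w :=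
      Finset.sum_le_sum_of_subset_of_nonneg (Finset.union_subset (hpair t ht) (hpair s hs))
        fun w _ _ => h.G_nonneg w
    rw [Finset.sum_union hdisj] at h4
    linarith) (by
    intro t ht
    rw [Multiset.mem_toFinset] at ht
    by_cases hreal : t = starRingEnd ℂ t
    · have : t.im = 0 := Complex.conj_eq_iff_im.1 hreal.symm
      rw [this]
      norm_num
    · apply h.im_small
      have h4 : ∑ w ∈ ({t, starRingEnd ℂ t} : Finset ℂ), G Q n w ≤
          ∑ w ∈ (rts f).toFinset, G Q n w :=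
        Finset.sum_le_sum_of_subset_of_nonneg (hpair t ht) fun w _ _ => h.G_nonneg w
      rw [Finset.sum_pair hreal, h.G_conj] at h4
      linarith)
  by_cases hzero : ∃ t ∈ rts f, ev Φ t = 0
  · obtain ⟨t, ht, hz⟩ := hzero
    have htf := (mem_rts hf).1 ht
    rcases hA.zero t hz with h1 | h1
    · exact absurd (exc_all hirr htf h1 ((mem_rts hf).1 ht1)) hexc
    · obtain ⟨h2, h3, h4⟩ := sqrt_two_case hirr htf h1
      have hs2 : 0 < √2 := by positivity
      have h5 := h.G_long hj0 hjn hc hlow (a := (m : ℝ) - √2) (b := (m : ℝ) + √2) (by linarith)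
      have h6 := sum_pair_le (fun t => h.G_nonneg t) (by
        intro he
        have := Complex.ofReal_injective he
        linarith) h3 h4
      linarith
  · push Not at hzero
    have h1 := res_ineq hf hA.deg hzero
    rw [hl1, mul_zero, zero_add] at h1
    have h2 : ((rts f).map fun t => Real.log ‖ev Φ t‖).sum ≤
        ((rts f).map fun _ => (-0.04 : ℝ)).sum := by
      apply Multiset.sum_map_le_sum_map
      intro t ht
      have hpos : 0 < ‖ev Φ t‖ := norm_pos_iff.2 (hzero t ht)
      have h2 := hsmall t (Multiset.mem_toFinset.2 ht)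
      exact (Real.log_le_log hpos h2).trans log_096
    rw [Multiset.map_const', Multiset.sum_replicate, card_rts, nsmul_eq_mul] at h2
    have h3 : 0 < f.natDegree := by
      rw [← card_rts]
      exact Multiset.card_pos_iff_exists_mem.2 ⟨t1, ht1⟩
    have h4 : (0 : ℝ) < f.natDegree := by exact_mod_cast h3
    linarith

end Pool.Agent.Run7.h80.Sym
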