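import Mathlib
import Pool.Agent.Run7.h80.Comp.Lau
import Pool.Agent.Run7.h80.Sym.Main

/-!
# The antisymmetric case
-/

set_option autoImplicit false

open Real Metric Polynomial Filter Topology

namespace Pool.Agent.Run7.h80.Sym

variable {Q : ℂ[X]} {n : ℕ}

/-- pencils symmetric under `t ↦ - t` -/
lemma SI.G_neg (h : SI Q n) (ha : ∀ j ≤ 2 * n, Q.coeff (2 * n - j) = -Q.coeff j) (t : ℂ) :
    G Q n (-t) = G Q n t := by
  have h1 : (pen Q n t).reverse = -pen Q n (-t) := by
    ext j
    rw [coeff_reverse, h.natDegree_pen, coeff_neg, pen_coeff, pen_coeff]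
    rcases le_or_gt j (2 * n) with hj | hj
    · rw [revAt_le hj, ha j hj]
      by_cases h2 : j = n
      · rw [if_pos h2, if_pos (by omega)]
        ring
      · rw [if_neg h2, if_neg (by omega)]
        ring
    · rw [revAt_eq_self_of_lt hj, coeff_eq_zero_of_natDegree_lt (by rw [h.deg]; exact hj),
        if_neg (by omega), if_neg (by omega)]
      ring
  have h2 : (-pen Q n (-t)).mahlerMeasure = (pen Q n (-t)).mahlerMeasure := by
    have e : -pen Q n (-t) = C (-1) * pen Q n (-t) := by
      rw [C_neg, C_1]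
      ring
    rw [e, mahlerMeasure_mul, mahlerMeasure_const]
    simp
  rw [G, G, ← h2, ← h1, Comp.mahlerMeasure_reverse]

/-- the parameter of the antisymmetric pencil -/
noncomputable def par (c : ℤ) (t : ℂ) : ℂ := -Complex.I * (t - c)

lemma par_re (c : ℤ) (t : ℂ) : (par c t).re = t.im := by
  simp [par]

lemma par_im (c : ℤ) (t : ℂ) : (par c t).im = -(t.re - c) := by
  simp [par]

lemma SI.G_par_conj (h : SI Q n) (ha : ∀ j ≤ 2 * n, Q.coeff (2 * n - j) = -Q.coeff j) (c : ℤ)
    (t : ℂ) : G Q n (par c (starRingEnd ℂ t)) = G Q n (par c t) := by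
  have e : par c (starRingEnd ℂ t) = -starRingEnd ℂ (par c t) := by
    rw [par, par, map_mul, map_neg, map_sub, Complex.conj_I, map_intCast]
    ring
  rw [e, h.G_neg ha, h.G_conj]

/-- points with a large imaginary part -/
lemma SI.par_large (h : SI Q n) (ha : ∀ j ≤ 2 * n, Q.coeff (2 * n - j) = -Q.coeff j) {j : ℕ}
    (hj0 : 0 < j) (hjn : j < n) (hc : 1 ≤ ‖Q.coeff j‖) (hlow : ∀ i, 0 < i → i < j → Q.coeff i = 0)
    (c : ℤ) {t : ℂ} (ht : √2 ≤ |t.im|) : 0.0042 ≤ 4 * G Q n (par c t) := by
  have h1 := h.G_re2 (par c t)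
  rw [par_re] at h1
  have h2 : G Q n ((-t.im : ℝ) : ℂ) = G Q n t.im := by
    push_cast
    exact h.G_neg ha _
  rcases le_total 0 t.im with h3 | h3
  · rw [abs_of_nonneg h3] at ht
    have h4 := h.G_long hj0 hjn hc hlow (a := -t.im) (b := t.im) (by linarith)
    rw [h2] at h4
    linarith
  · rw [abs_of_nonpos h3] at ht
    have h4 := h.G_long hj0 hjn hc hlow (a := t.im) (b := -t.im) (by linarith)
    rw [h2] at h4
    linarith

lemma bad_bound' {u g : ℝ} (hg : 0.001 ≤ g) {v : ℝ} (hv0 : 0 < v) (hv : v ≤ (u + 2) ^ 7)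
    (hu0 : 0 ≤ u) (hu : u + 2 ≤ 8 * Real.exp (4 * g)) : Real.log v ≤ -0.04 + 16000 * g := by
  have h1 : Real.log v ≤ 7 * Real.log (u + 2) := by
    calc Real.log v ≤ Real.log ((u + 2) ^ 7) := Real.log_le_log hv0 hv
      _ = 7 * Real.log (u + 2) := by
        rw [Real.log_pow]
        norm_num
  have h2 : Real.log (u + 2) ≤ Real.log 8 + 4 * g := by
    calc Real.log (u + 2) ≤ Real.log (8 * Real.exp (4 * g)) :=
          Real.log_le_log (by linarith) hu
      _ = _ := by rw [Real.log_mul (by norm_num) (Real.exp_ne_zero _), Real.log_exp]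
  have h3 : Real.log 8 = 3 * Real.log 2 := by
    rw [show (8 : ℝ) = 2 ^ 3 by norm_num, Real.log_pow]
    norm_num
  have h4 := Real.log_two_lt_d9
  linarith

/-- the polynomials `(X - m) ^ 2 + 2` -/
lemma sqrt_two_case' {f : ℤ[X]} (hirr : Irreducible f) {t : ℂ} {m : ℤ} (ht : ev f t = 0)
    (h : (t - m) ^ 2 = -2) :
    f.natDegree = 2 ∧ ((m : ℂ) - √2 * Complex.I ∈ rts f) ∧ (m : ℂ) + √2 * Complex.I ∈ rts f := by
  have h1 := quad_dvd (b := -2 * m) (c := m ^ 2 + 2) hirr ht (by
    push_cast
    linear_combination h) (by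
    rintro k rfl
    have h2 : (k - m) ^ 2 = -2 := by exact_mod_cast h
    nlinarith [sq_nonneg (k - m)])
  have hs : (√2 : ℂ) * √2 = 2 := by
    have : (√2 : ℝ) * √2 = 2 := Real.mul_self_sqrt (by norm_num)
    exact_mod_cast congrArg (fun v : ℝ => (v : ℂ)) this
  have hI := Complex.I_sq
  refine ⟨h1.1, ?_, ?_⟩
  · rw [mem_rts hirr.ne_zero]
    apply h1.2
    push_cast
    linear_combination (√2 : ℂ) ^ 2 * hI - hs
  · rw [mem_rts hirr.ne_zero]
    apply h1.2
    push_cast
    linear_combination (√2 : ℂ) ^ 2 * hI - hs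

/-- the exceptional points of the antisymmetric case -/
def ExcA (c : ℤ) (t : ℂ) : Prop := t = c ∨ (t - c) ^ 2 = -1

lemma PC_zero {c : ℤ} {t : ℂ} (h : ev (PC c) t = 0) : ExcA c t ∨ (t - c) ^ 2 = -2 := by
  rw [ev_PC] at h
  rcases mul_eq_zero.1 h with h | h
  · left
    rcases mul_eq_zero.1 h with h | h
    · left
      exact sub_eq_zero.1 h
    · right
      linear_combination h
  · right
    linear_combination h

lemma excA_all {f : ℤ[X]} (hirr : Irreducible f) {c : ℤ} {t : ℂ} (ht : ev f t = 0)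
    (h : ExcA c t) {s : ℂ} (hs : ev f s = 0) : ExcA c s := by
  rcases h with hk | hm
  · left
    exact all_int hirr (hk ▸ ht) hs
  · right
    have h1 := all_quad (b := -2 * c) (c := c ^ 2 + 1) hirr ht (by
      push_cast
      linear_combination hm) hs
    push_cast at h1
    linear_combination h1

lemma conj_mem {f : ℤ[X]} {t : ℂ} (ht : t ∈ rts f) : starRingEnd ℂ t ∈ rts f := by
  obtain ⟨h1, h2⟩ := mem_roots'.1 ht
  refine mem_roots'.2 ⟨h1, ?_⟩
  rw [IsRoot] at h2 ⊢
  rw [eval_map] at h2 ⊢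
  have h3 := congrArg (starRingEnd ℂ) h2
  rw [map_zero, hom_eval₂] at h3
  have h4 : (starRingEnd ℂ).comp (Int.castRingHom ℂ) = Int.castRingHom ℂ := by
    ext
    simp
  rwa [h4] at h3

/-- the case of the zeros `m ± √2 i` -/
lemma SI.sqrt_two_sum (h : SI Q n) {j : ℕ}
    (hj0 : 0 < j) (hjn : j < n) (hc : 1 ≤ ‖Q.coeff j‖) (hlow : ∀ i, 0 < i → i < j → Q.coeff i = 0)
    {f : ℤ[X]} (hirr : Irreducible f) {c : ℤ} {t : ℂ} (ht : ev f t = 0) (h2 : (t - c) ^ 2 = -2) :
    f.natDegree = 2 ∧ 0.0042 ≤ ((rts f).map fun t => G Q n (par c t)).sum := by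
  obtain ⟨h2, h3, h4⟩ := sqrt_two_case' hirr ht h2
  refine ⟨h2, ?_⟩
  have hs2 : 0 < √2 := by positivity
  have h5 := h.G_long hj0 hjn hc hlow (a := -√2) (b := √2) (by linarith)
  have hI := Complex.I_sq
  have e1 : par c ((c : ℂ) - √2 * Complex.I) = ((-√2 : ℝ) : ℂ) := by
    rw [par]
    push_cast
    linear_combination (√2 : ℂ) * hI
  have e2 : par c ((c : ℂ) + √2 * Complex.I) = ((√2 : ℝ) : ℂ) := by
    rw [par]
    linear_combination (-√2 : ℂ) * hI
  have h6 := sum_pair_le (R := rts f) (F := fun t => G Q n (par c t)) (fun t => h.G_nonneg _) (by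
    intro he
    have h7 := congrArg (par c) he
    rw [e1, e2] at h7
    have := Complex.ofReal_injective h7
    linarith) h3 h4
  simp only [e1, e2] at h6
  linarith

/-- **The exponential bound for the antisymmetric pencils** -/
theorem SI.anti_exp (h : SI Q n) (ha : ∀ j ≤ 2 * n, Q.coeff (2 * n - j) = -Q.coeff j) {j : ℕ}
    (hj0 : 0 < j) (hjn : j < n) (hc : 1 ≤ ‖Q.coeff j‖) (hlow : ∀ i, 0 < i → i < j → Q.coeff i = 0)
    {c : ℤ} {f : ℤ[X]} (hirr : Irreducible f) {t1 : ℂ} (ht1 : t1 ∈ rts f) (hexc : ¬ ExcA c t1) :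
    (f.natDegree : ℝ) / 400000 ≤
      Real.log |(f.leadingCoeff : ℝ)| + ((rts f).map fun t => G Q n (par c t)).sum := by
  have hf := hirr.ne_zero
  by_cases hzero : ∃ t ∈ rts f, ev (PC c) t = 0
  · obtain ⟨t, ht, hz⟩ := hzero
    have htf := (mem_rts hf).1 ht
    rcases PC_zero hz with h1 | h1
    · exact absurd (excA_all hirr htf h1 ((mem_rts hf).1 ht1)) hexc
    · obtain ⟨h2, h3⟩ := h.sqrt_two_sum hj0 hjn hc hlow hirr htf h1
      have h7 : 0 ≤ Real.log |(f.leadingCoeff : ℝ)| := by
        apply Real.log_nonneg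
        have := Int.one_le_abs (leadingCoeff_ne_zero.2 hf)
        exact_mod_cast this
      rw [h2]
      push_cast
      linarith
  · push Not at hzero
    apply sum_bound hf (PC_deg c) hzero
    intro t ht
    have hpos : 0 < ‖ev (PC c) t‖ := norm_pos_iff.2 (hzero t ht)
    have hg0 := h.G_nonneg (par c t)
    rcases le_or_gt (G Q n (par c t)) 0.001 with h1 | h1
    · have h2 : |t.im| ≤ 1.4143 := by
        by_contra hcon
        push Not at hcon
        have h3 := sqrt2_lt
        have := h.par_large ha hj0 hjn hc hlow c (t := t) (by linarith)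
        linarith
      have h3 : |t.re - c| ≤ 0.00422 := by
        have h4 := h.im_small (par c t) (by linarith)
        rwa [par_im, abs_neg] at h4
      have h4 := PC_small c h2 h3
      have h5 := Real.log_le_log hpos h4
      have h6 := log_096
      linarith
    · apply bad_bound' h1.le hpos (PC_bound c t) (norm_nonneg _)
      set g := G Q n (par c t) with hg
      have h2 := h.re_dist (par c t) (-par c t)
      rw [h.G_neg ha, ← hg, Complex.neg_re, par_re] at h2
      have h4 := h.im_le_exp (par c t)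
      rw [← hg, par_im, abs_neg] at h4
      have h6 : Real.exp g ≤ Real.exp (4 * g) := Real.exp_le_exp.2 (by linarith)
      have h7 : 1 ≤ Real.exp (4 * g) := Real.one_le_exp (by linarith)
      have h8 : ‖t - c‖ ≤ |t.re - c| + |t.im| := by
        have := Complex.norm_le_abs_re_add_abs_im (t - c)
        simpa using this
      have h9 : |t.im - -t.im| = 2 * |t.im| := by
        rw [sub_neg_eq_add, ← two_mul, abs_mul, abs_two]
      rw [h9, show 2 * g + 2 * g = 4 * g by ring] at h2
      linarith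

/-- **The gap for the antisymmetric pencils** -/
theorem SI.anti_gap (h : SI Q n) (ha : ∀ j ≤ 2 * n, Q.coeff (2 * n - j) = -Q.coeff j) {j : ℕ}
    (hj0 : 0 < j) (hjn : j < n) (hc : 1 ≤ ‖Q.coeff j‖) (hlow : ∀ i, 0 < i → i < j → Q.coeff i = 0)
    {c : ℤ} {f : ℤ[X]} (hirr : Irreducible f) {t1 : ℂ} (ht1 : t1 ∈ rts f) (hexc : ¬ ExcA c t1) :
    0.0021 ≤ Real.log |(f.leadingCoeff : ℝ)| + ((rts f).map fun t => G Q n (par c t)).sum := by
  have hf := hirr.ne_zero
  have hlead : 1 ≤ |f.leadingCoeff| := Int.one_le_abs (leadingCoeff_ne_zero.2 hf)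
  have hsum0 : 0 ≤ ((rts f).map fun t => G Q n (par c t)).sum :=
    Multiset.sum_nonneg fun x hx => by
      obtain ⟨y, _, rfl⟩ := Multiset.mem_map.1 hx
      exact h.G_nonneg _
  rcases eq_or_lt_of_le hlead with hl | hl
  swap
  · have h1 : (2 : ℝ) ≤ |(f.leadingCoeff : ℝ)| := by
      have : (2 : ℤ) ≤ |f.leadingCoeff| := hl
      exact_mod_cast this
    have h2 := Real.log_le_log (by norm_num) h1
    have h3 := Real.log_two_gt_d9
    linarith
  have hl1 : Real.log |(f.leadingCoeff : ℝ)| = 0 := by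
    have : |(f.leadingCoeff : ℝ)| = 1 := by exact_mod_cast hl.symm
    rw [this, Real.log_one]
  rw [hl1, zero_add]
  by_contra hcon
  push Not at hcon
  have hone : ∀ t ∈ rts f, G Q n (par c t) < 0.0021 := by
    intro t ht
    refine lt_of_le_of_lt ?_ hcon
    obtain ⟨S, hS⟩ := Multiset.exists_cons_of_mem ht
    rw [hS, Multiset.map_cons, Multiset.sum_cons]
    have h3 : 0 ≤ (S.map fun t => G Q n (par c t)).sum := Multiset.sum_nonneg fun x hx => by
      obtain ⟨y, _, rfl⟩ := Multiset.mem_map.1 hx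
      exact h.G_nonneg _
    linarith
  by_cases hzero : ∃ t ∈ rts f, ev (PC c) t = 0
  · obtain ⟨t, ht, hz⟩ := hzero
    have htf := (mem_rts hf).1 ht
    rcases PC_zero hz with h1 | h1
    · exact absurd (excA_all hirr htf h1 ((mem_rts hf).1 ht1)) hexc
    · obtain ⟨_, h3⟩ := h.sqrt_two_sum hj0 hjn hc hlow hirr htf h1
      linarith
  · push Not at hzero
    have h1 := res_ineq hf (PC_deg c) hzero
    rw [hl1, mul_zero, zero_add] at h1
    have h2 : ((rts f).map fun t => Real.log ‖ev (PC c) t‖).sum ≤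
        ((rts f).map fun _ => (-0.04 : ℝ)).sum := by
      apply Multiset.sum_map_le_sum_map
      intro t ht
      have hpos : 0 < ‖ev (PC c) t‖ := norm_pos_iff.2 (hzero t ht)
      have h2 : |t.im| ≤ 1.4143 := by
        by_contra hcon2
        push Not at hcon2
        have h3 := sqrt2_lt
        have h4 := h.par_large ha hj0 hjn hc hlow c (t := t) (by linarith)
        have hne : t ≠ starRingEnd ℂ t := by
          intro h5
          have h6 : t.im = 0 := Complex.conj_eq_iff_im.1 h5.symm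
          rw [h6, abs_zero] at hcon2
          norm_num at hcon2
        have h5 := sum_pair_le (R := rts f) (F := fun t => G Q n (par c t))
          (fun t => h.G_nonneg _) hne ht (conj_mem ht)
        simp only [h.G_par_conj ha] at h5
        linarith
      have h3 : |t.re - c| ≤ 0.00422 := by
        have h4 := h.im_small (par c t) (hone t ht).le
        rwa [par_im, abs_neg] at h4
      exact (Real.log_le_log hpos (PC_small c h2 h3)).trans log_096
    rw [Multiset.map_const', Multiset.sum_replicate, card_rts, nsmul_eq_mul] at h2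
    have h3 : 0 < f.natDegree := by
      rw [← card_rts]
      exact Multiset.card_pos_iff_exists_mem.2 ⟨t1, ht1⟩
    have h4 : (0 : ℝ) < f.natDegree := by exact_mod_cast h3
    linarith

end Pool.Agent.Run7.h80.Sym
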