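import Mathlib
import Pool.Agent.Run7.h80.Comp.Lau
import Pool.Agent.Run7.h80.Sym.Anti

/-!
# From irreducible polynomials to all polynomials
-/

set_option autoImplicit false

open Polynomial

namespace Pool.Agent.Run7.h80.Sym

open Pool.Agent.Run7.h80.Comp

/-- the logarithmic size -/
noncomputable def LL (w : ℂ → ℝ) (g : ℤ[X]) : ℝ :=
  Real.log |(g.leadingCoeff : ℝ)| + ((rts g).map w).sum

lemma rts_mul {f g : ℤ[X]} (hf : f ≠ 0) (hg : g ≠ 0) : rts (f * g) = rts f + rts g := by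
  rw [rts, Polynomial.map_mul, roots_mul]
  · rfl
  · exact mul_ne_zero ((Polynomial.map_ne_zero_iff inj).2 hf)
      ((Polynomial.map_ne_zero_iff inj).2 hg)

lemma LL_mul (w : ℂ → ℝ) {f g : ℤ[X]} (hf : f ≠ 0) (hg : g ≠ 0) :
    LL w (f * g) = LL w f + LL w g := by
  have h1 : (f.leadingCoeff : ℝ) ≠ 0 := by exact_mod_cast leadingCoeff_ne_zero.2 hf
  have h2 : (g.leadingCoeff : ℝ) ≠ 0 := by exact_mod_cast leadingCoeff_ne_zero.2 hg
  rw [LL, LL, LL, rts_mul hf hg, Multiset.map_add, Multiset.sum_add, leadingCoeff_mul]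
  push_cast
  rw [abs_mul, Real.log_mul (abs_ne_zero.2 h1) (abs_ne_zero.2 h2)]
  ring

lemma LL_nonneg {w : ℂ → ℝ} (hw : ∀ t, 0 ≤ w t) {g : ℤ[X]} (hg : g ≠ 0) : 0 ≤ LL w g := by
  have h1 : 0 ≤ Real.log |(g.leadingCoeff : ℝ)| := by
    apply Real.log_nonneg
    have := Int.one_le_abs (leadingCoeff_ne_zero.2 hg)
    exact_mod_cast this
  have h2 : 0 ≤ ((rts g).map w).sum := Multiset.sum_nonneg fun x hx => by
    obtain ⟨y, _, rfl⟩ := Multiset.mem_map.1 hx
    exact hw y
  exact add_nonneg h1 h2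

open Classical in
/-- the number of zeros which are not exceptional -/
noncomputable def cntE (E : ℂ → Prop) (g : ℤ[X]) : ℕ :=
  Multiset.card ((rts g).filter fun t => ¬ E t)

lemma cntE_mul (E : ℂ → Prop) {f g : ℤ[X]} (hf : f ≠ 0) (hg : g ≠ 0) :
    cntE E (f * g) = cntE E f + cntE E g := by
  rw [cntE, cntE, cntE, rts_mul hf hg, Multiset.filter_add, Multiset.card_add]

lemma cntE_le (E : ℂ → Prop) (g : ℤ[X]) : cntE E g ≤ g.natDegree := by
  classical
  rw [← card_rts, cntE]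
  exact Multiset.card_le_card (Multiset.filter_le _ _)

lemma exists_of_cnt_pos {E : ℂ → Prop} {g : ℤ[X]} (h : 0 < cntE E g) : ∃ t ∈ rts g, ¬ E t := by
  classical
  rw [cntE] at h
  obtain ⟨t, ht⟩ := Multiset.card_pos_iff_exists_mem.1 h
  exact ⟨t, (Multiset.mem_filter.1 ht).1, (Multiset.mem_filter.1 ht).2⟩

theorem glue {w : ℂ → ℝ} (hw : ∀ t, 0 ≤ w t) {E : ℂ → Prop} {κ γ : ℝ} (hκ : 0 ≤ κ)
    (h : ∀ f : ℤ[X], Irreducible f → ∀ t ∈ rts f, ¬ E t → f.natDegree * κ ≤ LL w f ∧ γ ≤ LL w f) :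
    ∀ g : ℤ[X], g ≠ 0 → cntE E g * κ ≤ LL w g ∧ (0 < cntE E g → γ ≤ LL w g) := by
  intro g
  induction g using WfDvdMonoid.induction_on_irreducible with
  | zero => exact fun h0 => absurd rfl h0
  | unit u hu =>
    intro h0
    have h1 : cntE E u = 0 := by
      have h2 := cntE_le E u
      have h3 := natDegree_eq_zero_of_isUnit hu
      omega
    rw [h1]
    refine ⟨?_, fun h2 => absurd h2 (lt_irrefl 0)⟩
    rw [Nat.cast_zero, zero_mul]
    exact LL_nonneg hw h0
  | mul g f hg0 hirr ih =>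
    intro _
    obtain ⟨i1, i2⟩ := ih hg0
    have hf0 := hirr.ne_zero
    rw [LL_mul w hf0 hg0, cntE_mul E hf0 hg0]
    have hn1 := LL_nonneg hw hf0
    have hn2 := LL_nonneg hw hg0
    rcases Nat.eq_zero_or_pos (cntE E f) with h0 | h0
    · rw [h0, zero_add]
      refine ⟨by linarith, fun h1 => ?_⟩
      have := i2 h1
      linarith
    · obtain ⟨t, ht, hE⟩ := exists_of_cnt_pos h0
      obtain ⟨j1, j2⟩ := h f hirr t ht hE
      refine ⟨?_, fun _ => by linarith⟩
      have h2 : (cntE E f : ℝ) ≤ f.natDegree := by exact_mod_cast cntE_le E f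
      have h3 := mul_le_mul_of_nonneg_right h2 hκ
      push_cast
      linarith

/-- the Mahler measure of the composition -/
lemma log_MM_pcomp {A B : ℤ[X]} {w : ℂ → ℝ} (hw : ∀ t : ℂ, 0 < (A.map (Int.castRingHom ℂ) -
      C t * B.map (Int.castRingHom ℂ)).mahlerMeasure ∧
    w t = Real.log (A.map (Int.castRingHom ℂ) - C t * B.map (Int.castRingHom ℂ)).mahlerMeasure)
    {g : ℤ[X]} (hg : g ≠ 0) : MM (pcomp g A B) = Real.exp (LL w g) := by
  have key : ∀ R : Multiset ℂ, (R.map fun t => (A.map (Int.castRingHom ℂ) -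
      C t * B.map (Int.castRingHom ℂ)).mahlerMeasure).prod = Real.exp (R.map w).sum := by
    intro R
    induction R using Multiset.induction_on with
    | empty => simp
    | cons a R ih =>
      rw [Multiset.map_cons, Multiset.prod_cons, Multiset.map_cons, Multiset.sum_cons,
        Real.exp_add, ih, (hw a).2, Real.exp_log (hw a).1]
  have h1 : 0 < |(g.leadingCoeff : ℝ)| := by
    rw [abs_pos]
    exact_mod_cast leadingCoeff_ne_zero.2 hg
  rw [MM_pcomp, LL, Real.exp_add, Real.exp_log h1]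
  congr 1
  exact key _

/-- the first nonzero coefficient -/
lemma exists_first {A : ℤ[X]} {n : ℕ} (h : ∃ i, 0 < i ∧ i < n ∧ A.coeff i ≠ 0) :
    ∃ j, 0 < j ∧ j < n ∧ A.coeff j ≠ 0 ∧ ∀ i, 0 < i → i < j → A.coeff i = 0 := by
  classical
  obtain ⟨h1, h2, h3⟩ := Nat.find_spec h
  refine ⟨Nat.find h, h1, h2, h3, ?_⟩
  intro i hi0 hi
  by_contra hne
  exact Nat.find_min h hi ⟨hi0, by omega, hne⟩

lemma one_le_norm_int {k : ℤ} (h : k ≠ 0) : 1 ≤ ‖(k : ℂ)‖ := by
  rw [Complex.norm_intCast]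
  exact_mod_cast Int.one_le_abs h

lemma exp_small {x : ℝ} {N : ℕ} {M : ℝ} (h : (2 : ℝ) ^ N ≤ M) (hx : x ≤ N * Real.log 2) :
    Real.exp x ≤ M := by
  refine le_trans ?_ h
  calc Real.exp x ≤ Real.exp (N * Real.log 2) := Real.exp_le_exp.2 hx
    _ = 2 ^ N := by
      rw [mul_comm, Real.exp_mul, Real.exp_log (by norm_num), Real.rpow_natCast]

/-- the case of a large leading coefficient -/
lemma large_case {A : ℤ[X]} {n : ℕ} (hd : A.natDegree = 2 * n) (hn : 0 < n)
    (hl : 2 ≤ |A.leadingCoeff|) {E : ℂ → Prop} {g : ℤ[X]} (hg : g ≠ 0) {γ : ℝ} (hγ : γ ≤ 0.0042) :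
    Real.exp (cntE E g / 400000) ≤ MM (pcomp g A (X ^ n)) ∧
    (0 < cntE E g → Real.exp γ ≤ MM (pcomp g A (X ^ n))) := by
  have h1 : (2 : ℝ) ^ g.natDegree ≤ MM (pcomp g A (X ^ n)) := by
    apply two_pow_le_pcomp _ hg
    intro t
    have h3 := leadingCoeff_le_mahlerMeasure
      (A.map (Int.castRingHom ℂ) - C t * (X ^ n : ℤ[X]).map (Int.castRingHom ℂ))
    rw [(pencil_natDegree (by omega) t).2, Complex.norm_intCast] at h3
    exact le_trans (by exact_mod_cast hl) h3
  have h2 : (cntE E g : ℝ) ≤ g.natDegree := by exact_mod_cast cntE_le E g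
  have h3 := Real.log_two_gt_d9
  have h5 : (0 : ℝ) ≤ cntE E g := Nat.cast_nonneg _
  constructor
  · apply exp_small h1
    nlinarith
  · intro h4
    apply exp_small h1
    have h6 : (1 : ℝ) ≤ cntE E g := by exact_mod_cast h4
    nlinarith

/-- **symmetric Laurent polynomials** -/
theorem symmetric {A : ℤ[X]} {n : ℕ} (hn : 0 < n) (hd : A.natDegree = 2 * n)
    (hs : A.reverse = A) (hmid : ∃ i, 0 < i ∧ i < n ∧ A.coeff i ≠ 0) {g : ℤ[X]} (hg : g ≠ 0) :
    Real.exp (cntE Exc g / 400000) ≤ MM (pcomp g A (X ^ n)) ∧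
    (0 < cntE Exc g → Real.exp 0.0042 ≤ MM (pcomp g A (X ^ n))) := by
  have hA0 : A ≠ 0 := by
    rintro rfl
    rw [natDegree_zero] at hd
    omega
  have hlc := leadingCoeff_ne_zero.2 hA0
  rcases le_or_gt 2 |A.leadingCoeff| with hl | hl
  · exact large_case hd hn hl hg le_rfl
  have hl1 : |A.leadingCoeff| = 1 := by
    have := Int.one_le_abs hlc
    omega
  have hsym : ∀ i ≤ 2 * n, A.coeff (2 * n - i) = A.coeff i := by
    intro i hi
    have h1 : A.reverse.coeff i = A.coeff (2 * n - i) := by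
      rw [coeff_reverse, hd, revAt_le hi]
    rw [← h1, hs]
  set Q : ℂ[X] := A.map (Int.castRingHom ℂ) with hQ
  have hQc : ∀ i, Q.coeff i = (A.coeff i : ℂ) := fun i => by
    rw [hQ, coeff_map]
    rfl
  have hSI : SI Q n :=
    { deg := by rw [hQ, natDegree_map_eq_of_injective inj, hd]
      npos := hn
      sym := fun i hi => by
        rw [hQc, hQc, hsym i hi, map_intCast]
      one := by
        rw [hQc, ← hsym 0 (by omega), Nat.sub_zero, ← hd]
        change ‖(A.leadingCoeff : ℂ)‖ = 1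
        rw [Complex.norm_intCast]
        exact_mod_cast hl1 }
  obtain ⟨j, hj0, hjn, hj, hlow⟩ := exists_first hmid
  have hc : 1 ≤ ‖Q.coeff j‖ := by
    rw [hQc]
    exact one_le_norm_int hj
  have hlow' : ∀ i, 0 < i → i < j → Q.coeff i = 0 := fun i h0 h1 => by
    rw [hQc, hlow i h0 h1, Int.cast_zero]
  have hpen : ∀ t : ℂ, Q - C t * (X ^ n : ℤ[X]).map (Int.castRingHom ℂ) = pen Q n t := by
    intro t
    rw [pen, Polynomial.map_pow, map_X]
  have hMM := log_MM_pcomp (A := A) (B := X ^ n) (w := fun t => G Q n t) (by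
    intro t
    rw [← hQ, hpen]
    exact ⟨hSI.mahler_pos t, rfl⟩) hg
  obtain ⟨g1, g2⟩ := glue (w := fun t => G Q n t) hSI.G_nonneg (E := Exc) (κ := 1 / 400000)
    (γ := 0.0042) (by norm_num) (by
      intro f hirr t ht hE
      refine ⟨?_, hSI.core_gap hj0 hjn hc hlow' hirr ht hE⟩
      have := hSI.core_exp hj0 hjn hc hlow' hirr ht hE
      rw [LL]
      linarith) g hg
  rw [hMM]
  refine ⟨Real.exp_le_exp.2 (by linarith), fun h0 => Real.exp_le_exp.2 (g2 h0)⟩

/-- **antisymmetric Laurent polynomials** -/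
theorem antisymmetric {A : ℤ[X]} {n : ℕ} (hn : 0 < n) (hd : A.natDegree = 2 * n) {c : ℤ}
    (hs : A.reverse = C c * X ^ n - A) (hmid : ∃ i, 0 < i ∧ i < n ∧ A.coeff i ≠ 0) {g : ℤ[X]}
    (hg : g ≠ 0) :
    Real.exp (cntE (ExcA (A.coeff n)) g / 400000) ≤ MM (pcomp g A (X ^ n)) ∧
    (0 < cntE (ExcA (A.coeff n)) g → Real.exp 0.0021 ≤ MM (pcomp g A (X ^ n))) := by
  have hA0 : A ≠ 0 := by
    rintro rfl
    rw [natDegree_zero] at hd
    omega
  have hlc := leadingCoeff_ne_zero.2 hA0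
  rcases le_or_gt 2 |A.leadingCoeff| with hl | hl
  · exact large_case hd hn hl hg (by norm_num)
  have hl1 : |A.leadingCoeff| = 1 := by
    have := Int.one_le_abs hlc
    omega
  have hsym : ∀ i ≤ 2 * n, A.coeff (2 * n - i) = (if i = n then c else 0) - A.coeff i := by
    intro i hi
    have h1 : A.reverse.coeff i = A.coeff (2 * n - i) := by
      rw [coeff_reverse, hd, revAt_le hi]
    rw [← h1, hs, coeff_sub, coeff_C_mul, coeff_X_pow]
    split_ifs <;> simp
  have hcn : c = 2 * A.coeff n := by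
    have h1 := hsym n (by omega)
    rw [if_pos rfl, show 2 * n - n = n by omega] at h1
    omega
  set B : ℂ[X] := A.map (Int.castRingHom ℂ) with hB
  have hBc : ∀ i, B.coeff i = (A.coeff i : ℂ) := fun i => by
    rw [hB, coeff_map]
    rfl
  set Q : ℂ[X] := C (-Complex.I) * (B - C (A.coeff n : ℂ) * X ^ n) with hQ
  have hQc : ∀ i, Q.coeff i = -Complex.I * ((A.coeff i : ℂ) - if i = n then (A.coeff n : ℂ)
      else 0) := by
    intro i
    rw [hQ, coeff_C_mul, coeff_sub, hBc, coeff_C_mul, coeff_X_pow]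
    split_ifs <;> simp
  have hanti : ∀ i ≤ 2 * n, Q.coeff (2 * n - i) = -Q.coeff i := by
    intro i hi
    rw [hQc, hQc, hsym i hi, hcn]
    by_cases h1 : i = n
    · rw [if_pos h1, if_pos h1, if_pos (by omega), h1]
      push_cast
      ring
    · rw [if_neg h1, if_neg h1, if_neg (by omega)]
      push_cast
      ring
  have hone : ‖Q.coeff 0‖ = 1 := by
    rw [hQc, if_neg (by omega), sub_zero, norm_mul, norm_neg, Complex.norm_I, one_mul,
      Complex.norm_intCast]
    have h1 := hsym 0 (by omega)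
    rw [if_neg (by omega), Nat.sub_zero, ← hd] at h1
    have h2 : |A.coeff 0| = 1 := by
      have h3 : A.coeff 0 = -A.leadingCoeff := by
        rw [leadingCoeff]
        omega
      rw [h3, abs_neg, hl1]
    exact_mod_cast h2
  have hQd : Q.natDegree = 2 * n := by
    have h2 : Q.coeff (2 * n) ≠ 0 := by
      have h3 := hanti 0 (by omega)
      rw [Nat.sub_zero] at h3
      rw [h3, neg_ne_zero]
      intro h4
      rw [h4] at hone
      simp at hone
    apply le_antisymm _ (le_natDegree_of_ne_zero h2)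
    rw [natDegree_le_iff_coeff_eq_zero]
    intro i hi
    rw [hQc, if_neg (by omega), coeff_eq_zero_of_natDegree_lt (by omega)]
    simp
  have hSI : SI Q n :=
    { deg := hQd
      npos := hn
      sym := fun i hi => by
        rw [hanti i hi, hQc, map_mul, map_neg, Complex.conj_I, map_sub, map_intCast]
        split_ifs
        · rw [map_intCast]
          ring
        · rw [map_zero]
          ring
      one := hone }
  obtain ⟨j, hj0, hjn, hj, hlow⟩ := exists_first hmid
  have hc : 1 ≤ ‖Q.coeff j‖ := by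
    rw [hQc, if_neg (by omega), sub_zero, norm_mul, norm_neg, Complex.norm_I, one_mul]
    exact one_le_norm_int hj
  have hlow' : ∀ i, 0 < i → i < j → Q.coeff i = 0 := fun i h0 h1 => by
    rw [hQc, if_neg (by omega), hlow i h0 h1, Int.cast_zero, sub_zero, mul_zero]
  have hpen : ∀ t : ℂ, (B - C t * (X ^ n : ℤ[X]).map (Int.castRingHom ℂ)).mahlerMeasure =
      (pen Q n (par (A.coeff n) t)).mahlerMeasure := by
    intro t
    have h1 : pen Q n (par (A.coeff n) t) =
        C (-Complex.I) * (B - C t * (X ^ n : ℤ[X]).map (Int.castRingHom ℂ)) := by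
      rw [pen, par, hQ, Polynomial.map_pow, map_X, C_mul, C_sub]
      ring
    rw [h1, mahlerMeasure_mul, mahlerMeasure_const, norm_neg, Complex.norm_I, one_mul]
  have hMM := log_MM_pcomp (A := A) (B := X ^ n) (w := fun t => G Q n (par (A.coeff n) t)) (by
    intro t
    rw [← hB, hpen]
    exact ⟨hSI.mahler_pos _, rfl⟩) hg
  obtain ⟨g1, g2⟩ := glue (w := fun t => G Q n (par (A.coeff n) t)) (fun t => hSI.G_nonneg _)
    (E := ExcA (A.coeff n)) (κ := 1 / 400000)
    (γ := 0.0021) (by norm_num) (by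
      intro f hirr t ht hE
      refine ⟨?_, hSI.anti_gap hanti hj0 hjn hc hlow' hirr ht hE⟩
      have := hSI.anti_exp hanti hj0 hjn hc hlow' hirr ht hE
      rw [LL]
      linarith) g hg
  rw [hMM]
  refine ⟨Real.exp_le_exp.2 (by linarith), fun h0 => Real.exp_le_exp.2 (g2 h0)⟩

end Pool.Agent.Run7.h80.Sym
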