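import Mathlib
import Pool.Agent.Run7.h80.Sym.Glue

/-!
# Finitely many exceptional numbers in the symmetric case
-/

set_option autoImplicit false

open Polynomial

namespace Pool.Agent.Run7.h80.Sym

open Pool.Agent.Run7.h80.Comp

lemma le_LL {w : ℂ → ℝ} (hw : ∀ t, 0 ≤ w t) {f : ℤ[X]} (hf : f ≠ 0) {t : ℂ} (ht : t ∈ rts f) :
    w t ≤ LL w f := by
  have h1 : 0 ≤ Real.log |(f.leadingCoeff : ℝ)| := by
    apply Real.log_nonneg
    have := Int.one_le_abs (leadingCoeff_ne_zero.2 hf)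
    exact_mod_cast this
  obtain ⟨S, hS⟩ := Multiset.exists_cons_of_mem ht
  rw [LL, hS, Multiset.map_cons, Multiset.sum_cons]
  have h3 : 0 ≤ (S.map w).sum := Multiset.sum_nonneg fun x hx => by
    obtain ⟨y, _, rfl⟩ := Multiset.mem_map.1 hx
    exact hw _
  linarith

lemma cntE_mono {E F : ℂ → Prop} (h : ∀ t, F t → E t) (g : ℤ[X]) : cntE E g ≤ cntE F g := by
  classical
  rw [cntE, cntE]
  apply Multiset.card_le_card
  apply Multiset.monotone_filter_right
  intro t ht hF
  exact ht (h t hF)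

/-- the quadratic equation -/
def D5 (m : ℤ) (t : ℂ) : Prop := t ^ 2 - (2 * m + 1) * t + (m ^ 2 + m - 1) = 0

lemma sqrt5_bounds : 2.236 < √5 ∧ √5 < 2.237 := by
  constructor
  · rw [Real.lt_sqrt (by norm_num)]
    norm_num
  · rw [Real.sqrt_lt' (by norm_num)]
    norm_num

lemma D5_root (m : ℤ) {ε : ℝ} (hε : ε = 1 ∨ ε = -1) :
    D5 m (((m : ℝ) + 1 / 2 + ε * √5 / 2 : ℝ) : ℂ) := by
  have h5 : √5 * √5 = 5 := Real.mul_self_sqrt (by norm_num)
  have hε2 : ε * ε = 1 := by rcases hε with rfl | rfl <;> norm_num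
  have h : ((m : ℝ) + 1 / 2 + ε * √5 / 2) ^ 2 - (2 * m + 1) * ((m : ℝ) + 1 / 2 + ε * √5 / 2) +
      (m ^ 2 + m - 1) = 0 := by
    linear_combination (ε * ε / 4) * h5 + (5 / 4) * hε2
  rw [D5]
  exact_mod_cast congrArg (fun v : ℝ => (v : ℂ)) h

lemma D5_not_int {m k : ℤ} (h : D5 m (k : ℂ)) : False := by
  have h1 : k ^ 2 - (2 * m + 1) * k + (m ^ 2 + m - 1) = 0 := by
    rw [D5] at h
    exact_mod_cast h
  have h2 : (2 * k - 2 * m - 1) ^ 2 = 5 := by linear_combination 4 * h1
  have h3 : 2 * k - 2 * m - 1 < 3 := by nlinarith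
  have h4 : -3 < 2 * k - 2 * m - 1 := by nlinarith
  generalize 2 * k - 2 * m - 1 = x at h2 h3 h4
  interval_cases x <;> omega

/-- the exceptional numbers with a small value of the height -/
def Small (w : ℂ → ℝ) (t : ℂ) : Prop :=
  (∃ k : ℤ, t = k ∧ w t ≤ 0.002) ∨ ∃ m : ℤ, D5 m t ∧ ∀ s, D5 m s → w s ≤ 0.002

lemma small_cover {w : ℂ → ℝ}
    (hclose : ∀ a b : ℝ, w a ≤ 0.002 → w b ≤ 0.002 → b - a < 2 * √2) :
    ∃ k m : ℤ, ∀ t, Small w t →
      t = k - 1 ∨ t = k ∨ t = k + 1 ∨ t ^ 2 - (2 * m + 1) * t + (m ^ 2 + m - 1) = 0 := by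
  have hs := sqrt2_lt
  obtain ⟨k, hk⟩ : ∃ k : ℤ, ∀ z : ℤ, w (z : ℂ) ≤ 0.002 → k - 1 ≤ z ∧ z ≤ k + 1 := by
    by_cases hex : ∃ z : ℤ, w (z : ℂ) ≤ 0.002
    · obtain ⟨z0, hz0⟩ := hex
      have hcl : ∀ a b : ℤ, w (a : ℂ) ≤ 0.002 → w (b : ℂ) ≤ 0.002 → b ≤ a + 2 := by
        intro a b ha hb
        have h1 := hclose (a : ℝ) (b : ℝ) (by push_cast; exact ha) (by push_cast; exact hb)
        have h2 : ((b - a : ℤ) : ℝ) < 3 := by
          push_cast
          linarith
        have h3 : b - a < 3 := by exact_mod_cast h2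
        omega
      obtain ⟨l, hl, hmin⟩ := Int.exists_least_of_bdd (P := fun z : ℤ => w (z : ℂ) ≤ 0.002)
        ⟨z0 - 2, fun z hz => by
          have := hcl z z0 hz hz0
          omega⟩ ⟨z0, hz0⟩
      refine ⟨l + 1, fun z hz => ⟨?_, ?_⟩⟩
      · have := hmin z hz
        omega
      · have := hcl l z hl hz
        omega
    · exact ⟨0, fun z hz => absurd ⟨z, hz⟩ hex⟩
  obtain ⟨m, hm⟩ : ∃ m : ℤ, ∀ m' : ℤ, (∀ s, D5 m' s → w s ≤ 0.002) → m' = m := by
    by_cases hex : ∃ m : ℤ, ∀ s, D5 m s → w s ≤ 0.002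
    · obtain ⟨m, hm⟩ := hex
      refine ⟨m, fun m' hm' => ?_⟩
      have h5 := sqrt5_bounds
      have key : ∀ a b : ℤ, (∀ s, D5 a s → w s ≤ 0.002) → (∀ s, D5 b s → w s ≤ 0.002) →
          b ≤ a := by
        intro a b ha hb
        have h1 := hclose _ _ (ha _ (D5_root a (Or.inr rfl))) (hb _ (D5_root b (Or.inl rfl)))
        have h2 : ((b - a : ℤ) : ℝ) < 1 := by
          push_cast
          linarith [h5.1]
        have h3 : b - a < 1 := by exact_mod_cast h2
        omega
      exact le_antisymm (key m m' hm hm') (key m' m hm' hm)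
    · exact ⟨0, fun m' hm' => absurd ⟨m', hm'⟩ hex⟩
  refine ⟨k, m, fun t ht => ?_⟩
  rcases ht with ⟨z, rfl, hz⟩ | ⟨m', h1, h2⟩
  · obtain ⟨h1, h2⟩ := hk z hz
    have h3 : z = k - 1 ∨ z = k ∨ z = k + 1 := by omega
    rcases h3 with rfl | rfl | rfl
    · left
      push_cast
      ring
    · right
      left
      rfl
    · right
      right
      left
      push_cast
      ring
  · right
    right
    right
    rw [← hm m' h2]
    exact h1

/-- **symmetric Laurent polynomials: at most five exceptional numbers** -/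
theorem symmetric' {A : ℤ[X]} {n : ℕ} (hn : 0 < n) (hd : A.natDegree = 2 * n)
    (hs : A.reverse = A) (hmid : ∃ i, 0 < i ∧ i < n ∧ A.coeff i ≠ 0) :
    ∃ k m : ℤ, ∀ g : ℤ[X], g ≠ 0 →
    Real.exp (cntE (fun t => t = k - 1 ∨ t = k ∨ t = k + 1 ∨
      t ^ 2 - (2 * m + 1) * t + (m ^ 2 + m - 1) = 0) g / 400000) ≤ MM (pcomp g A (X ^ n)) ∧
    (0 < cntE (fun t => t = k - 1 ∨ t = k ∨ t = k + 1 ∨
      t ^ 2 - (2 * m + 1) * t + (m ^ 2 + m - 1) = 0) g →
      Real.exp 0.002 ≤ MM (pcomp g A (X ^ n))) := by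
  have hA0 : A ≠ 0 := by
    rintro rfl
    rw [natDegree_zero] at hd
    omega
  have hlc := leadingCoeff_ne_zero.2 hA0
  rcases le_or_gt 2 |A.leadingCoeff| with hl | hl
  · exact ⟨0, 0, fun g hg => large_case hd hn hl hg (by norm_num)⟩
  have hl1 : |A.leadingCoeff| = 1 := by
    have := Int.one_le_abs hlc
    omega
  have hsym : ∀ i ≤ 2 * n, A.coeff (2 * n - i) = A.coeff i := by
    intro i hi
    have h1 : A.reverse.coeff i = A.coeff (2 * n - i) := by
      rw [coeff_reverse, hd, revAt_le hi]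
    rw [← h1, hs]
  set Q : ℂ[X] := A.map (Int.castRingHom ℂ) with hQ
  have hQc : ∀ i, Q.coeff i = (A.coeff i : ℂ) := fun i => by
    rw [hQ, coeff_map]
    rfl
  have hSI : SI Q n :=
    { deg := by rw [hQ, natDegree_map_eq_of_injective inj, hd]
      npos := hn
      sym := fun i hi => by
        rw [hQc, hQc, hsym i hi, map_intCast]
      one := by
        rw [hQc, ← hsym 0 (by omega), Nat.sub_zero, ← hd]
        change ‖(A.leadingCoeff : ℂ)‖ = 1
        rw [Complex.norm_intCast]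
        exact_mod_cast hl1 }
  obtain ⟨j, hj0, hjn, hj, hlow⟩ := exists_first hmid
  have hc : 1 ≤ ‖Q.coeff j‖ := by
    rw [hQc]
    exact one_le_norm_int hj
  have hlow' : ∀ i, 0 < i → i < j → Q.coeff i = 0 := fun i h0 h1 => by
    rw [hQc, hlow i h0 h1, Int.cast_zero]
  have hpen : ∀ t : ℂ, Q - C t * (X ^ n : ℤ[X]).map (Int.castRingHom ℂ) = pen Q n t := by
    intro t
    rw [pen, Polynomial.map_pow, map_X]
  obtain ⟨k, m, hkm⟩ := small_cover (w := fun t => G Q n t) (by
    intro a b ha hb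
    by_contra hcon
    push Not at hcon
    have := hSI.G_long hj0 hjn hc hlow' hcon
    linarith)
  refine ⟨k, m, fun g hg => ?_⟩
  have hMM := log_MM_pcomp (A := A) (B := X ^ n) (w := fun t => G Q n t) (by
    intro t
    rw [← hQ, hpen]
    exact ⟨hSI.mahler_pos t, rfl⟩) hg
  obtain ⟨g1, g2⟩ := glue (w := fun t => G Q n t) hSI.G_nonneg (E := Small fun t => G Q n t)
    (κ := 1 / 400000) (γ := 0.002) (by norm_num) (by
      intro f hirr t ht hE
      have hf := hirr.ne_zero
      have htf := (mem_rts hf).1 ht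
      by_cases hexc : Exc t
      · have hwn := fun s hs => le_LL (w := fun t => G Q n t) hSI.G_nonneg hf (t := s) hs
        rcases hexc with ⟨z, hz⟩ | ⟨m', hm'⟩
        · have h1 : 0.002 < G Q n t := by
            by_contra hcon
            push Not at hcon
            exact hE (Or.inl ⟨z, hz, hcon⟩)
          have h2 := hwn t ht
          have h3 := dvd_of_root hirr (monic_X_sub_C z) (hz ▸ htf) (by simp [ev])
          have h4 := natDegree_le_of_dvd h3 (monic_X_sub_C z).ne_zero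
          rw [natDegree_X_sub_C] at h4
          have h5 : (f.natDegree : ℝ) ≤ 1 := by exact_mod_cast h4
          constructor <;> linarith
        · obtain ⟨s, hs, hs2⟩ : ∃ s, D5 m' s ∧ 0.002 < G Q n s := by
            by_contra hcon
            push Not at hcon
            exact hE (Or.inr ⟨m', hm', hcon⟩)
          obtain ⟨h1, h2⟩ := quad_dvd (b := -(2 * m' + 1)) (c := m' ^ 2 + m' - 1) hirr htf (by
            push_cast
            linear_combination hm') (by
            rintro z rfl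
            exact D5_not_int hm')
          have h3 : ev f s = 0 := by
            apply h2
            rw [D5] at hs
            push_cast
            linear_combination hs
          have h4 := hwn s ((mem_rts hf).2 h3)
          rw [h1]
          push_cast
          constructor <;> linarith
      · have h1 := hSI.core_exp hj0 hjn hc hlow' hirr ht hexc
        have h2 := hSI.core_gap hj0 hjn hc hlow' hirr ht hexc
        rw [LL]
        constructor <;> linarith) g hg
  have hmono := cntE_mono (E := fun t => t = k - 1 ∨ t = k ∨ t = k + 1 ∨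
      t ^ 2 - (2 * m + 1) * t + (m ^ 2 + m - 1) = 0) (F := Small fun t => G Q n t) hkm g
  have hmono' : (cntE (fun t => t = k - 1 ∨ t = k ∨ t = k + 1 ∨
      t ^ 2 - (2 * m + 1) * t + (m ^ 2 + m - 1) = 0) g : ℝ) ≤
      cntE (Small fun t => G Q n t) g := by exact_mod_cast hmono
  rw [hMM]
  refine ⟨Real.exp_le_exp.2 (by linarith), fun h0 => Real.exp_le_exp.2 (g2 (by omega))⟩

end Pool.Agent.Run7.h80.Sym
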