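import Mathlib
import Pool.Agent.Run7.h80.Sym.Finite

/-!
# Composition with arbitrary Laurent polynomials
-/

set_option autoImplicit false

open Polynomial

namespace Pool.Agent.Run7.h80.Sym

open Pool.Agent.Run7.h80.Comp

/-- Laurent polynomials with integer coefficients -/
abbrev LP : Type := LaurentPolynomial ℤ

lemma T_ne (k : ℤ) : (LaurentPolynomial.T k : LP) ≠ 0 := (LaurentPolynomial.isUnit_T k).ne_zero

lemma MM_eq_of_T {F P : ℤ[X]} {k : ℤ}
    (h : toLaurent F = (LaurentPolynomial.T k : LP) * toLaurent P) : MM F = MM P := by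
  obtain ⟨a, b, hab⟩ : ∃ a b : ℕ, k = a - b := ⟨k.toNat, (-k).toNat, by omega⟩
  have h1 : X ^ b * F = X ^ a * P := by
    apply toLaurent_injective
    rw [map_mul, map_mul, toLaurent_X_pow, toLaurent_X_pow, h, ← mul_assoc,
      ← LaurentPolynomial.T_add]
    congr 2
    omega
  have h2 := congrArg MM h1
  rwa [MM_mul, MM_mul, MM_X_pow, MM_X_pow, one_mul, one_mul] at h2

open Classical in
/-- the number of zeros outside a finite set of complex numbers -/
noncomputable def outE (g : ℤ[X]) (E : Finset ℂ) : ℕ :=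
  Multiset.card ((g.map (Int.castRingHom ℂ)).roots.filter fun z => z ∉ E)

lemma outE_le (g : ℤ[X]) (E : Finset ℂ) {F : ℂ → Prop} (h : ∀ t, F t → t ∈ E) :
    outE g E ≤ cntE F g := by
  classical
  rw [cntE, outE]
  apply Multiset.card_le_card
  apply Multiset.monotone_filter_right
  intro t ht hF
  exact ht (h t hF)

lemma outE_le' (g : ℤ[X]) (s : Finset ℚ) :
    outE g (s.image fun q : ℚ => (q : ℂ)) ≤ outside g s := by
  classical
  rw [outside, outE]
  apply Multiset.card_le_card
  apply Multiset.monotone_filter_right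
  intro t ht c hc htc
  apply ht
  rw [Finset.mem_image]
  exact ⟨c, hc, htc.symm⟩

/-- algebraic numbers of degree at most two -/
def LowDeg (E : Finset ℂ) : Prop :=
  E.card ≤ 5 ∧ ∀ e ∈ E, ∃ q : ℤ[X], q ≠ 0 ∧ q.natDegree ≤ 2 ∧ aeval e q = 0

/-- the bound for a Laurent polynomial -/
def Bd (h : LP) (E : Finset ℂ) : Prop :=
  ∀ (g F : ℤ[X]) (k : ℤ), g ≠ 0 → toLaurent F = LaurentPolynomial.T k * aeval h g →
    Real.exp (outE g E / 400000) ≤ MM F ∧ (0 < outE g E → 1.002 ≤ MM F)

lemma lowDeg_image {s : Finset ℚ} (hs : s.card ≤ 2) :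
    LowDeg (s.image fun q : ℚ => (q : ℂ)) := by
  refine ⟨(Finset.card_image_le.trans hs).trans (by norm_num), ?_⟩
  intro e he
  obtain ⟨c, _, rfl⟩ := Finset.mem_image.1 he
  refine ⟨lin c, lin_ne_zero c, by rw [lin_natDegree]; norm_num, ?_⟩
  have h1 : (c.num : ℂ) = c * c.den := by
    have := Rat.mul_den_eq_num c
    exact_mod_cast this.symm
  rw [lin]
  simp [h1]
  ring

lemma golden_log : 0.4 ≤ Real.log Real.goldenRatio := by
  rw [Real.le_log_iff_exp_le Real.goldenRatio_pos]
  have h1 : Real.exp 0.4 ≤ 1.6 := by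
    have h2 : Real.exp 0.4 = Real.exp 0.2 * Real.exp 0.2 := by
      rw [← Real.exp_add]
      norm_num
    have h3 := Real.abs_exp_sub_one_sub_id_le (x := (0.2 : ℝ)) (by
      rw [abs_of_nonneg] <;> norm_num)
    have h4 := abs_le.1 h3
    have h5 : Real.exp 0.2 ≤ 1.24 := by
      norm_num at h4 ⊢
      linarith [h4.2]
    rw [h2]
    nlinarith [Real.exp_pos 0.2]
  have h6 : (1.6 : ℝ) ≤ Real.goldenRatio := by
    have h7 := sqrt5_bounds
    rw [golden_eq]
    linarith [h7.1]
  linarith

/-- the golden bound implies the uniform bound -/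
lemma of_golden {N : ℕ} {x : ℝ} (hx : 1 ≤ x) (h : Real.goldenRatio ^ N ≤ x ^ 2) :
    Real.exp (N / 400000) ≤ x ∧ (0 < N → 1.002 ≤ x) := by
  have hx0 : 0 < x := by linarith
  have h1 : N * Real.log Real.goldenRatio ≤ 2 * Real.log x := by
    have h2 := Real.log_le_log (pow_pos Real.goldenRatio_pos N) h
    rw [Real.log_pow, Real.log_pow] at h2
    exact_mod_cast h2
  have h3 := golden_log
  have h4 : (0 : ℝ) ≤ N := Nat.cast_nonneg N
  have h5 : N * 0.4 ≤ N * Real.log Real.goldenRatio := mul_le_mul_of_nonneg_left h3 h4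
  constructor
  · rw [← Real.le_log_iff_exp_le hx0]
    linarith
  · intro hN
    have h6 : (1 : ℝ) ≤ N := by exact_mod_cast hN
    have h7 : 0.2 ≤ Real.log x := by linarith
    rw [Real.le_log_iff_exp_le hx0] at h7
    have h8 := Real.add_one_le_exp (0.2 : ℝ)
    linarith

lemma exp_002 : 1.002 ≤ Real.exp 0.002 := by
  have := Real.add_one_le_exp (0.002 : ℝ)
  linarith

lemma toLaurent_ne {F : ℤ[X]} {h : LP} {g : ℤ[X]} {k : ℤ}
    (hF : toLaurent F = LaurentPolynomial.T k * aeval h g) (h0 : aeval h g ≠ 0) : F ≠ 0 := by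
  rintro rfl
  rw [map_zero] at hF
  exact mul_ne_zero (T_ne k) h0 hF.symm

/-- polynomials -/
lemma bd_poly {h : LP} {B : ℤ[X]} (hB : h = toLaurent B)
    (hh : ∀ (a c : ℤ) (m : ℕ), B ≠ C a * X ^ m + C c) : ∃ E, LowDeg E ∧ Bd h E := by
  obtain ⟨s, hs, _, hb⟩ := comp_bound B hh
  refine ⟨_, lowDeg_image hs, ?_⟩
  intro g F k hg hF
  have h1 : aeval h g = toLaurent (g.comp B) := by
    rw [hB, comp_eq_aeval, ← toLaurentAlg_apply, aeval_algHom_apply, toLaurentAlg_apply]
  have h2 : MM F = MM (g.comp B) := MM_eq_of_T (by rw [hF, h1])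
  have h3 := hb g hg
  rw [← h2] at h3
  have h4 : Real.goldenRatio ^ outE g (s.image fun q : ℚ => (q : ℂ)) ≤ MM F ^ 2 :=
    (golden_pow_mono (outE_le' g s)).trans h3
  have h5 : g.comp B ≠ 0 := comp_ne_zero hg (natDegree_ne_zero hh)
  exact of_golden (by rw [h2]; exact one_le_MM h5) h4

/-- inversion of the variable -/
lemma bd_invert {h : LP} {E : Finset ℂ} (hb : Bd (LaurentPolynomial.invert h) E) : Bd h E := by
  intro g F k hg hF
  have h1 : toLaurent F.reverse = (LaurentPolynomial.T (F.natDegree - k) : LP) *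
      aeval (LaurentPolynomial.invert h) g := by
    rw [LaurentPolynomial.toLaurent_reverse, hF, map_mul, LaurentPolynomial.invert_T]
    have h2 : LaurentPolynomial.invert (aeval h g) = aeval (LaurentPolynomial.invert h) g :=
      (aeval_algHom_apply (LaurentPolynomial.invert (R := ℤ)).toAlgHom h g).symm
    rw [h2, mul_right_comm, ← LaurentPolynomial.T_add]
    congr 2
    ring
  have h2 := hb g F.reverse _ hg h1
  have h3 : MM F.reverse = MM F := by
    rw [MM, MM, ← mahlerMeasure_reverse (F.map (Int.castRingHom ℂ))]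
    congr 1
    ext j
    rw [coeff_map, coeff_reverse, coeff_reverse, natDegree_map_eq_of_injective inj, coeff_map]
  rwa [h3] at h2

lemma toLaurent_pcomp {h : LP} {A : ℤ[X]} {n : ℕ}
    (hA : toLaurent A = (LaurentPolynomial.T n : LP) * h) (g : ℤ[X]) :
    toLaurent (pcomp g A (X ^ n)) =
      (LaurentPolynomial.T (g.natDegree * n) : LP) * aeval h g := by
  rw [map_pcomp, hA, toLaurent_X_pow, pcomp, aeval_eq_sum_range, Finset.mul_sum]
  refine Finset.sum_congr rfl fun j hj => ?_
  have hj' : j ≤ g.natDegree := by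
    have := Finset.mem_range.1 hj
    omega
  have e : (LaurentPolynomial.T (g.natDegree * n) : LP) =
      LaurentPolynomial.T n ^ j * LaurentPolynomial.T n ^ (g.natDegree - j) := by
    rw [← pow_add, LaurentPolynomial.T_pow]
    congr 2
    push_cast [Nat.cast_sub hj']
    ring
  rw [e, mul_pow, zsmul_eq_mul]
  ring

lemma bd_of_pcomp {h : LP} {A : ℤ[X]} {n : ℕ}
    (hA : toLaurent A = (LaurentPolynomial.T n : LP) * h) {E : Finset ℂ}
    (hb : ∀ g : ℤ[X], g ≠ 0 → Real.exp (outE g E / 400000) ≤ MM (pcomp g A (X ^ n)) ∧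
      (0 < outE g E → 1.002 ≤ MM (pcomp g A (X ^ n)))) : Bd h E := by
  intro g F k hg hF
  have h1 : MM F = MM (pcomp g A (X ^ n)) := by
    apply MM_eq_of_T (k := k - g.natDegree * n)
    rw [toLaurent_pcomp hA, hF, ← mul_assoc, ← LaurentPolynomial.T_add]
    congr 2
    ring
  rw [h1]
  exact hb g hg

/-- three consecutive integers and the zeros of a quadratic polynomial -/
lemma five (k m : ℤ) : ∃ E : Finset ℂ, LowDeg E ∧ ∀ t : ℂ, (t = k - 1 ∨ t = k ∨ t = k + 1 ∨
    t ^ 2 - (2 * m + 1) * t + (m ^ 2 + m - 1) = 0) → t ∈ E := by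
  classical
  set r : ℂ := m + 1 / 2 + √5 / 2 with hr
  set s : ℂ := m + 1 / 2 - √5 / 2 with hs
  have h5 : (√5 : ℂ) * √5 = 5 := by
    have : (√5 : ℝ) * √5 = 5 := Real.mul_self_sqrt (by norm_num)
    exact_mod_cast congrArg (fun v : ℝ => (v : ℂ)) this
  have hfac : ∀ t : ℂ, t ^ 2 - (2 * m + 1) * t + (m ^ 2 + m - 1) = (t - r) * (t - s) := by
    intro t
    rw [hr, hs]
    linear_combination (1 / 4 : ℂ) * h5
  refine ⟨{(k : ℂ) - 1, (k : ℂ), (k : ℂ) + 1, r, s}, ⟨Finset.card_le_five, ?_⟩, ?_⟩
  · intro e he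
    have hq : ∀ z : ℤ, e = z → ∃ q : ℤ[X], q ≠ 0 ∧ q.natDegree ≤ 2 ∧ aeval e q = 0 := by
      intro z hz
      refine ⟨X - C z, (monic_X_sub_C z).ne_zero, by rw [natDegree_X_sub_C]; norm_num, ?_⟩
      rw [hz]
      simp
    have hq2 : e ^ 2 - (2 * m + 1) * e + (m ^ 2 + m - 1) = 0 →
        ∃ q : ℤ[X], q ≠ 0 ∧ q.natDegree ≤ 2 ∧ aeval e q = 0 := by
      intro h0
      obtain ⟨q1, q2⟩ := monic_quad (-(2 * m + 1)) (m ^ 2 + m - 1)
      refine ⟨_, q1.ne_zero, q2.le, ?_⟩
      simp only [map_add, map_mul, map_pow, aeval_X, aeval_C]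
      push_cast [algebraMap_int_eq, eq_intCast]
      linear_combination h0
    simp only [Finset.mem_insert, Finset.mem_singleton] at he
    rcases he with h | h | h | h | h
    · exact hq (k - 1) (by rw [h]; push_cast; ring)
    · exact hq k h
    · exact hq (k + 1) (by rw [h]; push_cast; ring)
    · exact hq2 (by rw [hfac, h, sub_self, zero_mul])
    · exact hq2 (by rw [hfac, h, sub_self, mul_zero])
  · intro t ht
    simp only [Finset.mem_insert, Finset.mem_singleton]
    rcases ht with h | h | h | h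
    · exact Or.inl h
    · exact Or.inr (Or.inl h)
    · exact Or.inr (Or.inr (Or.inl h))
    · rw [hfac] at h
      rcases mul_eq_zero.1 h with h | h
      · exact Or.inr (Or.inr (Or.inr (Or.inl (sub_eq_zero.1 h))))
      · exact Or.inr (Or.inr (Or.inr (Or.inr (sub_eq_zero.1 h))))

/-- an integer and its two neighbours in the imaginary direction -/
lemma three (c : ℤ) : ∃ E : Finset ℂ, LowDeg E ∧ ∀ t : ℂ, ExcA c t → t ∈ E := by
  classical
  have hI := Complex.I_sq
  refine ⟨{(c : ℂ), (c : ℂ) + Complex.I, (c : ℂ) - Complex.I},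
    ⟨Finset.card_le_three.trans (by norm_num), ?_⟩, ?_⟩
  · intro e he
    have hq2 : (e - c) ^ 2 = -1 → ∃ q : ℤ[X], q ≠ 0 ∧ q.natDegree ≤ 2 ∧ aeval e q = 0 := by
      intro h0
      obtain ⟨q1, q2⟩ := monic_quad (-2 * c) (c ^ 2 + 1)
      refine ⟨_, q1.ne_zero, q2.le, ?_⟩
      simp only [map_add, map_mul, map_pow, aeval_X, aeval_C]
      push_cast [algebraMap_int_eq, eq_intCast]
      linear_combination h0
    simp only [Finset.mem_insert, Finset.mem_singleton] at he
    rcases he with h | h | h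
    · refine ⟨X - C c, (monic_X_sub_C c).ne_zero, by rw [natDegree_X_sub_C]; norm_num, ?_⟩
      rw [h]
      simp
    · exact hq2 (by rw [h]; linear_combination hI)
    · exact hq2 (by rw [h]; linear_combination hI)
  · intro t ht
    simp only [Finset.mem_insert, Finset.mem_singleton]
    rcases ht with h | h
    · exact Or.inl h
    · have h1 : (t - (c + Complex.I)) * (t - (c - Complex.I)) = 0 := by
        linear_combination h - hI
      rcases mul_eq_zero.1 h1 with h | h
      · exact Or.inr (Or.inl (sub_eq_zero.1 h))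
      · exact Or.inr (Or.inr (sub_eq_zero.1 h))

/-- the middle coefficients vanish -/
lemma trinomial {A : ℤ[X]} {n : ℕ} (hn : 0 < n) (hd : A.natDegree = 2 * n)
    (hlow : ∀ i, 0 < i → i < n → A.coeff i = 0 ∧ A.coeff (2 * n - i) = 0) :
    A = C A.leadingCoeff * X ^ (2 * n) + C (A.coeff n) * X ^ n + C (A.coeff 0) := by
  ext i
  rw [coeff_add, coeff_add, coeff_C_mul, coeff_C_mul, coeff_X_pow, coeff_X_pow, coeff_C,
    leadingCoeff, hd]
  rcases lt_trichotomy i n with h | h | h
  · rcases Nat.eq_zero_or_pos i with h0 | h0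
    · rw [h0, if_neg (by omega), if_neg (by omega), if_pos rfl]
      ring
    · rw [(hlow i h0 h).1, if_neg (by omega), if_neg (by omega), if_neg (by omega)]
      ring
  · rw [h, if_neg (by omega), if_pos rfl, if_neg (by omega)]
    ring
  · rcases lt_trichotomy i (2 * n) with h1 | h1 | h1
    · have h2 := (hlow (2 * n - i) (by omega) (by omega)).2
      rw [show 2 * n - (2 * n - i) = i by omega] at h2
      rw [h2, if_neg (by omega), if_neg (by omega), if_neg (by omega)]
      ring
    · rw [h1, if_pos rfl, if_neg (by omega), if_neg (by omega)]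
      ring
    · rw [coeff_eq_zero_of_natDegree_lt (by omega), if_neg (by omega), if_neg (by omega),
        if_neg (by omega)]
      ring

/-- **Laurent polynomials with poles at zero and at infinity** -/
lemma bd_two_poles {h : LP} {A : ℤ[X]} {n : ℕ} (hn : 0 < n) (hnd : n < A.natDegree)
    (h0 : A.coeff 0 ≠ 0) (hA : toLaurent A = (LaurentPolynomial.T n : LP) * h)
    (h1 : ∀ a c m : ℤ, h ≠ LaurentPolynomial.C a *
      (LaurentPolynomial.T m + LaurentPolynomial.T (-m)) + LaurentPolynomial.C c)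
    (h2 : ∀ a c m : ℤ, h ≠ LaurentPolynomial.C a *
      (LaurentPolynomial.T m - LaurentPolynomial.T (-m)) + LaurentPolynomial.C c) :
    ∃ E, LowDeg E ∧ Bd h E := by
  classical
  -- the shape of the trinomials
  have hh : h = LaurentPolynomial.T (-n) * toLaurent A := by
    rw [hA, ← mul_assoc, ← LaurentPolynomial.T_add, neg_add_cancel, LaurentPolynomial.T_zero,
      one_mul]
  have htri : A.natDegree = 2 * n →
      (∀ i, 0 < i → i < n → A.coeff i = 0 ∧ A.coeff (2 * n - i) = 0) →
      h = LaurentPolynomial.C A.leadingCoeff * LaurentPolynomial.T n +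
        LaurentPolynomial.C (A.coeff n) +
        LaurentPolynomial.C (A.coeff 0) * LaurentPolynomial.T (-n) := by
    intro hd hlow
    have e := trinomial hn hd hlow
    rw [hh]
    conv_lhs => rw [e]
    rw [map_add, map_add, map_mul, map_mul, toLaurent_X_pow, toLaurent_X_pow, toLaurent_C,
      toLaurent_C, toLaurent_C]
    have e1 : (LaurentPolynomial.T (-n) : LP) * LaurentPolynomial.T ((2 * n : ℕ) : ℤ) =
        LaurentPolynomial.T n := by
      rw [← LaurentPolynomial.T_add]
      congr 1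
      push_cast
      ring
    have e2 : (LaurentPolynomial.T (-n) : LP) * LaurentPolynomial.T (n : ℤ) = 1 := by
      rw [← LaurentPolynomial.T_add, neg_add_cancel, LaurentPolynomial.T_zero]
    linear_combination LaurentPolynomial.C A.leadingCoeff * e1 +
      LaurentPolynomial.C (A.coeff n) * e2
  by_cases c1 : A.natDegree = 2 * n ∧ A.reverse = A
  · obtain ⟨hd, hs⟩ := c1
    have hsym : ∀ i ≤ 2 * n, A.coeff (2 * n - i) = A.coeff i := by
      intro i hi
      have h1 : A.reverse.coeff i = A.coeff (2 * n - i) := by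
        rw [coeff_reverse, hd, revAt_le hi]
      rw [← h1, hs]
    have hmid : ∃ i, 0 < i ∧ i < n ∧ A.coeff i ≠ 0 := by
      by_contra hcon
      push Not at hcon
      have h3 := htri hd fun i hi0 hin => ⟨hcon i hi0 hin, by
        rw [hsym i (by omega)]
        exact hcon i hi0 hin⟩
      apply h1 (A.coeff 0) (A.coeff n) n
      have h4 : A.leadingCoeff = A.coeff 0 := by
        rw [leadingCoeff, hd, ← hsym 0 (by omega), Nat.sub_zero]
      rw [h3, h4]
      ring
    obtain ⟨k, m, hkm⟩ := symmetric' hn hd hs hmid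
    obtain ⟨E, hE, hcov⟩ := five k m
    refine ⟨E, hE, bd_of_pcomp hA fun g hg => ?_⟩
    obtain ⟨b1, b2⟩ := hkm g hg
    have h3 := outE_le g E hcov
    have h4 : (outE g E : ℝ) ≤ cntE (fun t => t = k - 1 ∨ t = k ∨ t = k + 1 ∨
      t ^ 2 - (2 * m + 1) * t + (m ^ 2 + m - 1) = 0) g := by exact_mod_cast h3
    exact ⟨(Real.exp_le_exp.2 (by linarith)).trans b1,
      fun h5 => exp_002.trans (b2 (by omega))⟩
  by_cases c2 : A.natDegree = 2 * n ∧ ∃ c : ℤ, A.reverse = C c * X ^ n - A
  · obtain ⟨hd, c, hs⟩ := c2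
    have hsym : ∀ i ≤ 2 * n, A.coeff (2 * n - i) = (if i = n then c else 0) - A.coeff i := by
      intro i hi
      have h1 : A.reverse.coeff i = A.coeff (2 * n - i) := by
        rw [coeff_reverse, hd, revAt_le hi]
      rw [← h1, hs, coeff_sub, coeff_C_mul, coeff_X_pow]
      split_ifs <;> simp
    have hmid : ∃ i, 0 < i ∧ i < n ∧ A.coeff i ≠ 0 := by
      by_contra hcon
      push Not at hcon
      have h3 := htri hd fun i hi0 hin => ⟨hcon i hi0 hin, by
        rw [hsym i (by omega), if_neg (by omega), hcon i hi0 hin, sub_zero]⟩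
      apply h2 A.leadingCoeff (A.coeff n) n
      have h4 : A.coeff 0 = -A.leadingCoeff := by
        have h5 := hsym 0 (by omega)
        rw [if_neg (by omega), Nat.sub_zero] at h5
        rw [leadingCoeff, hd, h5]
        ring
      rw [h4, map_neg] at h3
      rw [h3]
      ring
    obtain ⟨E, hE, hcov⟩ := three (A.coeff n)
    refine ⟨E, hE, bd_of_pcomp hA fun g hg => ?_⟩
    obtain ⟨b1, b2⟩ := antisymmetric hn hd hs hmid hg
    have h3 := outE_le g E hcov
    have h4 : (outE g E : ℝ) ≤ cntE (ExcA (A.coeff n)) g := by exact_mod_cast h3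
    refine ⟨(Real.exp_le_exp.2 (by linarith)).trans b1, fun h5 => ?_⟩
    have h6 := b2 (by omega)
    have h7 := Real.add_one_le_exp (0.0021 : ℝ)
    linarith
  · obtain ⟨s, hs, hb⟩ := laurent h0 hn hnd (fun h3 h4 => c1 ⟨h3.symm, h4⟩)
      (fun h3 c h4 => c2 ⟨h3.symm, c, h4⟩)
    refine ⟨_, lowDeg_image (hs.trans (by norm_num)), bd_of_pcomp hA fun g hg => ?_⟩
    have h3 := hb g hg
    have h4 : Real.goldenRatio ^ outE g (s.image fun q : ℚ => (q : ℂ)) ≤
        MM (pcomp g A (X ^ n)) ^ 2 := (golden_pow_mono (outE_le' g s)).trans h3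
    have h5 : pcomp g A (X ^ n) ≠ 0 := by
      intro h6
      rw [h6] at h3
      have h7 : MM 0 = 0 := by simp [MM]
      rw [h7] at h3
      have := pow_pos Real.goldenRatio_pos (outside g s)
      norm_num at h3
      linarith
    exact of_golden (one_le_MM h5) h4

/-- **All Laurent polynomials** -/
theorem all_laurent (h : LP)
    (hh : ∀ a c m : ℤ, h ≠ LaurentPolynomial.C a * LaurentPolynomial.T m + LaurentPolynomial.C c ∧
      h ≠ LaurentPolynomial.C a * (LaurentPolynomial.T m + LaurentPolynomial.T (-m)) +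
        LaurentPolynomial.C c ∧
      h ≠ LaurentPolynomial.C a * (LaurentPolynomial.T m - LaurentPolynomial.T (-m)) +
        LaurentPolynomial.C c) : ∃ E, LowDeg E ∧ Bd h E := by
  have hne : h ≠ 0 := by
    intro h0
    apply (hh 0 0 0).1
    rw [h0]
    simp
  obtain ⟨n, f, hf⟩ := LaurentPolynomial.exists_T_pow h
  have hf0 : f ≠ 0 := by
    rintro rfl
    rw [map_zero] at hf
    exact mul_ne_zero hne (T_ne n) hf.symm
  set l := f.natTrailingDegree with hl
  obtain ⟨A, hA⟩ : X ^ l ∣ f := by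
    rw [X_pow_dvd_iff]
    intro d hd'
    exact coeff_eq_zero_of_lt_natTrailingDegree hd'
  have hA0 : A.coeff 0 ≠ 0 := by
    have h3 : f.coeff l ≠ 0 := mt trailingCoeff_eq_zero.1 hf0
    rw [hA, coeff_X_pow_mul', if_pos le_rfl, Nat.sub_self] at h3
    exact h3
  have hAl : toLaurent A = (LaurentPolynomial.T ((n : ℤ) - l) : LP) * h := by
    have h1 : (LaurentPolynomial.T (l : ℤ) : LP) * toLaurent A = LaurentPolynomial.T n * h := by
      rw [← toLaurent_X_pow, ← map_mul, ← hA, hf, mul_comm]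
    have h2 : (LaurentPolynomial.T ((n : ℤ) - l) : LP) =
        LaurentPolynomial.T (-(l : ℤ)) * LaurentPolynomial.T n := by
      rw [← LaurentPolynomial.T_add]
      congr 1
      ring
    rw [h2, mul_assoc, ← h1, ← mul_assoc, ← LaurentPolynomial.T_add, neg_add_cancel,
      LaurentPolynomial.T_zero, one_mul]
  -- `h` is a polynomial in the variable or its inverse
  have hpoly : ∀ h' : LP, (∀ a c m : ℤ, h' ≠ LaurentPolynomial.C a * LaurentPolynomial.T m +
      LaurentPolynomial.C c) → (∃ B : ℤ[X], h' = toLaurent B) → ∃ E, LowDeg E ∧ Bd h' E := by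
    intro h' hh' hB
    obtain ⟨B, hB⟩ := hB
    apply bd_poly hB
    intro a c m hBe
    apply hh' a c m
    rw [hB, hBe, map_add, map_mul, toLaurent_C, toLaurent_C, toLaurent_X_pow]
  rcases le_or_gt ((n : ℤ) - l) 0 with hc | hc
  · apply hpoly h (fun a c m => (hh a c m).1)
    refine ⟨X ^ (l - n) * A, ?_⟩
    rw [map_mul, toLaurent_X_pow, hAl, ← mul_assoc, ← LaurentPolynomial.T_add]
    have : (((l - n : ℕ) : ℤ) + ((n : ℤ) - l)) = 0 := by omega
    rw [this, LaurentPolynomial.T_zero, one_mul]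
  rcases le_or_gt (A.natDegree : ℤ) ((n : ℤ) - l) with hc2 | hc2
  · obtain ⟨E, hE, hb⟩ := hpoly (LaurentPolynomial.invert h) (by
      intro a c m he
      apply (hh a c (-m)).1
      have h3 := congrArg LaurentPolynomial.invert he
      rw [map_add, map_mul, LaurentPolynomial.invert_C, LaurentPolynomial.invert_C,
        LaurentPolynomial.invert_T, LaurentPolynomial.involutive_invert h] at h3
      exact h3) (by
      refine ⟨X ^ (n - l - A.natDegree) * A.reverse, ?_⟩
      rw [map_mul, toLaurent_X_pow, LaurentPolynomial.toLaurent_reverse, hAl, map_mul,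
        LaurentPolynomial.invert_T]
      have e1 : (LaurentPolynomial.T ((n - l - A.natDegree : ℕ) : ℤ) : LP) *
          (LaurentPolynomial.T (-((n : ℤ) - l)) * LaurentPolynomial.invert h *
            LaurentPolynomial.T (A.natDegree : ℤ)) =
          (LaurentPolynomial.T ((n - l - A.natDegree : ℕ) : ℤ) *
            LaurentPolynomial.T (-((n : ℤ) - l)) * LaurentPolynomial.T (A.natDegree : ℤ)) *
            LaurentPolynomial.invert h := by ring
      rw [e1, ← LaurentPolynomial.T_add, ← LaurentPolynomial.T_add]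
      have e2 : (((n - l - A.natDegree : ℕ) : ℤ) + -((n : ℤ) - l) + (A.natDegree : ℤ)) = 0 := by
        omega
      rw [e2, LaurentPolynomial.T_zero, one_mul])
    exact ⟨E, hE, bd_invert hb⟩
  · obtain ⟨N, hN⟩ : ∃ N : ℕ, (N : ℤ) = (n : ℤ) - l := ⟨n - l, by omega⟩
    rw [← hN] at hAl hc hc2
    exact bd_two_poles (n := N) (by omega) (by omega) hA0 hAl (fun a c m => (hh a c m).2.1)
      (fun a c m => (hh a c m).2.2)

end Pool.Agent.Run7.h80.Sym
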