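import Mathlib
import Pool.Agent.Run7.h80.Sym.LG

/-!
# The complete theorem
-/

set_option autoImplicit false

open Polynomial

namespace Pool.Agent.Run7.h80.Sym

open Pool.Agent.Run7.h80.Comp

/-- large leading coefficients -/
lemma bd_big_pos {h : LP} {a b c : ℤ} {n : ℕ} (hn : 0 < n) (ha : 2 ≤ |a|)
    (hh : h = LaurentPolynomial.C a * LaurentPolynomial.T n +
      LaurentPolynomial.C b * LaurentPolynomial.T (-n) + LaurentPolynomial.C c) : Bd h ∅ := by
  have ha0 : a ≠ 0 := by
    rintro rfl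
    simp at ha
  have hsmall : (C c * X ^ n + C b : ℤ[X]).natDegree < 2 * n := by
    refine lt_of_le_of_lt (natDegree_add_le _ _) (max_lt ?_ ?_)
    · exact lt_of_le_of_lt (natDegree_C_mul_X_pow_le c n) (by omega)
    · rw [natDegree_C]
      omega
  have hbig : (C a * X ^ (2 * n) : ℤ[X]).natDegree = 2 * n := natDegree_C_mul_X_pow _ _ ha0
  have hd : (C a * X ^ (2 * n) + (C c * X ^ n + C b) : ℤ[X]).natDegree = 2 * n := by
    rw [natDegree_add_eq_left_of_natDegree_lt (by rw [hbig]; exact hsmall), hbig]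
  have hlc : (C a * X ^ (2 * n) + (C c * X ^ n + C b) : ℤ[X]).leadingCoeff = a := by
    rw [leadingCoeff, hd, coeff_add, coeff_C_mul, coeff_X_pow, if_pos rfl,
      coeff_eq_zero_of_natDegree_lt hsmall]
    ring
  apply bd_of_pcomp (A := C a * X ^ (2 * n) + (C c * X ^ n + C b)) (n := n)
  · rw [hh, map_add, map_add, map_mul, map_mul, toLaurent_C, toLaurent_C, toLaurent_C,
      toLaurent_X_pow, toLaurent_X_pow]
    have e1 : (LaurentPolynomial.T ((2 * n : ℕ) : ℤ) : LP) =
        LaurentPolynomial.T n * LaurentPolynomial.T n := by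
      rw [← LaurentPolynomial.T_add]
      congr 1
      push_cast
      ring
    have e2 : (LaurentPolynomial.T (n : ℤ) : LP) * LaurentPolynomial.T (-n) = 1 := by
      rw [← LaurentPolynomial.T_add, add_neg_cancel, LaurentPolynomial.T_zero]
    rw [e1]
    linear_combination (-LaurentPolynomial.C b) * e2
  · intro g hg
    have h1 := large_case (A := C a * X ^ (2 * n) + (C c * X ^ n + C b)) hd hn
      (by rw [hlc]; exact ha) (E := fun t => t ∈ (∅ : Finset ℂ)) hg (γ := 0.002) (by norm_num)
    have h2 : outE g ∅ ≤ cntE (fun t => t ∈ (∅ : Finset ℂ)) g := outE_le g ∅ fun t ht => ht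
    have h3 : (outE g ∅ : ℝ) ≤ cntE (fun t => t ∈ (∅ : Finset ℂ)) g := by exact_mod_cast h2
    exact ⟨(Real.exp_le_exp.2 (by linarith)).trans h1.1,
      fun h5 => exp_002.trans (h1.2 (by omega))⟩

lemma bd_big {h : LP} {a b c m : ℤ} (hm : m ≠ 0) (ha : 2 ≤ |a|)
    (hh : h = LaurentPolynomial.C a * LaurentPolynomial.T m +
      LaurentPolynomial.C b * LaurentPolynomial.T (-m) + LaurentPolynomial.C c) : Bd h ∅ := by
  rcases lt_or_gt_of_ne hm with h0 | h0
  · apply bd_invert
    obtain ⟨n, hn⟩ : ∃ n : ℕ, (n : ℤ) = -m := ⟨(-m).toNat, by omega⟩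
    apply bd_big_pos (n := n) (a := a) (b := b) (c := c) (by omega) ha
    rw [hh, map_add, map_add, map_mul, map_mul, LaurentPolynomial.invert_C,
      LaurentPolynomial.invert_C, LaurentPolynomial.invert_C, LaurentPolynomial.invert_T,
      LaurentPolynomial.invert_T, hn]
  · obtain ⟨n, hn⟩ : ∃ n : ℕ, (n : ℤ) = m := ⟨m.toNat, by omega⟩
    apply bd_big_pos (n := n) (a := a) (b := b) (c := c) (by omega) ha
    rw [hh, hn]

lemma lowDeg_empty : LowDeg ∅ := ⟨by simp, fun e he => absurd he (Finset.notMem_empty e)⟩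

/-- **The complete theorem** -/
theorem full (h : LP)
    (hh : ∀ ε δ c m : ℤ, |ε| = 1 → |δ| ≤ 1 →
      h ≠ LaurentPolynomial.C ε * LaurentPolynomial.T m +
        LaurentPolynomial.C δ * LaurentPolynomial.T (-m) + LaurentPolynomial.C c) :
    ∃ E, LowDeg E ∧ Bd h E := by
  have hconst : ∀ c : ℤ, h ≠ LaurentPolynomial.C c := by
    intro c hc
    apply hh 1 0 (c - 1) 0 (by norm_num) (by norm_num)
    rw [hc, LaurentPolynomial.T_zero, map_zero, map_one, map_sub, map_one]
    ring
  -- the two-sided shapes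
  have key : ∀ a b c m : ℤ, (b = 0 ∨ b = a ∨ b = -a) → h = LaurentPolynomial.C a *
      LaurentPolynomial.T m + LaurentPolynomial.C b * LaurentPolynomial.T (-m) +
        LaurentPolynomial.C c → ∃ E, LowDeg E ∧ Bd h E := by
    intro a b c m hb he
    by_cases hm : m = 0
    · exfalso
      apply hconst (a + b + c)
      rw [he, hm, neg_zero, LaurentPolynomial.T_zero, mul_one, mul_one, map_add, map_add]
    by_cases ha : a = 0
    · exfalso
      have hb0 : b = 0 := by
        rcases hb with h1 | h1 | h1 <;> omega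
      apply hconst c
      rw [he, ha, hb0, map_zero, zero_mul, zero_mul, add_zero, zero_add]
    rcases le_or_gt 2 |a| with h2 | h2
    · exact ⟨∅, lowDeg_empty, bd_big hm h2 he⟩
    · exfalso
      have ha1 : |a| = 1 := by
        have := Int.one_le_abs ha
        omega
      have hb1 : |b| ≤ 1 := by
        rcases hb with h1 | h1 | h1
        · rw [h1]
          norm_num
        · rw [h1, ha1]
        · rw [h1, abs_neg, ha1]
      exact hh a b c m ha1 hb1 he
  by_cases c1 : ∃ a c m : ℤ, h = LaurentPolynomial.C a * LaurentPolynomial.T m +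
      LaurentPolynomial.C c
  · obtain ⟨a, c, m, he⟩ := c1
    apply key a 0 c m (Or.inl rfl)
    rw [he, map_zero, zero_mul, add_zero]
  by_cases c2 : ∃ a c m : ℤ, h = LaurentPolynomial.C a * (LaurentPolynomial.T m +
      LaurentPolynomial.T (-m)) + LaurentPolynomial.C c
  · obtain ⟨a, c, m, he⟩ := c2
    apply key a a c m (Or.inr (Or.inl rfl))
    rw [he]
    ring
  by_cases c3 : ∃ a c m : ℤ, h = LaurentPolynomial.C a * (LaurentPolynomial.T m -
      LaurentPolynomial.T (-m)) + LaurentPolynomial.C c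
  · obtain ⟨a, c, m, he⟩ := c3
    apply key a (-a) c m (Or.inr (Or.inr rfl))
    rw [he, map_neg]
    ring
  exact all_laurent h fun a c m => ⟨fun h1 => c1 ⟨a, c, m, h1⟩, fun h1 => c2 ⟨a, c, m, h1⟩,
    fun h1 => c3 ⟨a, c, m, h1⟩⟩

/-- an irreducible polynomial of degree at least three has no zero of degree at most two -/
lemma outE_irreducible {g : ℤ[X]} (hg : Irreducible g) (h3 : 3 ≤ g.natDegree) {E : Finset ℂ}
    (hE : ∀ e ∈ E, ∃ q : ℤ[X], q ≠ 0 ∧ q.natDegree ≤ 2 ∧ aeval e q = 0) :
    outE g E = g.natDegree := by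
  classical
  rw [outE, Multiset.filter_eq_self.2, card_roots_eq]
  intro t ht hmem
  obtain ⟨q, hq0, hq2, hqt⟩ := hE t hmem
  have hgt : aeval t g = 0 := by
    have := (mem_roots'.1 ht).2
    rwa [IsRoot, eval_map] at this
  have hprim : g.IsPrimitive := hg.isPrimitive (by omega)
  have hirr : Irreducible (g.map (Int.castRingHom ℚ)) :=
    (IsPrimitive.Int.irreducible_iff_irreducible_map_cast hprim).1 hg
  have hinj : Function.Injective (Int.castRingHom ℚ) := (Int.castRingHom ℚ).injective_int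
  have e1 : ∀ p : ℤ[X], aeval t (p.map (Int.castRingHom ℚ)) = aeval t p := by
    intro p
    rw [aeval_def, aeval_def, eval₂_map]
    congr 1
  have h1 := minpoly.eq_of_irreducible hirr (by rw [e1, hgt])
  have h2 : minpoly ℚ t ∣ q.map (Int.castRingHom ℚ) := minpoly.dvd ℚ t (by rw [e1, hqt])
  have h4 := natDegree_le_of_dvd h2 ((Polynomial.map_ne_zero_iff hinj).2 hq0)
  rw [← h1, natDegree_mul_C (inv_ne_zero (leadingCoeff_ne_zero.2 hirr.ne_zero)),
    natDegree_map_eq_of_injective hinj, natDegree_map_eq_of_injective hinj] at h4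
  omega

end Pool.Agent.Run7.h80.Sym
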