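import Mathlib
import Pool.Agent.Run7.h80.Sym.Main

/-!
# Geometry of pencils
-/

set_option autoImplicit false

open Polynomial

namespace Pool.Agent.Run7.h80.Sym

/-- the pairwise inequality on a segment -/
theorem pair_segment {P : ℂ[X]} {a : ℕ} (ha : 0 < a) (hP : P.natDegree ≤ 2 * a)
    (hP0 : P.coeff 0 ≠ 0) {s t x : ℂ} (hx : x ∈ segment ℝ s t) :
    ‖P.coeff 0‖ * (P - C x * X ^ a).mahlerMeasure ≤
      (P - C s * X ^ a).mahlerMeasure * (P - C t * X ^ a).mahlerMeasure := by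
  obtain ⟨u, v, hu, hv, huv, rfl⟩ := hx
  have h1 := pair_inner_complex ha hP hP0 s t (y := v) hv (by linarith)
  have h2 : (1 - (v : ℂ)) * s + v * t = u • s + v • t := by
    have h3 : (u : ℂ) = 1 - v := by
      have : u = 1 - v := by linarith
      rw [this]
      push_cast
      ring
    rw [Complex.real_smul, Complex.real_smul, h3]
  rwa [h2] at h1

/-- distances -/
theorem SI.dist_mahler {Q : ℂ[X]} {n : ℕ} (h : SI Q n) (s t : ℝ) :
    |s - t| ≤ 4 * (pen Q n s).mahlerMeasure * (pen Q n t).mahlerMeasure := by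
  rcases le_total s t with h1 | h1
  · have h2 := h.dist h1
    rw [Real.exp_add, h.exp_G, h.exp_G] at h2
    rw [abs_sub_comm, abs_of_nonneg (by linarith)]
    linarith
  · have h2 := h.dist h1
    rw [Real.exp_add, h.exp_G, h.exp_G] at h2
    rw [abs_of_nonneg (by linarith)]
    linarith

/-- reciprocal polynomials with integer coefficients -/
theorem int_dist {F : ℤ[X]} {n : ℕ} (hn : 0 < n) (hd : F.natDegree = 2 * n)
    (hs : F.reverse = F) (k l : ℤ) :
    |(k : ℝ) - l| ≤ 4 * ((F - C k * X ^ n).map (Int.castRingHom ℂ)).mahlerMeasure *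
      ((F - C l * X ^ n).map (Int.castRingHom ℂ)).mahlerMeasure := by
  have hF0 : F ≠ 0 := by
    rintro rfl
    rw [natDegree_zero] at hd
    omega
  have hlc := leadingCoeff_ne_zero.2 hF0
  set a : ℝ := (F.leadingCoeff : ℝ) with ha
  have ha1 : 1 ≤ |a| := by
    rw [ha]
    exact_mod_cast Int.one_le_abs hlc
  have ha0 : a ≠ 0 := by
    intro h0
    rw [h0, abs_zero] at ha1
    linarith
  have hac : (a : ℂ) ≠ 0 := by exact_mod_cast ha0
  have hsym : ∀ i ≤ 2 * n, F.coeff (2 * n - i) = F.coeff i := by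
    intro i hi
    have h1 : F.reverse.coeff i = F.coeff (2 * n - i) := by
      rw [coeff_reverse, hd, revAt_le hi]
    rw [← h1, hs]
  have hac' : (F.leadingCoeff : ℂ) = (a : ℂ) := by
    rw [ha]
    push_cast
    rfl
  set Q : ℂ[X] := C ((a : ℂ)⁻¹) * F.map (Int.castRingHom ℂ) with hQ
  have hQc : ∀ i, Q.coeff i = (a : ℂ)⁻¹ * (F.coeff i : ℂ) := fun i => by
    rw [hQ, coeff_C_mul, coeff_map]
    rfl
  have hSI : SI Q n :=
    { deg := by
        rw [hQ, natDegree_C_mul (inv_ne_zero hac),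
          natDegree_map_eq_of_injective (Int.castRingHom ℂ).injective_int, hd]
      npos := hn
      sym := fun i hi => by
        rw [hQc, hQc, hsym i hi, map_mul, map_inv₀, Complex.conj_ofReal, map_intCast]
      one := by
        rw [hQc, ← hsym 0 (by omega), Nat.sub_zero, ← hd]
        change ‖(a : ℂ)⁻¹ * (F.leadingCoeff : ℂ)‖ = 1
        rw [hac', inv_mul_cancel₀ hac, norm_one] }
  have hpen : ∀ z : ℤ, ((F - C z * X ^ n).map (Int.castRingHom ℂ)).mahlerMeasure =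
      |a| * (pen Q n ((z / a : ℝ) : ℂ)).mahlerMeasure := by
    intro z
    have h1 : (F - C z * X ^ n).map (Int.castRingHom ℂ) = C (a : ℂ) * pen Q n ((z / a : ℝ) : ℂ) := by
      rw [pen, hQ, mul_sub, ← mul_assoc, ← C_mul, mul_inv_cancel₀ hac, C_1, one_mul, ← mul_assoc,
        ← C_mul, Polynomial.map_sub, Polynomial.map_mul, map_C, Polynomial.map_pow, map_X]
      congr 3
      push_cast
      field_simp
      rfl
    rw [h1, mahlerMeasure_mul, mahlerMeasure_const, Complex.norm_real, Real.norm_eq_abs]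
  have h2 := hSI.dist_mahler (k / a) (l / a)
  rw [hpen, hpen]
  have h3 : |(k : ℝ) / a - l / a| = |(k : ℝ) - l| / |a| := by
    rw [← sub_div, abs_div]
  rw [h3, div_le_iff₀ (by linarith)] at h2
  have h4 := hSI.one_le ((k / a : ℝ) : ℂ)
  have h5 := hSI.one_le ((l / a : ℝ) : ℂ)
  have h6 : 0 ≤ 4 * (pen Q n ((k / a : ℝ) : ℂ)).mahlerMeasure *
      (pen Q n ((l / a : ℝ) : ℂ)).mahlerMeasure * |a| := by positivity
  calc |(k : ℝ) - l| ≤ 4 * (pen Q n ((k / a : ℝ) : ℂ)).mahlerMeasure *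
        (pen Q n ((l / a : ℝ) : ℂ)).mahlerMeasure * |a| := h2
    _ ≤ (4 * (pen Q n ((k / a : ℝ) : ℂ)).mahlerMeasure *
        (pen Q n ((l / a : ℝ) : ℂ)).mahlerMeasure * |a|) * |a| := le_mul_of_one_le_right h6 ha1
    _ = _ := by ring

/-- integers in a set of small diameter -/
lemma ncard_le_of_diam {S : Set ℤ} {D : ℝ} (hD : 0 ≤ D)
    (h : ∀ k ∈ S, ∀ l ∈ S, |(k : ℝ) - l| ≤ D) : S.Finite ∧ (S.ncard : ℝ) ≤ D + 1 := by
  rcases S.eq_empty_or_nonempty with rfl | ⟨k0, hk0⟩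
  · refine ⟨Set.finite_empty, ?_⟩
    rw [Set.ncard_empty, Nat.cast_zero]
    linarith
  have hb : ∀ k ∈ S, ∀ l ∈ S, k ≤ l + ⌊D⌋ := by
    intro k hk l hl
    have h1 := (abs_le.1 (h k hk l hl)).2
    have h2 : k - l ≤ ⌊D⌋ := by
      rw [Int.le_floor]
      push_cast
      exact h1
    omega
  obtain ⟨m, hm, hmin⟩ := Int.exists_least_of_bdd (P := fun k => k ∈ S)
    ⟨k0 - ⌊D⌋, fun z hz => by
      have := hb k0 hk0 z hz
      omega⟩ ⟨k0, hk0⟩
  have hsub : S ⊆ Set.Icc m (m + ⌊D⌋) := fun z hz => ⟨hmin z hz, hb z hz m hm⟩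
  have hfin : (Set.Icc m (m + ⌊D⌋)).Finite := Set.finite_Icc _ _
  refine ⟨hfin.subset hsub, ?_⟩
  have h1 := Set.ncard_le_ncard hsub hfin
  have h2 : (Set.Icc m (m + ⌊D⌋)).ncard = (⌊D⌋ + 1).toNat := by
    rw [← Finset.coe_Icc, Set.ncard_coe_finset, Int.card_Icc]
    congr 1
    ring
  have h3 : 0 ≤ ⌊D⌋ := Int.floor_nonneg.2 hD
  have h4 : (S.ncard : ℤ) ≤ ⌊D⌋ + 1 := by
    rw [h2] at h1
    omega
  have h5 : (S.ncard : ℝ) ≤ ⌊D⌋ + 1 := by exact_mod_cast h4
  have h6 := Int.floor_le D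
  linarith

end Pool.Agent.Run7.h80.Sym
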