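import Mathlib
import Pool.Agent.Run7.h80.Sym.LG

/-!
# The sharp bound for Laurent polynomials without symmetry
-/

set_option autoImplicit false

open Polynomial

namespace Pool.Agent.Run7.h80.Sym

open Pool.Agent.Run7.h80.Comp

/-- the sharp bound for a Laurent polynomial -/
def Bs (h : LP) (s : Finset ℚ) : Prop :=
  ∀ (g F : ℤ[X]) (k : ℤ), g ≠ 0 → toLaurent F = LaurentPolynomial.T k * aeval h g →
    Real.goldenRatio ^ outside g s ≤ MM F ^ 2

lemma bs_poly {h : LP} {B : ℤ[X]} (hB : h = toLaurent B)
    (hh : ∀ (a c : ℤ) (m : ℕ), B ≠ C a * X ^ m + C c) : ∃ s : Finset ℚ, s.card ≤ 2 ∧ Bs h s := by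
  obtain ⟨s, hs, _, hb⟩ := comp_bound B hh
  refine ⟨s, hs, ?_⟩
  intro g F k hg hF
  have h1 : aeval h g = toLaurent (g.comp B) := by
    rw [hB, comp_eq_aeval, ← toLaurentAlg_apply, aeval_algHom_apply, toLaurentAlg_apply]
  have h2 : MM F = MM (g.comp B) := MM_eq_of_T (by rw [hF, h1])
  have h3 := hb g hg
  rwa [← h2] at h3

lemma bs_invert {h : LP} {s : Finset ℚ} (hb : Bs (LaurentPolynomial.invert h) s) : Bs h s := by
  intro g F k hg hF
  have h1 : toLaurent F.reverse = (LaurentPolynomial.T (F.natDegree - k) : LP) *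
      aeval (LaurentPolynomial.invert h) g := by
    rw [LaurentPolynomial.toLaurent_reverse, hF, map_mul, LaurentPolynomial.invert_T]
    have h2 : LaurentPolynomial.invert (aeval h g) = aeval (LaurentPolynomial.invert h) g :=
      (aeval_algHom_apply (LaurentPolynomial.invert (R := ℤ)).toAlgHom h g).symm
    rw [h2, mul_right_comm, ← LaurentPolynomial.T_add]
    congr 2
    ring
  have h2 := hb g F.reverse _ hg h1
  have h3 : MM F.reverse = MM F := by
    rw [MM, MM, ← mahlerMeasure_reverse (F.map (Int.castRingHom ℂ))]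
    congr 1
    ext j
    rw [coeff_map, coeff_reverse, coeff_reverse, natDegree_map_eq_of_injective inj, coeff_map]
  rwa [h3] at h2

/-- **Laurent polynomials without symmetry** -/
theorem sharp_laurent (h : LP)
    (hh : ∀ a c m : ℤ, h ≠ LaurentPolynomial.C a * LaurentPolynomial.T m + LaurentPolynomial.C c)
    (h1 : LaurentPolynomial.invert h ≠ h)
    (h2 : ∀ c : ℤ, LaurentPolynomial.invert h ≠ LaurentPolynomial.C c - h) :
    ∃ s : Finset ℚ, s.card ≤ 2 ∧ Bs h s := by
  have hne : h ≠ 0 := by
    intro h0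
    apply hh 0 0 0
    rw [h0]
    simp
  obtain ⟨n, f, hf⟩ := LaurentPolynomial.exists_T_pow h
  have hf0 : f ≠ 0 := by
    rintro rfl
    rw [map_zero] at hf
    exact mul_ne_zero hne (T_ne n) hf.symm
  set l := f.natTrailingDegree with hl
  obtain ⟨A, hA⟩ : X ^ l ∣ f := by
    rw [X_pow_dvd_iff]
    intro d hd'
    exact coeff_eq_zero_of_lt_natTrailingDegree hd'
  have hA0 : A.coeff 0 ≠ 0 := by
    have h3 : f.coeff l ≠ 0 := mt trailingCoeff_eq_zero.1 hf0
    rw [hA, coeff_X_pow_mul', if_pos le_rfl, Nat.sub_self] at h3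
    exact h3
  have hAl : toLaurent A = (LaurentPolynomial.T ((n : ℤ) - l) : LP) * h := by
    have h1 : (LaurentPolynomial.T (l : ℤ) : LP) * toLaurent A = LaurentPolynomial.T n * h := by
      rw [← toLaurent_X_pow, ← map_mul, ← hA, hf, mul_comm]
    have h2 : (LaurentPolynomial.T ((n : ℤ) - l) : LP) =
        LaurentPolynomial.T (-(l : ℤ)) * LaurentPolynomial.T n := by
      rw [← LaurentPolynomial.T_add]
      congr 1
      ring
    rw [h2, mul_assoc, ← h1, ← mul_assoc, ← LaurentPolynomial.T_add, neg_add_cancel,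
      LaurentPolynomial.T_zero, one_mul]
  have hpoly : ∀ h' : LP, (∀ a c m : ℤ, h' ≠ LaurentPolynomial.C a * LaurentPolynomial.T m +
      LaurentPolynomial.C c) → (∃ B : ℤ[X], h' = toLaurent B) →
      ∃ s : Finset ℚ, s.card ≤ 2 ∧ Bs h' s := by
    intro h' hh' hB
    obtain ⟨B, hB⟩ := hB
    apply bs_poly hB
    intro a c m hBe
    apply hh' a c m
    rw [hB, hBe, map_add, map_mul, toLaurent_C, toLaurent_C, toLaurent_X_pow]
  rcases le_or_gt ((n : ℤ) - l) 0 with hc | hc
  · apply hpoly h hh
    refine ⟨X ^ (l - n) * A, ?_⟩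
    rw [map_mul, toLaurent_X_pow, hAl, ← mul_assoc, ← LaurentPolynomial.T_add]
    have : (((l - n : ℕ) : ℤ) + ((n : ℤ) - l)) = 0 := by omega
    rw [this, LaurentPolynomial.T_zero, one_mul]
  rcases le_or_gt (A.natDegree : ℤ) ((n : ℤ) - l) with hc2 | hc2
  · obtain ⟨E, hE, hb⟩ := hpoly (LaurentPolynomial.invert h) (by
      intro a c m he
      apply hh a c (-m)
      have h3 := congrArg LaurentPolynomial.invert he
      rw [map_add, map_mul, LaurentPolynomial.invert_C, LaurentPolynomial.invert_C,
        LaurentPolynomial.invert_T, LaurentPolynomial.involutive_invert h] at h3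
      exact h3) (by
      refine ⟨X ^ (n - l - A.natDegree) * A.reverse, ?_⟩
      rw [map_mul, toLaurent_X_pow, LaurentPolynomial.toLaurent_reverse, hAl, map_mul,
        LaurentPolynomial.invert_T]
      have e1 : (LaurentPolynomial.T ((n - l - A.natDegree : ℕ) : ℤ) : LP) *
          (LaurentPolynomial.T (-((n : ℤ) - l)) * LaurentPolynomial.invert h *
            LaurentPolynomial.T (A.natDegree : ℤ)) =
          (LaurentPolynomial.T ((n - l - A.natDegree : ℕ) : ℤ) *
            LaurentPolynomial.T (-((n : ℤ) - l)) * LaurentPolynomial.T (A.natDegree : ℤ)) *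
            LaurentPolynomial.invert h := by ring
      rw [e1, ← LaurentPolynomial.T_add, ← LaurentPolynomial.T_add]
      have e2 : (((n - l - A.natDegree : ℕ) : ℤ) + -((n : ℤ) - l) + (A.natDegree : ℤ)) = 0 := by
        omega
      rw [e2, LaurentPolynomial.T_zero, one_mul])
    exact ⟨E, hE, bs_invert hb⟩
  · obtain ⟨N, hN⟩ : ∃ N : ℕ, (N : ℤ) = (n : ℤ) - l := ⟨n - l, by omega⟩
    rw [← hN] at hAl hc hc2
    have hrev : A.natDegree = 2 * N → toLaurent A.reverse =
        (LaurentPolynomial.T N : LP) * LaurentPolynomial.invert h := by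
      intro hd
      rw [LaurentPolynomial.toLaurent_reverse, hAl, map_mul, LaurentPolynomial.invert_T, hd,
        mul_right_comm, ← LaurentPolynomial.T_add]
      congr 2
      push_cast
      ring
    have hTN : (LaurentPolynomial.T (-N) : LP) * LaurentPolynomial.T (N : ℤ) = 1 := by
      rw [← LaurentPolynomial.T_add, neg_add_cancel, LaurentPolynomial.T_zero]
    obtain ⟨s, hs, hb⟩ := laurent hA0 (n := N) (by omega) (by omega) (fun h3 h4 => by
      apply h1
      have h5 := hrev h3.symm
      rw [h4, hAl] at h5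
      have h6 := congrArg (fun v : LP => LaurentPolynomial.T (-N) * v) h5
      simp only [← mul_assoc, hTN, one_mul] at h6
      exact h6.symm) (fun h3 c h4 => by
      apply h2 c
      have h5 := hrev h3.symm
      rw [h4, map_sub, map_mul, toLaurent_C, toLaurent_X_pow, hAl] at h5
      have h6 : (LaurentPolynomial.T (-N) : LP) * (LaurentPolynomial.C c *
          LaurentPolynomial.T N - LaurentPolynomial.T N * h) = LaurentPolynomial.T (-N) *
          (LaurentPolynomial.T N * LaurentPolynomial.invert h) :=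
        congrArg (fun v : LP => LaurentPolynomial.T (-N) * v) h5
      linear_combination (LaurentPolynomial.C c - h - LaurentPolynomial.invert h) * hTN - h6)
    refine ⟨s, hs.trans (by norm_num), ?_⟩
    intro g F k hg hF
    have h3 : MM F = MM (pcomp g A (X ^ N)) := by
      apply MM_eq_of_T (k := k - g.natDegree * N)
      rw [toLaurent_pcomp hAl, hF, ← mul_assoc, ← LaurentPolynomial.T_add]
      congr 2
      ring
    rw [h3]
    exact hb g hg

end Pool.Agent.Run7.h80.Sym
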